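import Mathlib

/-!
Real analysis: the final estimate. `G`, `N` are the two counting functions.

Write `Λ = (1 + log n) ^ 2`, `t = q + 1`, `w = m - m / t` (`w ≥ m - m/t` real, `w ≥ q` for `m ≥ t`, `n - w ≥ 1`).
Regime 1, `m ≤ ε n`: `s = w / q ≥ 1` steps of `hgrow`, each starting from at least `n / 2`, give
`N (n - w) ≤ N n exp (- s c n / 2)`, `s ≥ m / (4 q)`; the logarithm of the term is at most
`m (log n + log 2 + α m + C Λ - c n / (8 q))`, so `≤ - c' n m` for small `ε` and large `n`.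
Regime 2, `m > ε n`: by `hG`, `hNu`, `hNl` the logarithm is at most
`α n m - β n m (1 - 1 / t ^ 2) + C' n Λ` (from `β n^2 - β (n - (1 - 1/t) m)^2 ≥ β n m (1 - 1/t^2)` for `m ≤ n`).
There are at most `n` terms.
-/

set_option autoImplicit false

namespace Pool.Agent.AbS

open Filter Topology

/-- the logarithmic factor is small -/
private theorem log_small (κ : ℝ) (hκ : 0 < κ) :
    ∀ᶠ n : ℕ in atTop, (1 + Real.log n) ^ 2 ≤ κ * n := by
  have h1 : (fun x : ℝ => Real.log x ^ 2) =o[atTop] (id : ℝ → ℝ) :=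
    Real.isLittleO_pow_log_id_atTop
  have h2 : (fun x : ℝ => Real.log x) =o[atTop] (id : ℝ → ℝ) := Real.isLittleO_log_id_atTop
  have h3 : (fun _ : ℝ => (1 : ℝ)) =o[atTop] (id : ℝ → ℝ) :=
    Asymptotics.isLittleO_const_id_atTop 1
  have h4 : (fun x : ℝ => (1 + 2 * Real.log x) + Real.log x ^ 2) =o[atTop] (id : ℝ → ℝ) :=
    (h3.add (h2.const_mul_left 2)).add h1
  have h5 := tendsto_natCast_atTop_atTop.eventually (h4.def hκ)
  filter_upwards [h5] with n hn
  have h6 : (1 + Real.log n) ^ 2 = (1 + 2 * Real.log n) + Real.log n ^ 2 := by ring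
  rw [h6]
  refine (Real.le_norm_self _).trans (hn.trans (le_of_eq ?_))
  simp

/-- basic facts on the logarithmic factor -/
private theorem log_mono {m n : ℕ} (hm : 1 ≤ m) (hmn : m ≤ n) :
    (1 + Real.log m) ^ 2 ≤ (1 + Real.log n) ^ 2 := by
  have h1 : (1 : ℝ) ≤ m := by exact_mod_cast hm
  have h2 : (m : ℝ) ≤ n := by exact_mod_cast hmn
  have h3 : 0 ≤ Real.log m := Real.log_nonneg h1
  have h4 : Real.log m ≤ Real.log n := Real.log_le_log (by linarith) h2
  nlinarith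

private theorem one_le_lam {n : ℕ} (hn : 1 ≤ n) : 1 ≤ (1 + Real.log n) ^ 2 := by
  have h1 : (1 : ℝ) ≤ n := by exact_mod_cast hn
  have h3 : 0 ≤ Real.log n := Real.log_nonneg h1
  nlinarith

private theorem log_le_lam {n : ℕ} (hn : 1 ≤ n) : Real.log n ≤ (1 + Real.log n) ^ 2 := by
  have h1 : (1 : ℝ) ≤ n := by exact_mod_cast hn
  have h3 : 0 ≤ Real.log n := Real.log_nonneg h1
  nlinarith

private theorem pow_le_lam {n : ℕ} (hn : 1 ≤ n) (m : ℕ) :
    (n : ℝ) ^ m ≤ Real.exp (m * (1 + Real.log n) ^ 2) := by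
  have h1 : (1 : ℝ) ≤ n := by exact_mod_cast hn
  have h2 : (n : ℝ) ^ m = Real.exp (m * Real.log n) := by
    rw [Real.exp_nat_mul, Real.exp_log (by linarith)]
  rw [h2]
  exact Real.exp_le_exp.2 (mul_le_mul_of_nonneg_left (log_le_lam hn) (Nat.cast_nonneg m))

private theorem two_pow_le {n : ℕ} (hn : 1 ≤ n) (m : ℕ) :
    (2 : ℝ) ^ m ≤ Real.exp (m * (1 + Real.log n) ^ 2) := by
  have h1 := one_le_lam hn
  have h2 : (2 : ℝ) ≤ Real.exp ((1 + Real.log n) ^ 2) := by
    have := Real.add_one_le_exp ((1 + Real.log n) ^ 2)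
    linarith
  calc (2 : ℝ) ^ m ≤ Real.exp ((1 + Real.log n) ^ 2) ^ m := pow_le_pow_left₀ (by norm_num) h2 m
    _ = _ := by rw [← Real.exp_nat_mul]

private theorem exp4 (x y z u : ℝ) :
    Real.exp (x + y + z + u) = Real.exp x * Real.exp y * Real.exp z * Real.exp u := by
  rw [Real.exp_add, Real.exp_add, Real.exp_add]

/-- steps of `hgrow` -/
private theorem grow_steps (q : ℕ) (N : ℕ → ℝ) (c : ℝ) (hc : 0 < c) (hN1 : ∀ n, 1 ≤ N n) (n0 : ℕ)
    (hgrow : ∀ n, n0 ≤ n → Real.exp (c * n) * N n ≤ N (n + q)) (k : ℕ) (hk : n0 ≤ k) (L : ℝ)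
    (hL : L ≤ k) (s : ℕ) : Real.exp (s * (c * L)) * N k ≤ N (k + q * s) := by
  induction s with
  | zero => simp
  | succ s ih =>
    have h1 := hgrow (k + q * s) (by omega)
    have h2 : Real.exp (c * L) ≤ Real.exp (c * ((k + q * s : ℕ) : ℝ)) := by
      apply Real.exp_le_exp.2
      apply mul_le_mul_of_nonneg_left _ hc.le
      push_cast
      have : (0 : ℝ) ≤ q * s := by positivity
      linarith
    have h3 : k + q * s + q = k + q * (s + 1) := by ring
    rw [h3] at h1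
    calc Real.exp (((s + 1 : ℕ) : ℝ) * (c * L)) * N k
        = Real.exp (c * L) * (Real.exp (s * (c * L)) * N k) := by
          rw [← mul_assoc (Real.exp (c * L)), ← Real.exp_add]; congr 2; push_cast; ring
      _ ≤ Real.exp (c * L) * N (k + q * s) := mul_le_mul_of_nonneg_left ih (Real.exp_pos _).le
      _ ≤ Real.exp (c * ((k + q * s : ℕ) : ℝ)) * N (k + q * s) :=
          mul_le_mul_of_nonneg_right h2 (by linarith [hN1 (k + q * s)])
      _ ≤ _ := h1

/-- the size of `w = m - m / (q + 1)` -/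
private theorem w_facts (q m : ℕ) (hm : q + 1 ≤ m) :
    q ≤ m - m / (q + 1) ∧ m - m / (q + 1) < m ∧
      (m : ℝ) * (1 - 1 / (q + 1 : ℝ)) ≤ ((m - m / (q + 1) : ℕ) : ℝ) := by
  have h1 : 1 ≤ m / (q + 1) := (Nat.one_le_div_iff (by omega)).2 hm
  have h2 : m / (q + 1) ≤ m := Nat.div_le_self _ _
  have h3 : m / (q + 1) * (q + 1) ≤ m := Nat.div_mul_le_self _ _
  refine ⟨?_, by omega, ?_⟩
  · have h4 : m / (q + 1) * q + m / (q + 1) ≤ m := by
      have : m / (q + 1) * (q + 1) = m / (q + 1) * q + m / (q + 1) := by ring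
      omega
    have h5 : 1 * q ≤ m / (q + 1) * q := Nat.mul_le_mul_right q h1
    omega
  · rw [Nat.cast_sub h2]
    have h4 : ((m / (q + 1) : ℕ) : ℝ) ≤ (m : ℝ) / ((q + 1 : ℕ) : ℝ) := Nat.cast_div_le
    push_cast at h4
    have h5 : (m : ℝ) * (1 - 1 / (q + 1 : ℝ)) = m - m / (q + 1 : ℝ) := by ring
    rw [h5]
    linarith

/-- regime 1 -/
private theorem regime_one (q : ℕ) (hq : 2 ≤ q) (G N : ℕ → ℝ) (α c C ε : ℝ) (hα : 0 ≤ α)
    (hc : 0 < c) (hC : 0 ≤ C) (hG0 : ∀ m, 0 ≤ G m) (hN1 : ∀ n, 1 ≤ N n) (hmono : Monotone N)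
    (hG : ∀ m : ℕ, 1 ≤ m → G m ≤ Real.exp (α * m ^ 2 + C * m * (1 + Real.log m) ^ 2))
    (n0 : ℕ) (hgrow : ∀ n, n0 ≤ n → Real.exp (c * n) * N n ≤ N (n + q)) (hε : ε ≤ 1 / 2)
    (hαε : α * ε ≤ c / (16 * (q + 1))) (n m : ℕ) (hn0 : 2 * n0 ≤ n) (hn1 : 1 ≤ n)
    (hlam : (C + 2) * (1 + Real.log n) ^ 2 ≤ c / (16 * (q + 1)) * n)
    (hm : q + 1 ≤ m) (hmn : m ≤ n) (hmε : (m : ℝ) ≤ ε * n) :
    (n.choose m : ℝ) * 2 ^ m * G m * N (n - (m - m / (q + 1))) ≤
      Real.exp (-(c / (8 * (q + 1)) * n)) * N n := by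
  obtain ⟨hw1, hw2, hw3⟩ := w_facts q m hm
  set w := m - m / (q + 1) with hw
  set Λ := (1 + Real.log n) ^ 2 with hΛ
  have hm1 : (1 : ℝ) ≤ m := by exact_mod_cast (by omega : 1 ≤ m)
  have hn : (1 : ℝ) ≤ n := by exact_mod_cast hn1
  have hwn : w ≤ n := by omega
  have hwm : (w : ℝ) ≤ m := by exact_mod_cast hw2.le
  have hq0 : (0 : ℝ) < q := by exact_mod_cast (by omega : 0 < q)
  have hhalf : (n : ℝ) / 2 ≤ ((n - w : ℕ) : ℝ) := by
    rw [Nat.cast_sub hwn]
    have : ε * n ≤ 1 / 2 * n := mul_le_mul_of_nonneg_right hε (by linarith)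
    linarith
  have hk : n0 ≤ n - w := by
    have h1 : (n0 : ℝ) ≤ ((n - w : ℕ) : ℝ) := by
      have : (2 : ℝ) * n0 ≤ n := by exact_mod_cast hn0
      linarith
    exact_mod_cast h1
  -- number of steps
  set s := w / q with hs
  have hs1 : (m : ℝ) / (2 * (q + 1)) ≤ s := by
    have h1 : 1 ≤ s := (Nat.one_le_div_iff (by omega)).2 hw1
    have h2 : w < q * s + q := by
      rw [hs]
      exact Nat.lt_mul_div_succ w (by omega)
    have h3 : w ≤ 2 * (q * s) := by
      have : q * 1 ≤ q * s := Nat.mul_le_mul_left q h1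
      omega
    have h4 : (w : ℝ) ≤ 2 * (q * s) := by exact_mod_cast h3
    have h5 : (m : ℝ) * (1 - 1 / (q + 1 : ℝ)) = m * q / (q + 1) := by field_simp; ring
    rw [h5] at hw3
    have h6 : (m : ℝ) * q / (q + 1) ≤ 2 * (q * s) := hw3.trans h4
    rw [div_le_iff₀ (by positivity)] at h6 ⊢
    nlinarith
  have hstep := grow_steps q N c hc hN1 n0 hgrow (n - w) hk (n / 2) hhalf s
  have hqs : n - w + q * s ≤ n := by
    have : q * s ≤ w := by rw [hs]; exact Nat.mul_div_le w q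
    omega
  have hNn : Real.exp (s * (c * (n / 2))) * N (n - w) ≤ N n := hstep.trans (hmono hqs)
  have hN2 : N (n - w) ≤ Real.exp (-(s * (c * (n / 2)))) * N n := by
    rw [Real.exp_neg, ← div_eq_inv_mul, le_div_iff₀ (Real.exp_pos _)]
    linarith
  have hch : (n.choose m : ℝ) ≤ Real.exp (m * Λ) :=
    (by exact_mod_cast Nat.choose_le_pow n m : (n.choose m : ℝ) ≤ (n : ℝ) ^ m).trans
      (pow_le_lam hn1 m)
  have h2m : (2 : ℝ) ^ m ≤ Real.exp (m * Λ) := two_pow_le hn1 m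
  have hGm : G m ≤ Real.exp (α * m ^ 2 + C * m * Λ) := by
    refine (hG m (by omega)).trans (Real.exp_le_exp.2 ?_)
    have := mul_le_mul_of_nonneg_left (log_mono (by omega : 1 ≤ m) hmn)
      (show 0 ≤ C * m by positivity)
    linarith
  have hNpos : 0 < N n := by linarith [hN1 n]
  calc (n.choose m : ℝ) * 2 ^ m * G m * N (n - w)
      ≤ Real.exp (m * Λ) * Real.exp (m * Λ) * Real.exp (α * m ^ 2 + C * m * Λ) *
          (Real.exp (-(s * (c * (n / 2)))) * N n) := by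
        apply mul_le_mul _ hN2 (by linarith [hN1 (n - w)]) (by positivity)
        apply mul_le_mul _ hGm (hG0 m) (by positivity)
        exact mul_le_mul hch h2m (by positivity) (by positivity)
    _ = Real.exp (m * Λ + m * Λ + (α * m ^ 2 + C * m * Λ) + -(s * (c * (n / 2)))) * N n := by
        rw [exp4]; ring
    _ ≤ _ := by
        apply mul_le_mul_of_nonneg_right _ hNpos.le
        apply Real.exp_le_exp.2
        have e1 : m * Λ + m * Λ + (α * m ^ 2 + C * m * Λ) =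
            m * ((C + 2) * Λ + α * m) := by ring
        have e2 : α * m ≤ c / (16 * (q + 1)) * n := by
          calc α * m ≤ α * (ε * n) := mul_le_mul_of_nonneg_left hmε hα
            _ = α * ε * n := by ring
            _ ≤ _ := mul_le_mul_of_nonneg_right hαε (by linarith)
        have e3 : (m : ℝ) * ((C + 2) * Λ + α * m) ≤ m * (c / (8 * (q + 1)) * n) := by
          apply mul_le_mul_of_nonneg_left _ (by linarith)
          have : c / (16 * (q + 1)) * n + c / (16 * (q + 1)) * n =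
            c / (8 * (q + 1 : ℝ)) * n := by field_simp; ring
          linarith
        have e4 : (m : ℝ) * (c / (4 * (q + 1)) * n) ≤ s * (c * (n / 2)) := by
          calc (m : ℝ) * (c / (4 * (q + 1)) * n) = m / (2 * (q + 1)) * (c * (n / 2)) := by
                field_simp; ring
            _ ≤ _ := mul_le_mul_of_nonneg_right hs1 (by positivity)
        have e5 : (m : ℝ) * (c / (4 * (q + 1)) * n) =
            m * (c / (8 * (q + 1)) * n) + m * (c / (8 * (q + 1)) * n) := by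
          field_simp; ring
        have e6 : c / (8 * (q + 1)) * n ≤ m * (c / (8 * (q + 1)) * n) := by
          have : 0 ≤ c / (8 * (q + 1 : ℝ)) * n := by positivity
          nlinarith
        rw [e1]
        linarith

/-- the inequality of regime 2 -/
private theorem num_two (α β C ε η Λ q m n w : ℝ) (hα : 0 ≤ α) (hβ : 0 ≤ β) (hC : 0 ≤ C)
    (hη0 : 0 < η) (hη : η = β * (1 - 1 / (q + 1) ^ 2) - α) (hε : 0 < ε) (hΛ1 : 1 ≤ Λ)
    (hq0 : 0 < q) (hm1 : 1 ≤ m) (hmn' : m ≤ n) (hn : 1 ≤ n) (hw3 : m * (1 - 1 / (q + 1)) ≤ w)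
    (hwn : w ≤ n) (hmε : ε * n ≤ m) (hlam : (2 + 4 * C) * Λ ≤ η * ε / 2 * n) :
    m * Λ + m * Λ + (α * m ^ 2 + C * m * Λ) + (β * (n - w) ^ 2 + C * n * Λ) +
      -(β * n ^ 2 - C * (n + 1)) ≤ -(η * ε / 2 * n) := by
  have f1 : m * Λ ≤ n * Λ := mul_le_mul_of_nonneg_right hmn' (by linarith)
  have f2 : C * m * Λ ≤ C * n * Λ :=
    mul_le_mul_of_nonneg_right (mul_le_mul_of_nonneg_left hmn' hC) (by linarith)
  have f3 : C * (n + 1) ≤ 2 * (C * n * Λ) := by
    have g1 : C * (n + 1) ≤ C * (2 * n) := mul_le_mul_of_nonneg_left (by linarith) hC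
    have g2 : C * n * 1 ≤ C * n * Λ := mul_le_mul_of_nonneg_left hΛ1 (by positivity)
    linarith
  have f7 : β * (n - w) ^ 2 - β * n ^ 2 ≤ -(β * (1 - 1 / (q + 1) ^ 2) * (m * n)) := by
    obtain ⟨κ, hκ⟩ : ∃ κ, κ = 1 - 1 / (q + 1) := ⟨_, rfl⟩
    have hκ0 : 0 ≤ κ := by
      rw [hκ, sub_nonneg, div_le_one (by linarith)]; linarith
    have hκ1 : κ ≤ 1 := by
      rw [hκ]
      have : (0 : ℝ) < 1 / (q + 1) := by positivity
      linarith
    have hwκ : κ * m ≤ w := by rw [hκ, mul_comm]; exact hw3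
    have hκm : κ * m ≤ n := by
      have : κ * m ≤ 1 * n := mul_le_mul hκ1 hmn' (by linarith) (by norm_num)
      linarith
    have f4 : κ * m * (2 * n - κ * m) ≤ w * (2 * n - w) := by
      have := mul_nonneg (sub_nonneg.2 hwκ) (show (0 : ℝ) ≤ 2 * n - w - κ * m by linarith)
      linarith [this, show (w - κ * m) * (2 * n - w - κ * m) =
        w * (2 * n - w) - κ * m * (2 * n - κ * m) by ring]
    have f5 : κ * (2 - κ) * (m * n) ≤ κ * m * (2 * n - κ * m) := by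
      have h1 : (κ * m) * (κ * m) ≤ (κ * m) * (κ * n) :=
        mul_le_mul_of_nonneg_left (mul_le_mul_of_nonneg_left hmn' hκ0) (by positivity)
      linarith [h1, show κ * (2 - κ) * (m * n) = 2 * (κ * m * n) - (κ * m) * (κ * n) by ring,
        show κ * m * (2 * n - κ * m) = 2 * (κ * m * n) - (κ * m) * (κ * m) by ring]
    have f6 : κ * (2 - κ) = 1 - 1 / (q + 1) ^ 2 := by
      rw [hκ]; field_simp; ring
    rw [f6] at f5
    have g1 := mul_le_mul_of_nonneg_left (f5.trans f4) hβ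
    linarith [g1, show β * (n - w) ^ 2 - β * n ^ 2 = -(β * (w * (2 * n - w))) by ring,
      show β * ((1 - 1 / (q + 1) ^ 2) * (m * n)) = β * (1 - 1 / (q + 1) ^ 2) * (m * n) by ring]
  have f8 : α * m ^ 2 ≤ α * (m * n) := by
    rw [sq]
    exact mul_le_mul_of_nonneg_left (mul_le_mul_of_nonneg_left hmn' (by linarith)) hα
  have f9 : η * (ε * n * n) ≤ η * (m * n) :=
    mul_le_mul_of_nonneg_left (mul_le_mul_of_nonneg_right hmε (by linarith)) hη0.le
  have f10 : (2 + 4 * C) * Λ * n ≤ η * ε / 2 * n * n :=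
    mul_le_mul_of_nonneg_right hlam (by linarith)
  have f11 : η * ε / 2 * n ≤ η * ε / 2 * n * n := le_mul_of_one_le_right (by positivity) hn
  have f12 : η * (m * n) = β * (1 - 1 / (q + 1) ^ 2) * (m * n) - α * (m * n) := by
    rw [hη]; ring
  generalize β * (1 - 1 / (q + 1) ^ 2) * (m * n) = B at f7 f12
  linarith [f1, f2, f3, f7, f8, f9, f10, f11, f12]

/-- regime 2 -/
private theorem regime_two (q : ℕ) (hq : 2 ≤ q) (G N : ℕ → ℝ) (α β C ε η : ℝ) (hα : 0 ≤ α)
    (hβ : 0 ≤ β) (hC : 0 ≤ C) (hG0 : ∀ m, 0 ≤ G m) (hN1 : ∀ n, 1 ≤ N n)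
    (hG : ∀ m : ℕ, 1 ≤ m → G m ≤ Real.exp (α * m ^ 2 + C * m * (1 + Real.log m) ^ 2))
    (hNu : ∀ n : ℕ, 1 ≤ n → N n ≤ Real.exp (β * n ^ 2 + C * n * (1 + Real.log n) ^ 2))
    (hNl : ∀ n : ℕ, Real.exp (β * n ^ 2 - C * (n + 1)) ≤ N n)
    (hη0 : 0 < η) (hη : η = β * (1 - 1 / (q + 1 : ℝ) ^ 2) - α) (n m : ℕ) (hn1 : 1 ≤ n)
    (hlam : (2 + 4 * C) * (1 + Real.log n) ^ 2 ≤ η * ε / 2 * n) (hε : 0 < ε)
    (hm : q + 1 ≤ m) (hmn : m ≤ n) (hmε : ε * n ≤ (m : ℝ)) :
    (n.choose m : ℝ) * 2 ^ m * G m * N (n - (m - m / (q + 1))) ≤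
      Real.exp (-(η * ε / 2 * n)) * N n := by
  obtain ⟨hw1, hw2, hw3⟩ := w_facts q m hm
  set w := m - m / (q + 1) with hw
  set Λ := (1 + Real.log n) ^ 2 with hΛ
  have hΛ1 : 1 ≤ Λ := one_le_lam hn1
  have hm1 : (1 : ℝ) ≤ m := by exact_mod_cast (by omega : 1 ≤ m)
  have hmn' : (m : ℝ) ≤ n := by exact_mod_cast hmn
  have hn : (1 : ℝ) ≤ n := by exact_mod_cast hn1
  have hwn : w ≤ n := by omega
  have hwm : (w : ℝ) ≤ m := by exact_mod_cast hw2.le
  have hq0 : (0 : ℝ) < q := by exact_mod_cast (by omega : 0 < q)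
  have hch : (n.choose m : ℝ) ≤ Real.exp (m * Λ) :=
    (by exact_mod_cast Nat.choose_le_pow n m : (n.choose m : ℝ) ≤ (n : ℝ) ^ m).trans
      (pow_le_lam hn1 m)
  have h2m : (2 : ℝ) ^ m ≤ Real.exp (m * Λ) := two_pow_le hn1 m
  have hGm : G m ≤ Real.exp (α * m ^ 2 + C * m * Λ) := by
    refine (hG m (by omega)).trans (Real.exp_le_exp.2 ?_)
    have := mul_le_mul_of_nonneg_left (log_mono (by omega : 1 ≤ m) hmn)
      (show 0 ≤ C * m by positivity)
    linarith
  have hNw : N (n - w) ≤ Real.exp (β * (n - w) ^ 2 + C * n * Λ) := by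
    refine (hNu (n - w) (by omega)).trans (Real.exp_le_exp.2 ?_)
    rw [Nat.cast_sub hwn]
    have h1 : (1 + Real.log ((n : ℝ) - w)) ^ 2 ≤ Λ := by
      have := log_mono (by omega : 1 ≤ n - w) (Nat.sub_le n w)
      rwa [Nat.cast_sub hwn] at this
    have h2 : (0 : ℝ) ≤ n - w := by
      have : (w : ℝ) ≤ n := by exact_mod_cast hwn
      linarith
    have h3 : C * ((n : ℝ) - w) * (1 + Real.log ((n : ℝ) - w)) ^ 2 ≤ C * n * Λ := by
      apply mul_le_mul _ h1 (by positivity) (by positivity)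
      apply mul_le_mul_of_nonneg_left _ hC
      have : (0 : ℝ) ≤ w := Nat.cast_nonneg w
      linarith
    linarith
  have hNpos : 0 < N n := by linarith [hN1 n]
  have hNn : 1 ≤ Real.exp (-(β * n ^ 2 - C * (n + 1))) * N n := by
    rw [Real.exp_neg, ← div_eq_inv_mul, le_div_iff₀ (Real.exp_pos _), one_mul]
    exact hNl n
  calc (n.choose m : ℝ) * 2 ^ m * G m * N (n - w)
      ≤ Real.exp (m * Λ) * Real.exp (m * Λ) * Real.exp (α * m ^ 2 + C * m * Λ) *
          Real.exp (β * (n - w) ^ 2 + C * n * Λ) := by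
        apply mul_le_mul _ hNw (by linarith [hN1 (n - w)]) (by positivity)
        apply mul_le_mul _ hGm (hG0 m) (by positivity)
        exact mul_le_mul hch h2m (by positivity) (by positivity)
    _ = Real.exp (m * Λ + m * Λ + (α * m ^ 2 + C * m * Λ) +
          (β * (n - w) ^ 2 + C * n * Λ)) * 1 := by
        rw [exp4]; ring
    _ ≤ Real.exp (m * Λ + m * Λ + (α * m ^ 2 + C * m * Λ) + (β * (n - w) ^ 2 + C * n * Λ)) *
          (Real.exp (-(β * n ^ 2 - C * (n + 1))) * N n) :=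
        mul_le_mul_of_nonneg_left hNn (Real.exp_pos _).le
    _ = Real.exp (m * Λ + m * Λ + (α * m ^ 2 + C * m * Λ) + (β * (n - w) ^ 2 + C * n * Λ) +
          -(β * n ^ 2 - C * (n + 1))) * N n := by
        rw [Real.exp_add _ (-(β * n ^ 2 - C * (n + 1)))]; ring
    _ ≤ _ := by
        apply mul_le_mul_of_nonneg_right _ hNpos.le
        apply Real.exp_le_exp.2
        exact num_two α β C ε η Λ q m n w hα hβ hC hη0 hη hε hΛ1 hq0 hm1 hmn' hn hw3
          (by exact_mod_cast hwn) hmε hlam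

theorem tail_tendsto (q : ℕ) (hq : 2 ≤ q) (G N : ℕ → ℝ) (α β c C : ℝ) (hα : 0 ≤ α) (hβ : 0 ≤ β) (hc : 0 < c)
    (hC : 0 ≤ C) (hG0 : ∀ m, 0 ≤ G m) (hN1 : ∀ n, 1 ≤ N n) (hmono : Monotone N)
    (hG : ∀ m : ℕ, 1 ≤ m → G m ≤ Real.exp (α * m ^ 2 + C * m * (1 + Real.log m) ^ 2))
    (hNu : ∀ n : ℕ, 1 ≤ n → N n ≤ Real.exp (β * n ^ 2 + C * n * (1 + Real.log n) ^ 2))
    (hNl : ∀ n : ℕ, Real.exp (β * n ^ 2 - C * (n + 1)) ≤ N n)
    (hgrow : ∀ᶠ n : ℕ in atTop, Real.exp (c * n) * N n ≤ N (n + q))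
    (hαβ : α < β * (1 - 1 / (q + 1 : ℝ) ^ 2)) :
    Tendsto (fun n : ℕ => (∑ m ∈ Finset.Icc (q + 1) n,
      (n.choose m : ℝ) * 2 ^ m * G m * N (n - (m - m / (q + 1)))) / N n) atTop (𝓝 0) := by
  obtain ⟨n0, hn0⟩ := eventually_atTop.1 hgrow
  obtain ⟨η, hη⟩ : ∃ η, η = β * (1 - 1 / (q + 1 : ℝ) ^ 2) - α := ⟨_, rfl⟩
  have hη0 : 0 < η := by rw [hη]; linarith
  obtain ⟨a, ha⟩ : ∃ a, a = c / (16 * (q + 1 : ℝ)) := ⟨_, rfl⟩
  have ha0 : 0 < a := by rw [ha]; positivity
  obtain ⟨ε, hεd⟩ : ∃ ε, ε = min (1 / 2) (a / (α + 1)) := ⟨_, rfl⟩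
  have hε0 : 0 < ε := by rw [hεd]; positivity
  have hε1 : ε ≤ 1 / 2 := by rw [hεd]; exact min_le_left _ _
  have hε2 : α * ε ≤ a := by
    have h1 : ε ≤ a / (α + 1) := by rw [hεd]; exact min_le_right _ _
    calc α * ε ≤ α * (a / (α + 1)) := mul_le_mul_of_nonneg_left h1 hα
      _ = a * (α / (α + 1)) := by ring
      _ ≤ a * 1 := by
          apply mul_le_mul_of_nonneg_left _ ha0.le
          rw [div_le_one (by linarith)]; linarith
      _ = a := mul_one a
  obtain ⟨c₀, hc₀⟩ : ∃ c₀, c₀ = min (c / (8 * (q + 1 : ℝ))) (η * ε / 2) := ⟨_, rfl⟩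
  have hc₀0 : 0 < c₀ := by rw [hc₀]; positivity
  have hev1 := log_small (a / (C + 2)) (by positivity)
  have hev2 := log_small (η * ε / 2 / (2 + 4 * C)) (by positivity)
  have hterm : ∀ᶠ n : ℕ in atTop, ∀ m ∈ Finset.Icc (q + 1) n,
      (n.choose m : ℝ) * 2 ^ m * G m * N (n - (m - m / (q + 1))) ≤
        Real.exp (-(c₀ * n)) * N n := by
    filter_upwards [hev1, hev2, eventually_ge_atTop (2 * n0), eventually_ge_atTop 1] with n h1 h2
      h3 h4 m hm
    rw [Finset.mem_Icc] at hm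
    have hNpos : 0 < N n := by linarith [hN1 n]
    have hn0' : (0 : ℝ) ≤ n := Nat.cast_nonneg n
    rcases le_total (m : ℝ) (ε * n) with hme | hme
    · refine (regime_one q hq G N α c C ε hα hc hC hG0 hN1 hmono hG n0 hn0 hε1
        (by rw [← ha]; exact hε2) n m h3 h4 ?_ hm.1 hm.2 hme).trans ?_
      · rw [← ha]
        have h5 := mul_le_mul_of_nonneg_left h1 (show 0 ≤ C + 2 by linarith)
        calc _ ≤ (C + 2) * (a / (C + 2) * n) := h5
          _ = a * n := by field_simp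
      · apply mul_le_mul_of_nonneg_right _ hNpos.le
        apply Real.exp_le_exp.2
        have : c₀ * n ≤ c / (8 * (q + 1 : ℝ)) * n :=
          mul_le_mul_of_nonneg_right (by rw [hc₀]; exact min_le_left _ _) hn0'
        linarith
    · refine (regime_two q hq G N α β C ε η hα hβ hC hG0 hN1 hG hNu hNl hη0 hη n m h4 ?_ hε0
        hm.1 hm.2 hme).trans ?_
      · have h5 := mul_le_mul_of_nonneg_left h2 (show 0 ≤ 2 + 4 * C by linarith)
        calc _ ≤ (2 + 4 * C) * (η * ε / 2 / (2 + 4 * C) * n) := h5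
          _ = η * ε / 2 * n := by field_simp
      · apply mul_le_mul_of_nonneg_right _ hNpos.le
        apply Real.exp_le_exp.2
        have : c₀ * n ≤ η * ε / 2 * n :=
          mul_le_mul_of_nonneg_right (by rw [hc₀]; exact min_le_right _ _) hn0'
        linarith
  have hlim : Tendsto (fun n : ℕ => (n : ℝ) * Real.exp (-(c₀ * n))) atTop (𝓝 0) := by
    have h1 : Tendsto (fun x : ℝ => x ^ 1 * Real.exp (-x)) atTop (𝓝 0) :=
      Real.tendsto_pow_mul_exp_neg_atTop_nhds_zero 1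
    have h2 : Tendsto (fun n : ℕ => c₀ * (n : ℝ)) atTop atTop :=
      tendsto_natCast_atTop_atTop.const_mul_atTop hc₀0
    have h3 := (h1.comp h2).const_mul (1 / c₀)
    rw [mul_zero] at h3
    refine h3.congr fun n => ?_
    simp only [Function.comp_apply, pow_one]
    field_simp
  refine squeeze_zero' (Eventually.of_forall fun n => ?_) ?_ hlim
  · apply div_nonneg _ (by linarith [hN1 n])
    refine Finset.sum_nonneg fun m _ => ?_
    have := hG0 m
    have := hN1 (n - (m - m / (q + 1)))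
    positivity
  · filter_upwards [hterm] with n hn
    have hNpos : 0 < N n := by linarith [hN1 n]
    rw [div_le_iff₀ hNpos]
    calc (∑ m ∈ Finset.Icc (q + 1) n,
          (n.choose m : ℝ) * 2 ^ m * G m * N (n - (m - m / (q + 1))))
        ≤ ∑ m ∈ Finset.Icc (q + 1) n, Real.exp (-(c₀ * n)) * N n := Finset.sum_le_sum hn
      _ = ((Finset.Icc (q + 1) n).card : ℝ) * (Real.exp (-(c₀ * n)) * N n) := by
          rw [Finset.sum_const, nsmul_eq_mul]
      _ ≤ (n : ℝ) * (Real.exp (-(c₀ * n)) * N n) := by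
          apply mul_le_mul_of_nonneg_right _ (by positivity)
          rw [Nat.card_Icc]
          exact_mod_cast (by omega : n + 1 - (q + 1) ≤ n)
      _ = _ := by ring

theorem small_tendsto (N : ℕ → ℝ) (β C : ℝ) (hβ : 0 < β)
    (hNl : ∀ n : ℕ, Real.exp (β * n ^ 2 - C * (n + 1)) ≤ N n) (Q : ℕ) :
    Tendsto (fun n : ℕ => (n.factorial : ℝ) ^ Q / N n) atTop (𝓝 0) := by
  have hpos : ∀ n, 0 < N n := fun n => (Real.exp_pos _).trans_le (hNl n)
  have hlim : Tendsto (fun n : ℕ => Real.exp (-(β / 2 * n))) atTop (𝓝 0) := by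
    have h2 : Tendsto (fun n : ℕ => β / 2 * (n : ℝ)) atTop atTop :=
      tendsto_natCast_atTop_atTop.const_mul_atTop (by positivity)
    exact Real.tendsto_exp_neg_atTop_nhds_zero.comp h2
  obtain ⟨K, hK⟩ : ∃ K : ℝ, K = Q + 2 * |C| + 1 := ⟨_, rfl⟩
  have hK0 : 0 < K := by rw [hK]; positivity
  have hev := log_small (β / 2 / K) (by positivity)
  refine squeeze_zero' (Eventually.of_forall fun n => ?_) ?_ hlim
  · have := hpos n
    positivity
  · filter_upwards [hev, eventually_ge_atTop 1] with n h1 hn1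
    have hn : (1 : ℝ) ≤ n := by exact_mod_cast hn1
    set Λ := (1 + Real.log n) ^ 2 with hΛ
    have hΛ1 : 1 ≤ Λ := one_le_lam hn1
    rw [div_le_iff₀ (hpos n)]
    have hfac : (n.factorial : ℝ) ^ Q ≤ Real.exp (Q * (n * Λ)) := by
      have h2 : (n.factorial : ℝ) ≤ Real.exp (n * Λ) :=
        (by exact_mod_cast Nat.factorial_le_pow n : (n.factorial : ℝ) ≤ (n : ℝ) ^ n).trans
          (pow_le_lam hn1 n)
      calc (n.factorial : ℝ) ^ Q ≤ Real.exp (n * Λ) ^ Q := pow_le_pow_left₀ (by positivity) h2 Q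
        _ = _ := by rw [← Real.exp_nat_mul]
    have h3 : K * Λ ≤ β / 2 * n := by
      have := mul_le_mul_of_nonneg_left h1 hK0.le
      calc K * Λ ≤ K * (β / 2 / K * n) := this
        _ = _ := by field_simp
    have h4 : K * Λ * n ≤ β / 2 * n * n := mul_le_mul_of_nonneg_right h3 (by linarith)
    have h5 : C * ((n : ℝ) + 1) ≤ 2 * |C| * (n * Λ) := by
      have g1 : C * ((n : ℝ) + 1) ≤ |C| * ((n : ℝ) + 1) :=
        mul_le_mul_of_nonneg_right (le_abs_self C) (by linarith)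
      have g2 : |C| * ((n : ℝ) + 1) ≤ |C| * (2 * (n * Λ)) := by
        apply mul_le_mul_of_nonneg_left _ (abs_nonneg C)
        nlinarith
      linarith
    have h6 : 0 ≤ (n : ℝ) * Λ := by positivity
    have h7 : β / 2 * (n : ℝ) ≤ β / 2 * n * n := by
      have : 0 ≤ β / 2 * (n : ℝ) := by positivity
      nlinarith
    calc (n.factorial : ℝ) ^ Q ≤ Real.exp (Q * (n * Λ)) := hfac
      _ ≤ Real.exp (-(β / 2 * n) + (β * n ^ 2 - C * (n + 1))) := by
          apply Real.exp_le_exp.2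
          have e1 : K * Λ * n = Q * (n * Λ) + 2 * |C| * (n * Λ) + n * Λ := by rw [hK]; ring
          nlinarith
      _ = Real.exp (-(β / 2 * n)) * Real.exp (β * n ^ 2 - C * (n + 1)) := Real.exp_add _ _
      _ ≤ _ := mul_le_mul_of_nonneg_left (hNl n) (Real.exp_pos _).le

end Pool.Agent.AbS
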