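import Pool.Agent.AbS.HatA

/-!
The order of `hat H` is at most the product of the lengths of the orbits, hence `log |hat H| ≤ c |Ω|` if
`log |O| ≤ c |O|` for every orbit `O`; and the last inequality with `c = log t / t`.

`hat_card_le`: the map `hat H → ∏ over the orbits ω (quotient by MulAction.orbitRel H Ω) of the orbit`, `σ ↦ σ (rep ω)`,
is injective by `hat_eq_on_orbit`. Orbit lengths: `card_orbit` divides `Nat.card H`
(`MulAction.card_orbit_dvd_card` or via the stabilizer), so a length is `1` or at least `t`; `log x / x` is antitone on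
`[e, ∞)` (`Real.log_div_self_antitoneOn`); for `q = 2` and a length `2 ^ a`: `a ≤ 2 ^ (a - 1)`.
-/

set_option autoImplicit false

namespace Pool.Agent.AbS

open Equiv

private theorem orbit_card_dvd {Ω : Type} [Finite Ω] (H : Subgroup (Perm Ω)) (x : Ω) :
    Nat.card (MulAction.orbit H x) ∣ Nat.card H := by
  have h2 := Nat.card_congr (MulAction.orbitProdStabilizerEquivGroup H x)
  rw [Nat.card_prod] at h2
  exact ⟨_, h2.symm⟩

private theorem orbit_card_pos {Ω : Type} [Finite Ω] (H : Subgroup (Perm Ω)) (x : Ω) :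
    0 < Nat.card (MulAction.orbit H x) := by
  have : Nonempty (MulAction.orbit H x) := ⟨⟨x, MulAction.mem_orbit_self x⟩⟩
  exact Nat.card_pos

theorem hat_le_prod' {Ω : Type} [Finite Ω] {H : Subgroup (Perm Ω)} (hab : ∀ a ∈ H, ∀ b ∈ H, a * b = b * a)
    [Fintype (MulAction.orbitRel.Quotient H Ω)] :
    Nat.card (hat H) ≤ ∏ ω : MulAction.orbitRel.Quotient H Ω,
      Nat.card (MulAction.orbitRel.Quotient.orbit ω) := by
  classical
  rw [← Nat.card_pi]
  have ho : ∀ ω : MulAction.orbitRel.Quotient H Ω,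
      MulAction.orbitRel.Quotient.orbit ω = MulAction.orbit H (Quotient.out ω) :=
    fun ω => MulAction.orbitRel.Quotient.orbit_eq_orbit_out ω Quotient.out_eq'
  have hmem : ∀ (σ : hat H) (ω : MulAction.orbitRel.Quotient H Ω),
      (σ : Perm Ω) (Quotient.out ω) ∈ MulAction.orbitRel.Quotient.orbit ω := by
    intro σ ω
    rw [ho]
    obtain ⟨k, hk, h1⟩ := σ.2 (Quotient.out ω)
    rw [h1 _ (MulAction.mem_orbit_self _)]
    exact ⟨⟨k, hk⟩, rfl⟩
  refine Nat.card_le_card_of_injective
    (fun σ : hat H => fun ω => (⟨(σ : Perm Ω) (Quotient.out ω), hmem σ ω⟩ :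
      MulAction.orbitRel.Quotient.orbit ω)) ?_
  intro σ τ hst
  apply Subtype.ext
  ext x
  have h1 : (σ : Perm Ω) (Quotient.out (Quotient.mk'' x : MulAction.orbitRel.Quotient H Ω)) =
      (τ : Perm Ω) (Quotient.out (Quotient.mk'' x : MulAction.orbitRel.Quotient H Ω)) :=
    congrArg Subtype.val (congrFun hst (Quotient.mk'' x))
  refine hat_eq_on_orbit hab σ.2 τ.2 h1 x ?_
  rw [← ho, MulAction.orbitRel.Quotient.mem_orbit]

theorem hat_card_le {Ω : Type} [Finite Ω] {H : Subgroup (Perm Ω)} (hab : ∀ a ∈ H, ∀ b ∈ H, a * b = b * a)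
    (c : ℝ) (hc : ∀ x : Ω, Real.log (Nat.card (MulAction.orbit H x)) ≤ c * Nat.card (MulAction.orbit H x)) :
    Real.log (Nat.card (hat H)) ≤ c * Nat.card Ω := by
  classical
  let _ : Fintype (MulAction.orbitRel.Quotient H Ω) := Fintype.ofFinite _
  have ho : ∀ ω : MulAction.orbitRel.Quotient H Ω,
      MulAction.orbitRel.Quotient.orbit ω = MulAction.orbit H (Quotient.out ω) :=
    fun ω => MulAction.orbitRel.Quotient.orbit_eq_orbit_out ω Quotient.out_eq'
  have hpos : 0 < Nat.card (hat H) := Nat.card_pos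
  have h1 : Real.log (Nat.card (hat H)) ≤ ∑ ω : MulAction.orbitRel.Quotient H Ω,
      Real.log (Nat.card (MulAction.orbitRel.Quotient.orbit ω)) := by
    rw [← Real.log_prod]
    · refine Real.log_le_log (by exact_mod_cast hpos) ?_
      exact_mod_cast hat_le_prod' hab
    · intro ω _
      rw [ho]
      have := orbit_card_pos H (Quotient.out ω)
      exact_mod_cast this.ne'
  have h2 : ∀ ω : MulAction.orbitRel.Quotient H Ω,
      Real.log (Nat.card (MulAction.orbitRel.Quotient.orbit ω)) ≤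
      c * Nat.card (MulAction.orbitRel.Quotient.orbit ω) := by
    intro ω
    rw [ho]
    exact hc _
  refine h1.trans ((Finset.sum_le_sum fun ω _ => h2 ω).trans ?_)
  rw [← Finset.mul_sum, ← Nat.cast_sum]
  have h3 : ∑ ω : MulAction.orbitRel.Quotient H Ω, Nat.card (MulAction.orbitRel.Quotient.orbit ω) =
      Nat.card Ω := by
    rw [← Nat.card_sigma, ← Nat.card_congr (MulAction.selfEquivSigmaOrbits' H Ω)]
  rw [h3]

theorem log_orbit_ge {t : ℕ} (ht : 3 ≤ t) {Ω : Type} [Finite Ω] {H : Subgroup (Perm Ω)} (h : AbGe t H) (x : Ω) :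
    Real.log (Nat.card (MulAction.orbit H x)) ≤ Real.log t / t * Nat.card (MulAction.orbit H x) := by
  have htR : (3 : ℝ) ≤ t := by exact_mod_cast ht
  have hlt : 0 ≤ Real.log t := Real.log_nonneg (by linarith)
  by_cases h1 : Nat.card (MulAction.orbit H x) = 1
  · rw [h1]
    simp only [Nat.cast_one, Real.log_one, mul_one]
    positivity
  · have hpos := orbit_card_pos H x
    have h2 : t ≤ Nat.card (MulAction.orbit H x) :=
      (h.2 _ (Nat.minFac_prime h1) ((Nat.minFac_dvd _).trans (orbit_card_dvd H x))).trans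
        (Nat.minFac_le hpos)
    have h3 : (t : ℝ) ≤ Nat.card (MulAction.orbit H x) := by exact_mod_cast h2
    have he : Real.exp 1 ≤ t := by
      have := Real.exp_one_lt_d9
      linarith
    have h4 := Real.log_div_self_antitoneOn (show (t : ℝ) ∈ {x | Real.exp 1 ≤ x} from he)
      (show (Nat.card (MulAction.orbit H x) : ℝ) ∈ {x | Real.exp 1 ≤ x} from he.trans h3) h3
    have h5 : (0 : ℝ) < Nat.card (MulAction.orbit H x) := by linarith
    exact (div_le_iff₀ h5).1 h4

theorem log_orbit_q {q : ℕ} (hq : q.Prime) {Ω : Type} [Finite Ω] {H : Subgroup (Perm Ω)} (h : AbQ q H) (x : Ω) :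
    Real.log (Nat.card (MulAction.orbit H x)) ≤ Real.log q / q * Nat.card (MulAction.orbit H x) := by
  obtain ⟨k, hk⟩ := h.2
  have h1 := orbit_card_dvd H x
  rw [hk] at h1
  obtain ⟨a, -, ha⟩ := (Nat.dvd_prime_pow hq).1 h1
  rw [ha]
  have hq2 : 2 ≤ q := hq.two_le
  have hqR : (2 : ℝ) ≤ q := by exact_mod_cast hq2
  have h2 : a * q ≤ q ^ a := by
    rcases a with _ | a
    · simp
    · rw [pow_succ]
      exact Nat.mul_le_mul_right _ (Nat.lt_pow_self hq2)
  have h3 : (a : ℝ) * q ≤ (q : ℝ) ^ a := by exact_mod_cast h2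
  have hlq : 0 ≤ Real.log q := Real.log_nonneg (by linarith)
  push_cast
  rw [Real.log_pow, div_mul_eq_mul_div, le_div_iff₀ (by linarith)]
  calc (a : ℝ) * Real.log q * q = Real.log q * (a * q) := by ring
    _ ≤ Real.log q * (q : ℝ) ^ a := mul_le_mul_of_nonneg_left h3 hlq

end Pool.Agent.AbS
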