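import Pool.Agent.AbS.HatA

/-!
`hat H` is the hat of a group generated by few permutations: `ℓ` of them if `|Ω| < 2 ^ ℓ`.

Proof of `exists_gen`. (1) `exists_fin_closure`: a finite group `G` with `|G| < 2 ^ ℓ` is the closure of the range of
some `Fin ℓ → G` (greedy: the order of the subgroup at least doubles). (2) For `x : Ω` the quotient of `H` by the
stabilizer `S` of `x` (normal, as `H` is abelian) has `|orbit x| ≤ |Ω|` elements, so some `f : Fin ℓ → H` has
`closure (range f) ⊔ S = ⊤`, and the elements of `S` act trivially on the orbit of `x`. (3) Choose such an `f` for the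
representative of every orbit and glue: `g i y = f_(orbit of y) i y`, a permutation in `hat H`. Then
`K = closure (range g) ≤ hat H` has the same orbits as `H`, and every element of `H` agrees on a given orbit with some
element of `K` and conversely. Hence `hat K = hat H`.
-/

set_option autoImplicit false

namespace Pool.Agent.AbS

open Equiv

private theorem closure_snoc_one {G : Type} [Group G] {j : ℕ} (f : Fin j → G)
    (h : Subgroup.closure (Set.range f) = ⊤) (x : G) :
    Subgroup.closure (Set.range (Fin.snoc f x : Fin (j + 1) → G)) = ⊤ := by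
  rw [eq_top_iff, ← h]
  refine Subgroup.closure_mono ?_
  rintro _ ⟨i, rfl⟩
  exact ⟨Fin.castSucc i, by simp⟩

private theorem greedy (G : Type) [Group G] [Finite G] (j : ℕ) :
    ∃ f : Fin j → G, Subgroup.closure (Set.range f) = ⊤ ∨
      2 ^ j ≤ Nat.card (Subgroup.closure (Set.range f)) := by
  induction j with
  | zero =>
    refine ⟨fun i => i.elim0, Or.inr ?_⟩
    simp
  | succ j ih =>
    obtain ⟨f, hf⟩ := ih
    by_cases htop : Subgroup.closure (Set.range f) = ⊤
    · exact ⟨Fin.snoc f 1, Or.inl (closure_snoc_one f htop 1)⟩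
    · have hcard := hf.resolve_left htop
      obtain ⟨x, hx⟩ : ∃ x : G, x ∉ Subgroup.closure (Set.range f) := by
        by_contra hcon
        push Not at hcon
        exact htop (eq_top_iff.2 fun x _ => hcon x)
      refine ⟨Fin.snoc f x, Or.inr ?_⟩
      set A := Subgroup.closure (Set.range f) with hA
      set B := Subgroup.closure (Set.range (Fin.snoc f x : Fin (j + 1) → G)) with hB
      have hAB : A ≤ B := by
        refine Subgroup.closure_mono ?_
        rintro _ ⟨i, rfl⟩
        exact ⟨Fin.castSucc i, by simp⟩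
      have hxB : x ∈ B := Subgroup.subset_closure ⟨Fin.last j, by simp⟩
      have hdvd : Nat.card A ∣ Nat.card B := Subgroup.card_dvd_of_le hAB
      obtain ⟨c, hc⟩ := hdvd
      have hBpos : 0 < Nat.card B := Nat.card_pos
      have hc0 : c ≠ 0 := by
        rintro rfl
        rw [hc] at hBpos
        simp at hBpos
      have hc1 : c ≠ 1 := by
        rintro rfl
        rw [mul_one] at hc
        have : A = B := Subgroup.eq_of_le_of_card_ge hAB (le_of_eq hc)
        rw [this] at hx
        exact hx hxB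
      have hc2 : 2 ≤ c := by omega
      calc 2 ^ (j + 1) = 2 ^ j * 2 := pow_succ _ _
        _ ≤ Nat.card A * c := Nat.mul_le_mul hcard hc2
        _ = Nat.card B := hc.symm

theorem exists_fin_closure (G : Type) [Group G] [Finite G] (ℓ : ℕ) (h : Nat.card G < 2 ^ ℓ) :
    ∃ f : Fin ℓ → G, Subgroup.closure (Set.range f) = ⊤ := by
  obtain ⟨f, hf⟩ := greedy G ℓ
  refine ⟨f, hf.resolve_right fun h2 => ?_⟩
  have := Subgroup.card_le_card_group (Subgroup.closure (Set.range f))
  omega

/-- Few elements of `H` which reach the orbit of `x`. -/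
private theorem exists_reach {Ω : Type} [Finite Ω] {H : Subgroup (Perm Ω)}
    (hab : ∀ a ∈ H, ∀ b ∈ H, a * b = b * a) (ℓ : ℕ) (hℓ : Nat.card Ω < 2 ^ ℓ) (x : Ω) :
    ∃ f : Fin ℓ → Perm Ω, (∀ i, f i ∈ H) ∧
      ∀ k ∈ H, ∃ k' ∈ Subgroup.closure (Set.range f), k' x = k x := by
  classical
  have : (MulAction.stabilizer H x).Normal := by
    constructor
    intro n hn g
    have : g * n * g⁻¹ = n := by
      apply Subtype.ext
      have := hab g g.2 n n.2
      simp only [Subgroup.coe_mul, Subgroup.coe_inv]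
      rw [this]
      simp
    rw [this]
    exact hn
  have hcard : Nat.card (H ⧸ MulAction.stabilizer H x) < 2 ^ ℓ := by
    have h1 : Nat.card (H ⧸ MulAction.stabilizer H x) = Nat.card (MulAction.orbit H x) :=
      (Nat.card_congr (MulAction.orbitEquivQuotientStabilizer H x)).symm
    rw [h1]
    exact (Nat.card_le_card_of_injective _ (Subtype.val_injective (p := fun y => y ∈ MulAction.orbit H x))).trans_lt hℓ
  obtain ⟨f, hf⟩ := exists_fin_closure (H ⧸ MulAction.stabilizer H x) ℓ hcard
  choose F hF using fun i => QuotientGroup.mk_surjective (f i)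
  refine ⟨fun i => (F i : Perm Ω), fun i => (F i).2, fun k hk => ?_⟩
  have h1 : (QuotientGroup.mk (⟨k, hk⟩ : H) : H ⧸ MulAction.stabilizer H x) ∈
      (Subgroup.closure (Set.range F)).map (QuotientGroup.mk' (MulAction.stabilizer H x)) := by
    rw [MonoidHom.map_closure]
    have : (QuotientGroup.mk' (MulAction.stabilizer H x)) '' (Set.range F) = Set.range f := by
      rw [← Set.range_comp]
      congr 1
      funext i
      exact hF i
    rw [this, hf]
    trivial
  obtain ⟨w, hw, hwk⟩ := h1
  refine ⟨(w : Perm Ω), ?_, ?_⟩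
  · have h2 : (w : Perm Ω) ∈ (Subgroup.closure (Set.range F)).map H.subtype := ⟨w, hw, rfl⟩
    rw [MonoidHom.map_closure, ← Set.range_comp] at h2
    exact h2
  · have h3 : w⁻¹ * (⟨k, hk⟩ : H) ∈ MulAction.stabilizer H x := QuotientGroup.eq.1 hwk
    rw [MulAction.mem_stabilizer_iff, mul_smul, inv_smul_eq_iff] at h3
    have h4 : k x = (w : Perm Ω) x := h3
    exact h4.symm

theorem exists_gen {Ω : Type} [Finite Ω] {H : Subgroup (Perm Ω)} (hab : ∀ a ∈ H, ∀ b ∈ H, a * b = b * a)
    (ℓ : ℕ) (hℓ : Nat.card Ω < 2 ^ ℓ) :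
    ∃ g : Fin ℓ → Perm Ω, hat (Subgroup.closure (Set.range g)) = hat H := by
  classical
  choose F hFH hF using exists_reach hab ℓ hℓ
  -- representatives of the orbits
  let r : Ω → Ω := fun y => Quotient.out (s := MulAction.orbitRel H Ω) (Quotient.mk (MulAction.orbitRel H Ω) y)
  have hr1 : ∀ y, r y ∈ MulAction.orbit H y := by
    intro y
    have := Quotient.mk_out (s := MulAction.orbitRel H Ω) y
    exact (MulAction.orbitRel_apply).1 this
  have hr2 : ∀ y z, y ∈ MulAction.orbit H z → r y = r z := by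
    intro y z h
    have : (Quotient.mk (MulAction.orbitRel H Ω) y) = Quotient.mk (MulAction.orbitRel H Ω) z :=
      Quotient.sound ((MulAction.orbitRel_apply).2 h)
    simp only [r, this]
  have hap : ∀ k ∈ H, ∀ y, k y ∈ MulAction.orbit H y := by
    intro k hk y
    exact ⟨⟨k, hk⟩, rfl⟩
  have hself : ∀ y : Ω, y ∈ MulAction.orbit H y := fun y => MulAction.mem_orbit_self y
  let g : Fin ℓ → Perm Ω := fun i =>
    { toFun := fun y => F (r y) i y
      invFun := fun y => (F (r y) i)⁻¹ y
      left_inv := by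
        intro y
        have : r (F (r y) i y) = r y := hr2 _ _ (hap _ (hFH _ _) _)
        simp [this]
      right_inv := by
        intro y
        have : r ((F (r y) i)⁻¹ y) = r y := hr2 _ _ (hap _ (H.inv_mem (hFH _ _)) _)
        simp only [this]
        simp }
  have hg : ∀ i y, g i y = F (r y) i y := fun i y => rfl
  have hgx : ∀ x i, ∀ y ∈ MulAction.orbit H x, g i y = F (r x) i y := by
    intro x i y hy
    rw [hg, hr2 y x hy]
  refine ⟨g, ?_⟩
  set K := Subgroup.closure (Set.range g) with hK
  have hKH : K ≤ hat H := by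
    rw [hK, Subgroup.closure_le]
    rintro _ ⟨i, rfl⟩ x
    exact ⟨F (r x) i, hFH _ _, fun y hy => hgx x i y hy⟩
  have hcl : ∀ x, Subgroup.closure (Set.range (F (r x))) ≤ H := by
    intro x
    rw [Subgroup.closure_le]
    rintro _ ⟨i, rfl⟩
    exact hFH _ _
  -- an element of the closure at `x` is the restriction of an element of `K`
  have hB : ∀ x, ∀ w ∈ Subgroup.closure (Set.range (F (r x))),
      ∃ w' ∈ K, ∀ y ∈ MulAction.orbit H x, w' y = w y := by
    intro x w hw
    induction hw using Subgroup.closure_induction with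
    | mem w hw =>
      obtain ⟨i, rfl⟩ := hw
      exact ⟨g i, Subgroup.subset_closure ⟨i, rfl⟩, fun y hy => hgx x i y hy⟩
    | one => exact ⟨1, K.one_mem, fun y _ => rfl⟩
    | mul a b ha hb iha ihb =>
      obtain ⟨a', ha', h1⟩ := iha
      obtain ⟨b', hb', h2⟩ := ihb
      refine ⟨a' * b', K.mul_mem ha' hb', fun y hy => ?_⟩
      have hby : b y ∈ MulAction.orbit H x := by
        have := MulAction.mem_orbit_of_mem_orbit (⟨b, hcl x hb⟩ : H) hy
        simpa [Subgroup.smul_def] using this
      simp only [Perm.mul_apply]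
      rw [h2 y hy, h1 _ hby]
    | inv a ha iha =>
      obtain ⟨a', ha', h1⟩ := iha
      refine ⟨a'⁻¹, K.inv_mem ha', fun y hy => ?_⟩
      have hay : a⁻¹ y ∈ MulAction.orbit H x := by
        have := MulAction.mem_orbit_of_mem_orbit (⟨a⁻¹, H.inv_mem (hcl x ha)⟩ : H) hy
        simpa [Subgroup.smul_def] using this
      have := h1 _ hay
      rw [Perm.inv_eq_iff_eq, this]
      simp
  -- every element of `H` agrees on the orbit of `x` with an element of `K`
  have hA : ∀ x, ∀ h ∈ H, ∃ w' ∈ K, ∀ y ∈ MulAction.orbit H x, w' y = h y := by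
    intro x h hh
    obtain ⟨w, hw, hwr⟩ := hF (r x) h hh
    obtain ⟨w', hw', h1⟩ := hB x w hw
    refine ⟨w', hw', fun y hy => ?_⟩
    rw [h1 y hy]
    refine hat_eq_on_orbit hab (le_hat H (hcl x hw)) (le_hat H hh) hwr y ?_
    have h2 : MulAction.orbit H (r x) = MulAction.orbit H x := MulAction.orbit_eq_iff.2 (hr1 x)
    rw [h2]
    exact hy
  have horb1 : ∀ x : Ω, MulAction.orbit K x ⊆ MulAction.orbit H x := by
    rintro x _ ⟨⟨k, hk⟩, rfl⟩
    obtain ⟨h, hh, h1⟩ := hKH hk x
    have : k x = h x := h1 x (hself x)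
    change k x ∈ MulAction.orbit H x
    rw [this]
    exact hap h hh x
  have horb2 : ∀ x : Ω, MulAction.orbit H x ⊆ MulAction.orbit K x := by
    rintro x _ ⟨⟨h, hh⟩, rfl⟩
    obtain ⟨w', hw', h1⟩ := hA x h hh
    change h x ∈ MulAction.orbit K x
    rw [← h1 x (hself x)]
    exact ⟨⟨w', hw'⟩, rfl⟩
  ext σ
  constructor
  · intro hσ x
    obtain ⟨k, hk, h1⟩ := hσ x
    obtain ⟨h, hh, h2⟩ := hKH hk x
    exact ⟨h, hh, fun y hy => (h1 y (horb2 x hy)).trans (h2 y hy)⟩
  · intro hσ x
    obtain ⟨h, hh, h1⟩ := hσ x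
    obtain ⟨w', hw', h2⟩ := hA x h hh
    exact ⟨w', hw', fun y hy => (h1 y (horb1 x hy)).trans (h2 y (horb1 x hy)).symm⟩

end Pool.Agent.AbS
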