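import Pool.Agent.AbS.SubB
import Pool.Agent.AbS.HatB
import Pool.Agent.AbS.HatC

/-!
Upper bounds for numbers of abelian subgroups of `S_n`. With `ℓ = Nat.log 2 n + 1` (`n < 2 ^ ℓ`) every abelian `H` lies
in `hat (closure (range g))` for one of the `(n !) ^ ℓ` maps `g : Fin ℓ → Perm (Fin n)` (`exists_gen`, `le_hat`).

`count_le`: for a fixed group `A = hat H₀` with `AbGe t A`, `log |A| ≤ L log t`, the number of subgroups of `Perm (Fin n)`
contained in `A` is the number of subgroups of the group `A` (`card_subgroup_le`; make `A` a `CommGroup` with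
`hat_comm`). `count_few`: a subgroup of `A` which is the closure of the range of some `Fin k → A` is one of at most
`|A| ^ k`, and `log |A| ≤ n log q / q`.
-/

set_option autoImplicit false

namespace Pool.Agent.AbS

open Equiv

private theorem cover_bound (n : ℕ) (P : Subgroup (Perm (Fin n)) → Prop)
    (hab : ∀ H, P H → ∀ a ∈ H, ∀ b ∈ H, a * b = b * a) (C : ℝ) (hC0 : 0 ≤ C)
    (hC : ∀ H₀, P H₀ → (Nat.card {H : Subgroup (Perm (Fin n)) // P H ∧ H ≤ hat H₀} : ℝ) ≤ C) :
    (Nat.card {H : Subgroup (Perm (Fin n)) // P H} : ℝ) ≤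
      (n.factorial : ℝ) ^ (Nat.log 2 n + 1) * C := by
  classical
  set ℓ := Nat.log 2 n + 1 with hℓ
  have hn : Nat.card (Fin n) < 2 ^ ℓ := by
    rw [Nat.card_eq_fintype_card, Fintype.card_fin]
    exact Nat.lt_pow_succ_log_self (by norm_num) n
  let B : (Fin ℓ → Perm (Fin n)) → Type := fun g =>
    {H : Subgroup (Perm (Fin n)) // P H ∧ hat (Subgroup.closure (Set.range g)) = hat H}
  have hex : ∀ H : {H : Subgroup (Perm (Fin n)) // P H}, ∃ g : Fin ℓ → Perm (Fin n),
      hat (Subgroup.closure (Set.range g)) = hat H.1 := fun H => exists_gen (hab H.1 H.2) ℓ hn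
  choose G hG using hex
  have h1 : Nat.card {H : Subgroup (Perm (Fin n)) // P H} ≤ Nat.card (Sigma B) := by
    refine Nat.card_le_card_of_injective (fun H => (⟨G H, ⟨H.1, H.2, hG H⟩⟩ : Sigma B)) ?_
    intro H H' h
    have h2 : H.1 = H'.1 := by
      have := congrArg (fun z : Sigma B => z.2.1) h
      exact this
    exact Subtype.ext h2
  have h2 : Nat.card (Sigma B) = ∑ g, Nat.card (B g) := Nat.card_sigma
  have h3 : ∀ g, (Nat.card (B g) : ℝ) ≤ C := by
    intro g
    by_cases hne : Nonempty (B g)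
    · obtain ⟨H₀, hP₀, hH₀⟩ := hne
      refine le_trans ?_ (hC H₀ hP₀)
      have : Nat.card (B g) ≤ Nat.card {H : Subgroup (Perm (Fin n)) // P H ∧ H ≤ hat H₀} := by
        refine Nat.card_le_card_of_injective (fun H => ⟨H.1, H.2.1, ?_⟩) ?_
        · exact (le_hat H.1).trans (H.2.2.symm.trans hH₀).le
        · intro H H' h
          exact Subtype.ext (congrArg (fun z => z.1) h)
      exact_mod_cast this
    · have := not_nonempty_iff.1 hne
      rw [Nat.card_of_isEmpty]
      simpa using hC0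
  have h4 : (Nat.card {H : Subgroup (Perm (Fin n)) // P H} : ℝ) ≤ ∑ g, (Nat.card (B g) : ℝ) := by
    have := h1.trans_eq h2
    exact_mod_cast this
  refine h4.trans ((Finset.sum_le_sum fun g _ => h3 g).trans ?_)
  rw [Finset.sum_const, nsmul_eq_mul, Finset.card_univ, Fintype.card_fun, Fintype.card_fin,
    Fintype.card_perm, Fintype.card_fin]
  push_cast
  exact le_rfl

private theorem card_sub (t : ℕ) (ht : 2 ≤ t) {Ω : Type} [Finite Ω] (A : Subgroup (Perm Ω)) (hA : AbGe t A) :
    (Nat.card (Subgroup A) : ℝ) ≤ (Nat.card A : ℝ) ^ 2 *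
      Real.exp (Real.log t * (Real.log (Nat.card A) / Real.log t + 1) ^ 2 / 4) := by
  let _ : CommGroup A :=
    { (inferInstance : Group A) with mul_comm := fun a b => Subtype.ext (hA.1 a a.2 b b.2) }
  exact card_subgroup_le t ht A hA.2

theorem count_le (t n : ℕ) (ht : 2 ≤ t) (L : ℝ) (hL : 0 ≤ L) (P : Subgroup (Perm (Fin n)) → Prop)
    (hP : ∀ H, P H → AbGe t H ∧ Real.log (Nat.card (hat H)) ≤ L * Real.log t) :
    (Nat.card {H : Subgroup (Perm (Fin n)) // P H} : ℝ) ≤ (n.factorial : ℝ) ^ (Nat.log 2 n + 1) *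
      Real.exp (2 * (L * Real.log t) + Real.log t * (L + 1) ^ 2 / 4) := by
  have hlt : 0 < Real.log t := Real.log_pos (by exact_mod_cast ht)
  refine cover_bound n P (fun H h => (hP H h).1.1) _ (Real.exp_pos _).le ?_
  intro H₀ h₀
  obtain ⟨hge, hlog⟩ := hP H₀ h₀
  have hge' := hge.hat
  have hApos : 0 < (Nat.card (hat H₀) : ℝ) := by exact_mod_cast Nat.card_pos
  have hA1 : (1 : ℝ) ≤ (Nat.card (hat H₀) : ℝ) := by exact_mod_cast Nat.card_pos
  have h1 : Nat.card {H : Subgroup (Perm (Fin n)) // P H ∧ H ≤ hat H₀} ≤ Nat.card (Subgroup (hat H₀)) := by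
    refine Nat.card_le_card_of_injective (fun H => H.1.subgroupOf (hat H₀)) ?_
    intro H H' h
    have h2 : H.1.subgroupOf (hat H₀) = H'.1.subgroupOf (hat H₀) := h
    rw [Subgroup.subgroupOf_inj, inf_eq_left.2 H.2.2, inf_eq_left.2 H'.2.2] at h2
    exact Subtype.ext h2
  have h2 : (Nat.card {H : Subgroup (Perm (Fin n)) // P H ∧ H ≤ hat H₀} : ℝ) ≤
      (Nat.card (Subgroup (hat H₀)) : ℝ) := by exact_mod_cast h1
  refine h2.trans ((card_sub t ht (hat H₀) hge').trans ?_)
  have h3 : (Nat.card (hat H₀) : ℝ) ^ 2 = Real.exp (2 * Real.log (Nat.card (hat H₀))) := by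
    rw [mul_comm, Real.exp_mul, Real.exp_log hApos]
    norm_num
  rw [h3, ← Real.exp_add]
  refine Real.exp_le_exp.2 ?_
  have h4 : 0 ≤ Real.log (Nat.card (hat H₀)) / Real.log t :=
    div_nonneg (Real.log_nonneg hA1) hlt.le
  have h5 : Real.log (Nat.card (hat H₀)) / Real.log t ≤ L := by
    rw [div_le_iff₀ hlt]
    exact hlog
  have h6 : (Real.log (Nat.card (hat H₀)) / Real.log t + 1) ^ 2 ≤ (L + 1) ^ 2 := by
    have : 0 ≤ Real.log (Nat.card (hat H₀)) / Real.log t + 1 := by linarith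
    exact pow_le_pow_left₀ this (by linarith) 2
  have h7 : Real.log t * (Real.log (Nat.card (hat H₀)) / Real.log t + 1) ^ 2 ≤ Real.log t * (L + 1) ^ 2 :=
    mul_le_mul_of_nonneg_left h6 hlt.le
  linarith

theorem nGe_le (t n : ℕ) (ht : 3 ≤ t) : (nGe t n : ℝ) ≤ (n.factorial : ℝ) ^ (Nat.log 2 n + 1) *
    Real.exp (2 * (n / t * Real.log t) + Real.log t * (n / t + 1) ^ 2 / 4) := by
  refine count_le t n (by omega) (n / t) (by positivity) (fun H => AbGe t H) ?_
  intro H h
  refine ⟨h, ?_⟩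
  have h1 := hat_card_le (H := H) h.1 (Real.log t / t) (fun x => log_orbit_ge ht h x)
  rw [Nat.card_eq_fintype_card (α := Fin n), Fintype.card_fin] at h1
  have h2 : Real.log t / t * (n : ℝ) = n / t * Real.log t := by ring
  linarith

theorem nQ_le (q n : ℕ) (hq : q.Prime) : (nQ q n : ℝ) ≤ (n.factorial : ℝ) ^ (Nat.log 2 n + 1) *
    Real.exp (2 * (n / q * Real.log q) + Real.log q * (n / q + 1) ^ 2 / 4) := by
  refine count_le q n hq.two_le (n / q) (by positivity) (fun H => AbQ q H) ?_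
  intro H h
  refine ⟨h.abGe hq, ?_⟩
  have h1 := hat_card_le (H := H) h.1 (Real.log q / q) (fun x => log_orbit_q hq h x)
  rw [Nat.card_eq_fintype_card (α := Fin n), Fintype.card_fin] at h1
  have h2 : Real.log q / q * (n : ℝ) = n / q * Real.log q := by ring
  linarith

theorem count_few (q n k : ℕ) (hq : q.Prime) :
    (Nat.card {H : Subgroup (Perm (Fin n)) // AbQ q H ∧
      ∃ f : Fin k → Perm (Fin n), H = Subgroup.closure (Set.range f)} : ℝ) ≤
      (n.factorial : ℝ) ^ (Nat.log 2 n + 1) * Real.exp (k * (n * Real.log q / q)) := by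
  refine cover_bound n (fun H => AbQ q H ∧ ∃ f : Fin k → Perm (Fin n), H = Subgroup.closure (Set.range f))
    (fun H h => h.1.1) _ (Real.exp_pos _).le ?_
  intro H₀ h₀
  have hApos : 0 < (Nat.card (hat H₀) : ℝ) := by exact_mod_cast Nat.card_pos
  have hlog := hat_card_le (H := H₀) h₀.1.1 (Real.log q / q) (fun x => log_orbit_q hq h₀.1 x)
  rw [Nat.card_eq_fintype_card (α := Fin n), Fintype.card_fin] at hlog
  have h1 : Nat.card {H : Subgroup (Perm (Fin n)) // (AbQ q H ∧
      ∃ f : Fin k → Perm (Fin n), H = Subgroup.closure (Set.range f)) ∧ H ≤ hat H₀} ≤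
      Nat.card (Fin k → hat H₀) := by
    let F : {H : Subgroup (Perm (Fin n)) // (AbQ q H ∧
      ∃ f : Fin k → Perm (Fin n), H = Subgroup.closure (Set.range f)) ∧ H ≤ hat H₀} → (Fin k → hat H₀) :=
      fun H i => ⟨H.2.1.2.choose i,
        H.2.2 (H.2.1.2.choose_spec.ge (Subgroup.subset_closure ⟨i, rfl⟩))⟩
    refine Nat.card_le_card_of_injective F ?_
    intro H H' h
    have h2 : ∀ i, H.2.1.2.choose i = H'.2.1.2.choose i := fun i =>
      congrArg Subtype.val (congrFun h i)
    have h3 : H.2.1.2.choose = H'.2.1.2.choose := funext h2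
    refine Subtype.ext ?_
    rw [H.2.1.2.choose_spec, H'.2.1.2.choose_spec, h3]
  have h2 : Nat.card (Fin k → hat H₀) = Nat.card (hat H₀) ^ k := by
    rw [Nat.card_fun, Nat.card_eq_fintype_card (α := Fin k), Fintype.card_fin]
  rw [h2] at h1
  have h3 : ((Nat.card (hat H₀) : ℝ)) ^ k ≤ Real.exp (k * (n * Real.log q / q)) := by
    rw [← Real.exp_log hApos, ← Real.exp_nat_mul]
    refine Real.exp_le_exp.2 (mul_le_mul_of_nonneg_left ?_ (Nat.cast_nonneg k))
    have : Real.log q / q * (n : ℝ) = n * Real.log q / q := by ring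
    linarith
  refine le_trans ?_ h3
  exact_mod_cast h1

end Pool.Agent.AbS
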