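import Mathlib

/-!
MP_7fa120_al: abelian subgroups of the symmetric groups. Definitions.
-/

set_option autoImplicit false

namespace Pool.Agent.AbS

open Equiv

/-- `H` is abelian and its order has no prime factor below `t`. -/
def AbGe (t : ℕ) {Ω : Type} (H : Subgroup (Perm Ω)) : Prop :=
  (∀ a ∈ H, ∀ b ∈ H, a * b = b * a) ∧ ∀ p : ℕ, p.Prime → p ∣ Nat.card H → t ≤ p

/-- `H` is abelian and its order is a power of `q`. -/
def AbQ (q : ℕ) {Ω : Type} (H : Subgroup (Perm Ω)) : Prop :=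
  (∀ a ∈ H, ∀ b ∈ H, a * b = b * a) ∧ ∃ k : ℕ, Nat.card H = q ^ k

/-- The number of subgroups of `S_n` with `AbGe t`. -/
noncomputable def nGe (t n : ℕ) : ℕ := Nat.card {H : Subgroup (Perm (Fin n)) // AbGe t H}

/-- The number of subgroups of `S_n` with `AbQ q`. -/
noncomputable def nQ (q n : ℕ) : ℕ := Nat.card {H : Subgroup (Perm (Fin n)) // AbQ q H}

/-- The proportion of the subgroups with `AbGe q` whose order is a multiple of `m`. -/
noncomputable def dens (q n m : ℕ) : ℝ :=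
  (Nat.card {H : Subgroup (Perm (Fin n)) // AbGe q H ∧ m ∣ Nat.card H} : ℝ) /
    (Nat.card {H : Subgroup (Perm (Fin n)) // AbGe q H} : ℝ)

/-- The permutations which agree on every orbit of `H` with some element of `H`. -/
def hat {Ω : Type} (H : Subgroup (Perm Ω)) : Subgroup (Perm Ω) where
  carrier := {σ | ∀ x : Ω, ∃ k ∈ H, ∀ y ∈ MulAction.orbit H x, σ y = k y}
  mul_mem' := by
    intro σ τ hσ hτ x
    obtain ⟨k, hk, h1⟩ := hσ x
    obtain ⟨l, hl, h2⟩ := hτ x
    refine ⟨k * l, H.mul_mem hk hl, fun y hy => ?_⟩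
    have hly : l y ∈ MulAction.orbit H x := by
      have := MulAction.mem_orbit_of_mem_orbit (⟨l, hl⟩ : H) hy
      simpa [Subgroup.smul_def] using this
    simp only [Perm.mul_apply]
    rw [h2 y hy, h1 _ hly]
  one_mem' := by
    intro x
    exact ⟨1, H.one_mem, fun y _ => rfl⟩
  inv_mem' := by
    intro σ hσ x
    obtain ⟨k, hk, h1⟩ := hσ x
    refine ⟨k⁻¹, H.inv_mem hk, fun y hy => ?_⟩
    have hly : k⁻¹ y ∈ MulAction.orbit H x := by
      have := MulAction.mem_orbit_of_mem_orbit (⟨k⁻¹, H.inv_mem hk⟩ : H) hy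
      simpa [Subgroup.smul_def] using this
    have := h1 _ hly
    rw [Perm.inv_eq_iff_eq, this]
    simp

theorem mem_hat {Ω : Type} {H : Subgroup (Perm Ω)} {σ : Perm Ω} :
    σ ∈ hat H ↔ ∀ x : Ω, ∃ k ∈ H, ∀ y ∈ MulAction.orbit H x, σ y = k y := Iff.rfl

/-- The number of subgroups of order `h`. -/
noncomputable def nOrd (A : Type) [Group A] (h : ℕ) : ℕ := Nat.card {H : Subgroup A // Nat.card H = h}

end Pool.Agent.AbS
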