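import Pool.Agent.AbS.Defs

/-!
Adding a block of `q` points. For `H` with `AbQ q H` and a homomorphism `φ : H →* Multiplicative (ZMod q)` the group
`{(h, z ↦ z + φ h)}` of permutations of `Fin n ⊕ ZMod q` (`Equiv.Perm.sumCongrHom`, injective) is isomorphic to `H`;
`H` and `φ` can be recovered from it. So the pairs `(H, φ)` inject into the subgroups of `Perm (Fin n ⊕ ZMod q)` with
`AbQ q`, of which there are `nQ q (n + q)` (transport along `Fin n ⊕ ZMod q ≃ Fin (n + q)`).
-/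

set_option autoImplicit false

namespace Pool.Agent.AbS

open Equiv

private def tr (q : ℕ) : Multiplicative (ZMod q) →* Perm (ZMod q) where
  toFun z := Equiv.addRight (Multiplicative.toAdd z)
  map_one' := by ext x; simp
  map_mul' a b := by
    apply Equiv.ext
    intro x
    simp only [toAdd_mul, Perm.mul_apply, Equiv.coe_addRight]
    ring

private theorem tr_inj (q : ℕ) : Function.Injective (tr q) := by
  intro a b h
  have := congrArg (fun σ : Perm (ZMod q) => σ 0) h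
  simpa [tr] using this

private noncomputable def ee (n q : ℕ) [NeZero q] : Fin n ⊕ ZMod q ≃ Fin (n + q) :=
  (Equiv.sumCongr (Equiv.refl _) (ZMod.finEquiv q).symm.toEquiv).trans finSumFinEquiv

private noncomputable def J (n q : ℕ) [NeZero q] :
    Perm (Fin n) × Multiplicative (ZMod q) →* Perm (Fin (n + q)) :=
  ((ee n q).permCongrHom.toMonoidHom).comp
    ((Equiv.Perm.sumCongrHom (Fin n) (ZMod q)).comp (MonoidHom.prodMap (MonoidHom.id _) (tr q)))

private theorem J_inj (n q : ℕ) [NeZero q] : Function.Injective (J n q) := by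
  unfold J
  rw [MonoidHom.coe_comp, MonoidHom.coe_comp]
  refine (ee n q).permCongrHom.injective.comp ((Equiv.Perm.sumCongrHom_injective).comp ?_)
  exact Function.Injective.prodMap Function.injective_id (tr_inj q)

/-- The graph of a homomorphism. -/
private def gr {n q : ℕ} (H : Subgroup (Perm (Fin n))) (φ : H →* Multiplicative (ZMod q)) :
    Subgroup (Perm (Fin n) × Multiplicative (ZMod q)) :=
  (MonoidHom.prod H.subtype φ).range

private theorem gr_mem {n q : ℕ} {H : Subgroup (Perm (Fin n))} {φ : H →* Multiplicative (ZMod q)}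
    {x : Perm (Fin n) × Multiplicative (ZMod q)} :
    x ∈ gr H φ ↔ ∃ h : x.1 ∈ H, φ ⟨x.1, h⟩ = x.2 := by
  unfold gr
  rw [MonoidHom.mem_range]
  constructor
  · rintro ⟨y, rfl⟩
    exact ⟨y.2, rfl⟩
  · rintro ⟨h, h2⟩
    refine ⟨⟨x.1, h⟩, ?_⟩
    exact Prod.ext rfl h2

private theorem gr_card {n q : ℕ} (H : Subgroup (Perm (Fin n))) (φ : H →* Multiplicative (ZMod q)) :
    Nat.card (gr H φ) = Nat.card H := by
  unfold gr
  symm
  refine Nat.card_congr (MonoidHom.ofInjective (f := MonoidHom.prod H.subtype φ) ?_).toEquiv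
  intro a b h
  have := congrArg Prod.fst h
  exact Subtype.ext this

private theorem gr_ab {n q : ℕ} {H : Subgroup (Perm (Fin n))} (hH : AbQ q H)
    (φ : H →* Multiplicative (ZMod q)) [NeZero q] : AbQ q ((gr H φ).map (J n q)) := by
  refine ⟨?_, ?_⟩
  · rintro _ ⟨x, hx, rfl⟩ _ ⟨y, hy, rfl⟩
    rw [← map_mul, ← map_mul]
    congr 1
    obtain ⟨h1, -⟩ := gr_mem.1 hx
    obtain ⟨h2, -⟩ := gr_mem.1 hy
    exact Prod.ext (hH.1 _ h1 _ h2) (mul_comm _ _)
  · obtain ⟨k, hk⟩ := hH.2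
    refine ⟨k, ?_⟩
    rw [Subgroup.card_map_of_injective (J_inj n q), gr_card, hk]

private theorem gr_inj {n q : ℕ} {H H' : Subgroup (Perm (Fin n))} {φ : H →* Multiplicative (ZMod q)}
    {φ' : H' →* Multiplicative (ZMod q)} (h : gr H φ = gr H' φ') :
    H = H' ∧ ∀ (x : Perm (Fin n)) (hx : x ∈ H) (hx' : x ∈ H'), φ ⟨x, hx⟩ = φ' ⟨x, hx'⟩ := by
  have h1 : ∀ x, (hx : x ∈ H) → ∃ hx' : x ∈ H', φ' ⟨x, hx'⟩ = φ ⟨x, hx⟩ := by
    intro x hx
    have : ((x, φ ⟨x, hx⟩) : Perm (Fin n) × Multiplicative (ZMod q)) ∈ gr H φ := gr_mem.2 ⟨hx, rfl⟩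
    rw [h] at this
    exact gr_mem.1 this
  have h2 : ∀ x, (hx : x ∈ H') → x ∈ H := by
    intro x hx
    have : ((x, φ' ⟨x, hx⟩) : Perm (Fin n) × Multiplicative (ZMod q)) ∈ gr H' φ' := gr_mem.2 ⟨hx, rfl⟩
    rw [← h] at this
    exact (gr_mem.1 this).1
  refine ⟨le_antisymm (fun x hx => (h1 x hx).1) h2, fun x hx hx' => ?_⟩
  exact (h1 x hx).2.symm

theorem grow (q n k : ℕ) [Fact q.Prime] :
    q ^ k * Nat.card {H : Subgroup (Perm (Fin n)) // AbQ q H ∧ q ^ k ≤ Nat.card (H →* Multiplicative (ZMod q))} ≤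
      nQ q (n + q) := by
  classical
  haveI : NeZero q := ⟨(Fact.out : q.Prime).ne_zero⟩
  set A := {H : Subgroup (Perm (Fin n)) // AbQ q H ∧ q ^ k ≤ Nat.card (H →* Multiplicative (ZMod q))} with hA
  haveI : Finite A := inferInstance
  haveI : Fintype A := Fintype.ofFinite A
  haveI hfin : ∀ H : A, Finite (H.1 →* Multiplicative (ZMod q)) := fun H => DFunLike.finite _
  have h1 : q ^ k * Nat.card A ≤ Nat.card (Σ H : A, (H.1 →* Multiplicative (ZMod q))) := by
    rw [Nat.card_sigma]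
    calc q ^ k * Nat.card A = ∑ _H : A, q ^ k := by
          rw [Finset.sum_const, Finset.card_univ, Nat.card_eq_fintype_card, smul_eq_mul, mul_comm]
      _ ≤ _ := Finset.sum_le_sum (fun H _ => H.2.2)
  refine h1.trans ?_
  unfold nQ
  refine Nat.card_le_card_of_injective (fun T : (Σ H : A, (H.1 →* Multiplicative (ZMod q))) =>
    (⟨(gr T.1.1 T.2).map (J n q), gr_ab T.1.2.1 T.2⟩ :
      {H : Subgroup (Perm (Fin (n + q))) // AbQ q H})) ?_
  rintro ⟨⟨H, hH⟩, φ⟩ ⟨⟨H', hH'⟩, φ'⟩ h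
  have h2 : (gr H φ).map (J n q) = (gr H' φ').map (J n q) := congrArg Subtype.val h
  have h3 := Subgroup.map_injective (J_inj n q) h2
  obtain ⟨h4, h5⟩ := gr_inj h3
  subst h4
  have : φ = φ' := by
    ext ⟨x, hx⟩
    exact congrArg _ (h5 x hx hx)
  subst this
  rfl

end Pool.Agent.AbS
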