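import Pool.Agent.AbS.Defs

/-!
A finite abelian `q`-group is generated by `k` elements or has at least `q ^ k` homomorphisms to `ZMod q`: by
`CommGroup.equiv_prod_multiplicative_zmod_of_finite` it is `∏ i : ι, Multiplicative (ZMod (n i))`, `1 < n i` a power of
`q`; if `|ι| ≤ k` it is generated by `k` elements, otherwise the homomorphisms `x ↦ ∑ i, c i * cast (x i)`,
`c : ι → ZMod q` (`ZMod.castHom`), are `q ^ |ι| ≥ q ^ k` different ones.
-/

set_option autoImplicit false

namespace Pool.Agent.AbS

/-- The standard generators of a product of cyclic groups. -/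
private theorem closure_single {ι : Type} [Fintype ι] [DecidableEq ι] (n : ι → ℕ) (hn : ∀ i, 1 < n i) :
    Subgroup.closure (Set.range fun i : ι =>
      (Pi.mulSingle i (Multiplicative.ofAdd (1 : ZMod (n i))) : (i : ι) → Multiplicative (ZMod (n i)))) = ⊤ := by
  rw [eq_top_iff]
  intro x _
  rw [← Finset.univ_prod_mulSingle x]
  refine Subgroup.prod_mem _ fun i _ => ?_
  have : NeZero (n i) := ⟨by have := hn i; omega⟩
  have h1 : x i = (Multiplicative.ofAdd (1 : ZMod (n i))) ^ (Multiplicative.toAdd (x i)).val := by
    rw [← ofAdd_nsmul, nsmul_one, ZMod.natCast_val, ZMod.cast_id']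
    rfl
  rw [h1, Pi.mulSingle_pow]
  exact Subgroup.pow_mem _ (Subgroup.subset_closure (Set.mem_range_self i)) _

theorem few_or_many (q k : ℕ) [Fact q.Prime] (A : Type) [CommGroup A] [Finite A]
    (hA : ∃ j : ℕ, Nat.card A = q ^ j) :
    (∃ f : Fin k → A, Subgroup.closure (Set.range f) = ⊤) ∨ q ^ k ≤ Nat.card (A →* Multiplicative (ZMod q)) := by
  classical
  obtain ⟨ι, _, n, hn, ⟨e⟩⟩ := CommGroup.equiv_prod_multiplicative_zmod_of_finite A
  obtain ⟨j, hj⟩ := hA
  have hq : q.Prime := Fact.out
  by_cases hk : Fintype.card ι ≤ k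
  · left
    have hk' : Fintype.card ι ≤ Fintype.card (Fin k) := by rw [Fintype.card_fin]; exact hk
    obtain ⟨u⟩ : Nonempty (ι ↪ Fin k) := Function.Embedding.nonempty_of_card_le hk'
    let g : ι → A := fun i => e.symm (Pi.mulSingle i (Multiplicative.ofAdd (1 : ZMod (n i))))
    refine ⟨Function.extend u g (fun _ => 1), ?_⟩
    rw [eq_top_iff]
    have h1 : Subgroup.closure (Set.range g) = ⊤ := by
      have h2 : Set.range g = (e.symm : _ →* A) '' (Set.range fun i : ι =>
          (Pi.mulSingle i (Multiplicative.ofAdd (1 : ZMod (n i))) :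
            (i : ι) → Multiplicative (ZMod (n i)))) := by
        rw [← Set.range_comp]
        rfl
      rw [h2, ← MonoidHom.map_closure, closure_single n hn, ← MonoidHom.range_eq_map,
        MonoidHom.range_eq_top]
      exact e.symm.surjective
    rw [← h1]
    refine Subgroup.closure_mono ?_
    rintro _ ⟨i, rfl⟩
    exact ⟨u i, u.injective.extend_apply _ _ _⟩
  · right
    have hcard : Nat.card A = ∏ i, n i := by
      rw [Nat.card_congr e.toEquiv, Nat.card_pi]
      refine Finset.prod_congr rfl fun i _ => ?_
      show Nat.card (ZMod (n i)) = n i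
      rw [Nat.card_zmod]
    have hdvd : ∀ i, q ∣ n i := by
      intro i
      have h1 : n i ∣ q ^ j := by
        rw [← hj, hcard]
        exact Finset.dvd_prod_of_mem n (Finset.mem_univ i)
      obtain ⟨a, ha, ha'⟩ := (Nat.dvd_prime_pow hq).1 h1
      have ha0 : a ≠ 0 := by
        rintro rfl
        have := hn i
        rw [ha', pow_zero] at this
        exact lt_irrefl _ this
      rw [ha']
      exact dvd_pow_self q ha0
    have hneq : NeZero q := ⟨hq.ne_zero⟩
    have hfin : Finite (A →* Multiplicative (ZMod q)) := DFunLike.finite _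
    let F : (ι → ZMod q) → (A →* Multiplicative (ZMod q)) := fun c =>
      MonoidHom.mk' (fun x => Multiplicative.ofAdd
        (∑ i, c i * ZMod.castHom (hdvd i) (ZMod q) (Multiplicative.toAdd (e x i)))) (by
        intro x y
        rw [← ofAdd_add, ← Finset.sum_add_distrib]
        congr 1
        refine Finset.sum_congr rfl fun i _ => ?_
        rw [map_mul, Pi.mul_apply, toAdd_mul, map_add, mul_add])
    have hF : Function.Injective F := by
      intro c c' h
      funext i
      have h1 : ∀ c : ι → ZMod q, F c (e.symm (Pi.mulSingle i (Multiplicative.ofAdd (1 : ZMod (n i))))) =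
          Multiplicative.ofAdd (c i) := by
        intro c
        show Multiplicative.ofAdd (∑ l, c l * ZMod.castHom (hdvd l) (ZMod q) (Multiplicative.toAdd
          (e (e.symm (Pi.mulSingle i (Multiplicative.ofAdd (1 : ZMod (n i))))) l))) = _
        rw [MulEquiv.apply_symm_apply, Finset.sum_eq_single i]
        · rw [Pi.mulSingle_eq_same, toAdd_ofAdd, map_one, mul_one]
        · intro l _ hl
          rw [Pi.mulSingle_eq_of_ne hl, toAdd_one, map_zero, mul_zero]
        · intro hi
          exact absurd (Finset.mem_univ i) hi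
      have h2 := h1 c
      rw [h, h1 c'] at h2
      exact (Multiplicative.ofAdd.injective h2).symm
    calc q ^ k ≤ q ^ Fintype.card ι := Nat.pow_le_pow_right hq.pos (by omega)
      _ = Nat.card (ι → ZMod q) := by
        rw [Nat.card_fun, Nat.card_zmod, Nat.card_eq_fintype_card]
      _ ≤ Nat.card (A →* Multiplicative (ZMod q)) := Nat.card_le_card_of_injective F hF

end Pool.Agent.AbS
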