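import Pool.Agent.AbS.Defs

/-!
First properties of `hat H` for an abelian group of permutations.

`hat_prime`: by Cauchy there is `σ ∈ hat H` of order `p`; with `e = Monoid.exponent H` (positive, its prime factors
divide `Nat.card H`: `Monoid.exponent_dvd_nat_card`, `Group.exponent_dvd_nat_card`) one has `σ ^ e = 1`, because
`σ ^ j y = k ^ j y` on the orbit of `y`.
-/

set_option autoImplicit false

namespace Pool.Agent.AbS

open Equiv

private theorem orbit_self {Ω : Type} (H : Subgroup (Perm Ω)) (x : Ω) : x ∈ MulAction.orbit H x :=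
  MulAction.mem_orbit_self x

private theorem orbit_apply {Ω : Type} {H : Subgroup (Perm Ω)} {x y : Ω} {k : Perm Ω} (hk : k ∈ H)
    (hy : y ∈ MulAction.orbit H x) : k y ∈ MulAction.orbit H x := by
  have := MulAction.mem_orbit_of_mem_orbit (⟨k, hk⟩ : H) hy
  simpa [Subgroup.smul_def] using this

theorem le_hat {Ω : Type} (H : Subgroup (Perm Ω)) : H ≤ hat H := by
  intro σ hσ x
  exact ⟨σ, hσ, fun _ _ => rfl⟩

theorem hat_comm {Ω : Type} {H : Subgroup (Perm Ω)} (hab : ∀ a ∈ H, ∀ b ∈ H, a * b = b * a) :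
    ∀ a ∈ hat H, ∀ b ∈ hat H, a * b = b * a := by
  intro a ha b hb
  ext x
  obtain ⟨k, hk, h1⟩ := ha x
  obtain ⟨l, hl, h2⟩ := hb x
  simp only [Perm.mul_apply]
  rw [h2 x (orbit_self H x), h1 x (orbit_self H x), h1 _ (orbit_apply hl (orbit_self H x)),
    h2 _ (orbit_apply hk (orbit_self H x))]
  have := hab k hk l hl
  calc k (l x) = (k * l) x := rfl
    _ = (l * k) x := by rw [this]
    _ = l (k x) := rfl

/-- An element of `hat H` is determined on the orbit of `x` by its value at `x`. -/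
theorem hat_eq_on_orbit {Ω : Type} {H : Subgroup (Perm Ω)} (hab : ∀ a ∈ H, ∀ b ∈ H, a * b = b * a)
    {σ τ : Perm Ω} (hσ : σ ∈ hat H) (hτ : τ ∈ hat H) {x : Ω} (h : σ x = τ x) :
    ∀ y ∈ MulAction.orbit H x, σ y = τ y := by
  intro y hy
  obtain ⟨k, hk, h1⟩ := hσ x
  obtain ⟨l, hl, h2⟩ := hτ x
  rw [h1 y hy, h2 y hy]
  rw [h1 x (orbit_self H x), h2 x (orbit_self H x)] at h
  obtain ⟨⟨g, hg⟩, rfl⟩ := hy
  have e1 : k (g x) = g (k x) := by
    calc k (g x) = (k * g) x := rfl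
      _ = (g * k) x := by rw [hab k hk g hg]
      _ = g (k x) := rfl
  have e2 : l (g x) = g (l x) := by
    calc l (g x) = (l * g) x := rfl
      _ = (g * l) x := by rw [hab l hl g hg]
      _ = g (l x) := rfl
  change k (g x) = l (g x)
  rw [e1, e2, h]

private theorem pow_on_orbit {Ω : Type} {H : Subgroup (Perm Ω)} {σ k : Perm Ω} (hk : k ∈ H) {x : Ω}
    (h : ∀ y ∈ MulAction.orbit H x, σ y = k y) (j : ℕ) :
    ∀ y ∈ MulAction.orbit H x, (σ ^ j) y = (k ^ j) y := by
  induction j with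
  | zero => intro y _; simp
  | succ j ih =>
    intro y hy
    rw [pow_succ, pow_succ, Perm.mul_apply, Perm.mul_apply, h y hy, ih _ (orbit_apply hk hy)]

theorem hat_prime {Ω : Type} [Finite Ω] {H : Subgroup (Perm Ω)} {p : ℕ} (hp : p.Prime)
    (h : p ∣ Nat.card (hat H)) : p ∣ Nat.card H := by
  haveI := Fact.mk hp
  obtain ⟨⟨σ, hσ⟩, hord⟩ := exists_prime_orderOf_dvd_card' p h
  have ho : orderOf σ = p := by
    rw [← hord]
    exact (Subgroup.orderOf_mk σ hσ).symm
  have he : σ ^ Monoid.exponent H = 1 := by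
    ext x
    obtain ⟨k, hk, h1⟩ := hσ x
    rw [pow_on_orbit hk h1 _ x (orbit_self H x)]
    have h2 : (⟨k, hk⟩ : H) ^ Monoid.exponent H = 1 := Monoid.pow_exponent_eq_one _
    have h3 : k ^ Monoid.exponent H = 1 := by
      have := congrArg (fun z : H => (z : Perm Ω)) h2
      simpa using this
    rw [h3]
  have h4 : p ∣ Monoid.exponent H := by
    rw [← ho]
    exact orderOf_dvd_of_pow_eq_one he
  exact h4.trans Group.exponent_dvd_nat_card

theorem AbGe.hat {t : ℕ} {Ω : Type} [Finite Ω] {H : Subgroup (Perm Ω)} (h : AbGe t H) : AbGe t (hat H) :=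
  ⟨hat_comm h.1, fun _ hp hd => h.2 _ hp (hat_prime hp hd)⟩

theorem AbQ.abGe {q : ℕ} (hq : q.Prime) {Ω : Type} {H : Subgroup (Perm Ω)} (h : AbQ q H) : AbGe q H := by
  refine ⟨h.1, fun p hp hd => ?_⟩
  obtain ⟨k, hk⟩ := h.2
  rw [hk] at hd
  exact ((Nat.prime_dvd_prime_iff_eq hp hq).1 (hp.dvd_of_dvd_pow hd)).ge

end Pool.Agent.AbS
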