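import Pool.Agent.AbS.Defs

/-!
Lower bound for the number of abelian `q`-subgroups of `S_n`. With `r = n / q`, `a = r / 2`, `b = r - a`: for every
matrix `M : Fin a → Fin b → ZMod q` let `H_M` be the group of the permutations of `(Fin a ⊕ Fin b) × ZMod q`
`(inl i, z) ↦ (inl i, z + v i)`, `(inr j, z) ↦ (inr j, z + ∑ i, M i j * v i)`, `v : Fin a → ZMod q`; they are elementary
abelian and different for different `M`. Transport them to `Fin n` with an injection `(Fin a ⊕ Fin b) × ZMod q ↪ Fin n`
(`Equiv.Perm.viaEmbeddingHom`, injective; `Subgroup.map` of an injective homomorphism is injective and keeps the order).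
-/

set_option autoImplicit false

namespace Pool.Agent.AbS

open Equiv

/-- Transport of subgroups with `AbQ q` along an injective homomorphism. -/
private theorem low_abQ_map {α β : Type} (q : ℕ) (f : Perm α →* Perm β) (hf : Function.Injective f)
    {H : Subgroup (Perm α)} (hH : AbQ q H) : AbQ q (H.map f) := by
  obtain ⟨h1, k, hk⟩ := hH
  refine ⟨?_, k, ?_⟩
  · rintro _ ⟨a, ha, rfl⟩ _ ⟨b, hb, rfl⟩
    rw [← map_mul, ← map_mul, h1 a ha b hb]
  · rw [← hk]
    exact (Nat.card_congr (H.equivMapOfInjective f hf).toEquiv).symm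

/-- The permutation `(s, z) ↦ (s, z + w s)`, as a homomorphism in `w`. -/
private def lowShift (S : Type) (q : ℕ) : Multiplicative (S → ZMod q) →* Perm (S × ZMod q) where
  toFun w :=
    { toFun := fun x => (x.1, x.2 + Multiplicative.toAdd w x.1)
      invFun := fun x => (x.1, x.2 - Multiplicative.toAdd w x.1)
      left_inv := fun x => by simp
      right_inv := fun x => by simp }
  map_one' := by
    ext x <;> simp
  map_mul' := by
    intro v w
    ext x
    · simp
    · simp [add_comm, add_left_comm]

private theorem lowShift_apply (S : Type) (q : ℕ) (w : Multiplicative (S → ZMod q)) (x : S × ZMod q) :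
    lowShift S q w x = (x.1, x.2 + Multiplicative.toAdd w x.1) := rfl

private theorem lowShift_injective (S : Type) (q : ℕ) : Function.Injective (lowShift S q) := by
  intro v w h
  have h2 : Multiplicative.toAdd v = Multiplicative.toAdd w := by
    funext s
    have h1 := congrArg (fun σ : Perm (S × ZMod q) => (σ (s, 0)).2) h
    simpa [lowShift_apply] using h1
  exact Multiplicative.toAdd.injective h2

/-- The graph of the matrix `M`. -/
private def lowGraph (a b q : ℕ) (M : Fin a → Fin b → ZMod q) : AddSubgroup (Fin a ⊕ Fin b → ZMod q) where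
  carrier := {w | ∀ j, w (Sum.inr j) = ∑ i, M i j * w (Sum.inl i)}
  zero_mem' := by
    intro j
    simp
  add_mem' := by
    intro v w hv hw j
    have h1 := hv j
    have h2 := hw j
    simp only [Pi.add_apply, h1, h2, mul_add, Finset.sum_add_distrib]
  neg_mem' := by
    intro v hv j
    have h1 := hv j
    simp only [Pi.neg_apply, h1, mul_neg, Finset.sum_neg_distrib]

private theorem mem_lowGraph {a b q : ℕ} {M : Fin a → Fin b → ZMod q} {w : Fin a ⊕ Fin b → ZMod q} :
    w ∈ lowGraph a b q M ↔ ∀ j, w (Sum.inr j) = ∑ i, M i j * w (Sum.inl i) := Iff.rfl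

private theorem lowGraph_injective (a b q : ℕ) : Function.Injective (lowGraph a b q) := by
  intro M N h
  funext i j
  have h1 : (Sum.elim (Pi.single i 1) (fun j => M i j) : Fin a ⊕ Fin b → ZMod q) ∈ lowGraph a b q M := by
    rw [mem_lowGraph]
    intro j
    simp [Pi.single_apply]
  rw [h, mem_lowGraph] at h1
  have h2 := h1 j
  simpa [Pi.single_apply] using h2

private theorem lowGraph_card (a b q : ℕ) (hq : q.Prime) (M : Fin a → Fin b → ZMod q) :
    ∃ k : ℕ, Nat.card (lowGraph a b q M) = q ^ k := by
  have : NeZero q := ⟨hq.ne_zero⟩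
  have h1 : Nat.card (lowGraph a b q M) ∣ Nat.card (Fin a ⊕ Fin b → ZMod q) :=
    AddSubgroup.card_addSubgroup_dvd_card _
  have h2 : Nat.card (Fin a ⊕ Fin b → ZMod q) = q ^ (a + b) := by
    rw [Nat.card_fun, Nat.card_zmod, Nat.card_eq_fintype_card, Fintype.card_sum, Fintype.card_fin, Fintype.card_fin]
  rw [h2] at h1
  obtain ⟨k, -, hk⟩ := (Nat.dvd_prime_pow hq).1 h1
  exact ⟨k, hk⟩

/-- The subgroup of the permutations of `(Fin a ⊕ Fin b) × ZMod q`. -/
private def lowH (a b q : ℕ) (M : Fin a → Fin b → ZMod q) : Subgroup (Perm ((Fin a ⊕ Fin b) × ZMod q)) :=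
  (AddSubgroup.toSubgroup (lowGraph a b q M)).map (lowShift (Fin a ⊕ Fin b) q)

private theorem lowH_injective (a b q : ℕ) : Function.Injective (lowH a b q) := by
  intro M N h
  have h1 := Subgroup.map_injective (lowShift_injective (Fin a ⊕ Fin b) q) h
  exact lowGraph_injective a b q (AddSubgroup.toSubgroup.injective h1)

private theorem lowH_abQ (a b q : ℕ) (hq : q.Prime) (M : Fin a → Fin b → ZMod q) : AbQ q (lowH a b q M) := by
  refine ⟨?_, ?_⟩
  · rintro _ ⟨v, -, rfl⟩ _ ⟨w, -, rfl⟩
    rw [← map_mul, ← map_mul, mul_comm]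
  · obtain ⟨k, hk⟩ := lowGraph_card a b q hq M
    refine ⟨k, ?_⟩
    rw [← hk]
    exact (Nat.card_congr ((AddSubgroup.toSubgroup (lowGraph a b q M)).equivMapOfInjective _
      (lowShift_injective (Fin a ⊕ Fin b) q)).toEquiv).symm

theorem nQ_lower (q n : ℕ) (hq : q.Prime) : q ^ ((n / q / 2) * (n / q - n / q / 2)) ≤ nQ q n := by
  have : NeZero q := ⟨hq.ne_zero⟩
  set a := n / q / 2 with ha
  set b := n / q - a with hb
  have hab : a + b = n / q := Nat.add_sub_cancel' (Nat.div_le_self (n / q) 2)
  have hcard : Fintype.card ((Fin a ⊕ Fin b) × ZMod q) ≤ Fintype.card (Fin n) := by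
    rw [Fintype.card_prod, Fintype.card_sum, Fintype.card_fin, Fintype.card_fin, ZMod.card, Fintype.card_fin, hab]
    exact Nat.div_mul_le_self n q
  obtain ⟨e⟩ := Function.Embedding.nonempty_of_card_le hcard
  have hinj := Perm.viaEmbeddingHom_injective e
  have h1 : Nat.card (Fin a → Fin b → ZMod q) = q ^ (a * b) := by
    rw [Nat.card_fun, Nat.card_fun, Nat.card_zmod, Nat.card_eq_fintype_card, Nat.card_eq_fintype_card,
      Fintype.card_fin, Fintype.card_fin, ← pow_mul, mul_comm]
  rw [← h1]
  refine Nat.card_le_card_of_injective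
    (fun M : Fin a → Fin b → ZMod q => (⟨(lowH a b q M).map (Perm.viaEmbeddingHom e),
      low_abQ_map q _ hinj (lowH_abQ a b q hq M)⟩ : {H : Subgroup (Perm (Fin n)) // AbQ q H})) ?_
  intro M N h
  have h2 := congrArg Subtype.val h
  exact lowH_injective a b q (Subgroup.map_injective hinj h2)

/-- Adding a fixed point: the number does not decrease. -/
theorem nQ_mono (q : ℕ) : Monotone (nQ q) := by
  intro m n hmn
  have hinj := Perm.viaEmbeddingHom_injective (Fin.castLEEmb hmn)
  refine Nat.card_le_card_of_injective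
    (fun H : {H : Subgroup (Perm (Fin m)) // AbQ q H} => (⟨H.1.map (Perm.viaEmbeddingHom (Fin.castLEEmb hmn)),
      low_abQ_map q _ hinj H.2⟩ : {H : Subgroup (Perm (Fin n)) // AbQ q H})) ?_
  intro H K h
  have h2 := congrArg Subtype.val h
  exact Subtype.ext (Subgroup.map_injective hinj h2)

end Pool.Agent.AbS
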