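import Pool.Agent.AbS.SplitA

/-!
Counting the abelian subgroups which are not `q`-groups.

For `H` with `AbGe q H`, `¬ AbQ q H` take `D`, `W` from `exists_split`, `U = cPart q H` and
`V = {σ | σ x = x for x ∈ W, and some v ∈ qPart q H agrees with σ outside W}`; `V` is isomorphic to `qPart q H`.
`H` is determined by `D, W, U, V`: if `H₁`, `H₂` have the same data and `v₁ ∈ qPart q H₁`, there is
`v₂ ∈ qPart q H₂` with `v₁ = v₂` outside `W`; for `x ∈ D`, `x = u y`, `y ∉ W`, `u ∈ U`: `v₁ x = u (v₁ y) = u (v₂ y) = v₂ x`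
(both commute with `u`), and for `x ∉ D`, `x ∉ W`. So `v₁ = v₂`; then `sup_parts`.
The groups `U` fixing all points outside `D` are `nGe (q + 1) |D|` many, the groups `V` fixing all points of `W` are
`nQ q (n - |W|)` many (`nGe_support`, `nQ_support`), and `|W| ≥ m - m / (q + 1)` for `|D| = m`; `nQ` is monotone.
There are `n.choose m * 2 ^ m` pairs `W ⊆ D`, `|D| = m`.
-/

set_option autoImplicit false

namespace Pool.Agent.AbS

open Equiv

/-- The permutations fixing all points outside `S` are a copy of the symmetric group on `|S|` points. -/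
private theorem exists_hom (n : ℕ) (S : Finset (Fin n)) : ∃ φ : Perm (Fin S.card) →* Perm (Fin n),
    Function.Injective φ ∧ ∀ σ : Perm (Fin n), (∀ x, x ∉ S → σ x = x) → ∃ τ, φ τ = σ := by
  classical
  let e : Fin S.card ≃ {x // x ∈ S} := (S.equivFin).symm
  refine ⟨(Perm.ofSubtype (p := fun x => x ∈ S)).comp e.permCongrHom.toMonoidHom, ?_, ?_⟩
  · exact (Perm.ofSubtype_injective (p := fun x => x ∈ S)).comp e.permCongrHom.injective
  · intro σ hσ
    have h1 : ∀ x, σ x ∈ S ↔ x ∈ S := by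
      intro x
      constructor
      · intro hx
        by_contra h
        rw [hσ x h] at hx
        exact h hx
      · intro hx
        by_contra h
        have h2 := hσ (σ x) h
        have h3 : σ x = x := σ.injective h2
        rw [h3] at h
        exact h hx
    obtain ⟨τ, hτ⟩ := e.permCongrHom.surjective (σ.subtypePerm h1)
    refine ⟨τ, ?_⟩
    have h2 : Perm.ofSubtype (σ.subtypePerm h1) = σ :=
      Perm.ofSubtype_subtypePerm h1 (fun x hx => by
        by_contra h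
        exact hx (hσ x h))
    change Perm.ofSubtype (e.permCongrHom τ) = σ
    rw [hτ, h2]

/-- Counting subgroups supported on `S`. -/
private theorem card_support (n : ℕ) (S : Finset (Fin n)) (P : Subgroup (Perm (Fin n)) → Prop)
    (P' : Subgroup (Perm (Fin S.card)) → Prop)
    (hP : ∀ (φ : Perm (Fin S.card) →* Perm (Fin n)) (U : Subgroup (Perm (Fin n))), Function.Injective φ →
      Nat.card (U.comap φ) = Nat.card U → P U → P' (U.comap φ)) :
    Nat.card {U : Subgroup (Perm (Fin n)) // P U ∧ ∀ u ∈ U, ∀ x, x ∉ S → u x = x} ≤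
      Nat.card {U : Subgroup (Perm (Fin S.card)) // P' U} := by
  classical
  obtain ⟨φ, hφ, hs⟩ := exists_hom n S
  have hmap : ∀ U : Subgroup (Perm (Fin n)), (∀ u ∈ U, ∀ x, x ∉ S → u x = x) → (U.comap φ).map φ = U := by
    intro U hU
    apply le_antisymm
    · exact Subgroup.map_comap_le _ _
    · intro u hu
      obtain ⟨τ, hτ⟩ := hs u (hU u hu)
      exact ⟨τ, by simpa [hτ] using hu, hτ⟩
  refine Nat.card_le_card_of_injective (fun U => ⟨U.1.comap φ, hP φ U.1 hφ ?_ U.2.1⟩) ?_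
  · have h1 := hmap U.1 U.2.2
    have h2 := Nat.card_congr ((U.1.comap φ).equivMapOfInjective φ hφ).toEquiv
    rw [h1] at h2
    exact h2
  · intro U₁ U₂ h
    have h1 : U₁.1.comap φ = U₂.1.comap φ := congrArg Subtype.val h
    apply Subtype.ext
    rw [← hmap U₁.1 U₁.2.2, ← hmap U₂.1 U₂.2.2, h1]

private theorem comm_comap {α β : Type} (φ : Perm α →* Perm β) (hφ : Function.Injective φ) (U : Subgroup (Perm β))
    (h : ∀ a ∈ U, ∀ b ∈ U, a * b = b * a) : ∀ a ∈ U.comap φ, ∀ b ∈ U.comap φ, a * b = b * a := by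
  intro a ha b hb
  apply hφ
  rw [map_mul, map_mul]
  exact h _ (Subgroup.mem_comap.1 ha) _ (Subgroup.mem_comap.1 hb)

theorem nGe_support (t n : ℕ) (D : Finset (Fin n)) :
    Nat.card {U : Subgroup (Perm (Fin n)) // AbGe t U ∧ ∀ u ∈ U, ∀ x, x ∉ D → u x = x} ≤ nGe t D.card := by
  refine card_support n D (fun U => AbGe t U) (fun U => AbGe t U) ?_
  intro φ U hφ hc h
  refine ⟨comm_comap φ hφ U h.1, ?_⟩
  intro p hp hd
  rw [hc] at hd
  exact h.2 p hp hd

theorem nQ_support (q n : ℕ) (W : Finset (Fin n)) :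
    Nat.card {V : Subgroup (Perm (Fin n)) // AbQ q V ∧ ∀ v ∈ V, ∀ x, x ∈ W → v x = x} ≤ nQ q (n - W.card) := by
  classical
  have h0 : n - W.card = (Wᶜ : Finset (Fin n)).card := by
    rw [Finset.card_compl, Fintype.card_fin]
  rw [h0]
  have h1 := card_support n Wᶜ (fun U => AbQ q U) (fun U => AbQ q U) (by
    intro φ U hφ hc h
    refine ⟨comm_comap φ hφ U h.1, ?_⟩
    rw [hc]
    exact h.2)
  refine le_trans (le_of_eq ?_) h1
  apply Nat.card_congr
  refine Equiv.subtypeEquivRight (fun V => ?_)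
  simp only [Finset.mem_compl, not_not]

/-- The group induced by `qPart q H` outside `W`. -/
theorem exists_restrict {q n : ℕ} (hq : q.Prime) {H : Subgroup (Perm (Fin n))} (h : AbGe q H)
    {W D : Finset (Fin n)} (hWD : W ⊆ D) (h1 : ∀ x ∈ D, ∃ u ∈ cPart q H, ∃ y, y ∉ W ∧ x = u y)
    (h2 : ∀ v ∈ qPart q H, ∀ x, x ∈ W ↔ v x ∈ W) :
    ∃ V : Subgroup (Perm (Fin n)), AbQ q V ∧
      ∀ σ, σ ∈ V ↔ (∀ x ∈ W, σ x = x) ∧ ∃ v ∈ qPart q H, ∀ x, x ∉ W → σ x = v x := by
  have : Fact q.Prime := ⟨hq⟩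
  let V : Subgroup (Perm (Fin n)) :=
    { carrier := {σ | (∀ x ∈ W, σ x = x) ∧ ∃ v ∈ qPart q H, ∀ x, x ∉ W → σ x = v x}
      mul_mem' := by
        rintro σ τ ⟨hσ, v, hv, hv'⟩ ⟨hτ, w, hw, hw'⟩
        refine ⟨fun x hx => ?_, v * w, mul_mem hv hw, fun x hx => ?_⟩
        · rw [Perm.mul_apply, hτ x hx, hσ x hx]
        · rw [Perm.mul_apply, Perm.mul_apply, hw' x hx]
          exact hv' _ (fun hh => hx ((h2 w hw x).2 hh))
      one_mem' := ⟨fun x _ => rfl, 1, one_mem _, fun x _ => rfl⟩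
      inv_mem' := by
        rintro σ ⟨hσ, v, hv, hv'⟩
        refine ⟨fun x hx => ?_, v⁻¹, inv_mem hv, fun x hx => ?_⟩
        · rw [Perm.inv_eq_iff_eq, hσ x hx]
        · have hs : σ (σ⁻¹ x) = x := by simp
          have hy : σ⁻¹ x ∉ W := by
            intro hy
            have h3 := hσ _ hy
            rw [hs] at h3
            rw [← h3] at hy
            exact hx hy
          have h4 := hv' _ hy
          rw [hs] at h4
          rw [eq_comm, Perm.inv_eq_iff_eq]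
          exact h4 }
  have hV : ∀ σ, σ ∈ V ↔ (∀ x ∈ W, σ x = x) ∧ ∃ v ∈ qPart q H, ∀ x, x ∉ W → σ x = v x := fun σ => Iff.rfl
  refine ⟨V, ⟨?_, ?_⟩, hV⟩
  · rintro σ ⟨hσ, v, hv, hv'⟩ τ ⟨hτ, w, hw, hw'⟩
    have hvw : v * w = w * v := h.1 v ((mem_qPart h.1).1 hv).1 w ((mem_qPart h.1).1 hw).1
    ext x : 1
    by_cases hx : x ∈ W
    · rw [Perm.mul_apply, Perm.mul_apply, hτ x hx, hσ x hx, hτ x hx]
    · rw [Perm.mul_apply, Perm.mul_apply, hw' x hx, hv' x hx, hv' _ (fun hh => hx ((h2 w hw x).2 hh)),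
        hw' _ (fun hh => hx ((h2 v hv x).2 hh)), ← Perm.mul_apply, ← Perm.mul_apply, hvw]
  · have hp : IsPGroup q V := by
      rintro ⟨σ, hσ, v, hv, hv'⟩
      obtain ⟨j, hj⟩ := ((mem_qPart h.1).1 hv).2
      refine ⟨j, Subtype.ext ?_⟩
      change σ ^ (q ^ j) = 1
      have hpow : ∀ m : ℕ, (∀ x ∈ W, (σ ^ m) x = x) ∧ ∀ x, x ∉ W → (σ ^ m) x = (v ^ m) x := by
        intro m
        induction m with
        | zero => exact ⟨fun x _ => rfl, fun x _ => rfl⟩
        | succ m ih =>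
          refine ⟨fun x hx => ?_, fun x hx => ?_⟩
          · rw [pow_succ, Perm.mul_apply, hσ x hx, ih.1 x hx]
          · rw [pow_succ, pow_succ, Perm.mul_apply, Perm.mul_apply, hv' x hx]
            exact ih.2 _ (fun hh => hx ((h2 v hv x).2 hh))
      ext x : 1
      by_cases hx : x ∈ W
      · rw [(hpow _).1 x hx]
        rfl
      · rw [(hpow _).2 x hx, hj]
    exact IsPGroup.iff_card.1 hp

private theorem exists_perm {n : ℕ} (W : Finset (Fin n)) (v : Perm (Fin n)) (hv : ∀ x, x ∈ W ↔ v x ∈ W) :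
    ∃ σ : Perm (Fin n), (∀ x ∈ W, σ x = x) ∧ ∀ x, x ∉ W → σ x = v x := by
  classical
  have h1 : ∀ x, v x ∉ W ↔ x ∉ W := fun x => not_congr (hv x).symm
  refine ⟨Perm.ofSubtype (v.subtypePerm (p := fun x => x ∉ W) h1), fun x hx => ?_, fun x hx => ?_⟩
  · exact Perm.ofSubtype_apply_of_not_mem _ (not_not.2 hx)
  · exact (Perm.ofSubtype_apply_of_mem (p := fun x => x ∉ W) (v.subtypePerm (p := fun x => x ∉ W) h1) hx).trans rfl

/-- The data of a group. -/
private def Data (q : ℕ) {n : ℕ} (H : Subgroup (Perm (Fin n))) (D W : Finset (Fin n)) (V : Subgroup (Perm (Fin n))) :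
    Prop :=
  W ⊆ D ∧ (q + 1) * (D.card - W.card) ≤ D.card ∧ q + 1 ≤ D.card ∧
    (∀ u ∈ cPart q H, ∀ x, x ∉ D → u x = x) ∧
    (∀ x ∈ D, ∃ u ∈ cPart q H, ∃ y, y ∉ W ∧ x = u y) ∧
    (∀ v ∈ qPart q H, ∀ x, x ∈ W ↔ v x ∈ W) ∧ AbQ q V ∧
    ∀ σ, σ ∈ V ↔ (∀ x ∈ W, σ x = x) ∧ ∃ v ∈ qPart q H, ∀ x, x ∉ W → σ x = v x

private theorem data_le {q n : ℕ} {H₁ H₂ : Subgroup (Perm (Fin n))} (h₁ : AbGe q H₁) (h₂ : AbGe q H₂)
    {D W : Finset (Fin n)} {V : Subgroup (Perm (Fin n))} (d₁ : Data q H₁ D W V) (d₂ : Data q H₂ D W V)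
    (hc : cPart q H₁ = cPart q H₂) : qPart q H₁ ≤ qPart q H₂ := by
  intro v₁ hv₁
  obtain ⟨hWD, -, -, hu, hx, hi, -, hV⟩ := d₁
  obtain ⟨-, -, -, -, -, hi2, -, hV2⟩ := d₂
  obtain ⟨σ, hσ, hσ'⟩ := exists_perm W v₁ (hi v₁ hv₁)
  have h3 : σ ∈ V := (hV σ).2 ⟨hσ, v₁, hv₁, hσ'⟩
  obtain ⟨-, v₂, hv₂, hv₂'⟩ := (hV2 σ).1 h3
  have h4 : ∀ x, x ∉ W → v₁ x = v₂ x := fun x hxW => by rw [← hσ' x hxW, hv₂' x hxW]
  have h5 : v₁ = v₂ := by
    ext x : 1
    by_cases hxD : x ∈ D
    · obtain ⟨u, huc, y, hy, rfl⟩ := hx x hxD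
      have c1 : v₁ * u = u * v₁ := h₁.1 v₁ ((mem_qPart h₁.1).1 hv₁).1 u ((mem_cPart h₁.1).1 huc).1
      have huc2 : u ∈ cPart q H₂ := hc ▸ huc
      have c2 : v₂ * u = u * v₂ := h₂.1 v₂ ((mem_qPart h₂.1).1 hv₂).1 u ((mem_cPart h₂.1).1 huc2).1
      rw [← Perm.mul_apply, ← Perm.mul_apply, c1, c2, Perm.mul_apply, Perm.mul_apply, h4 y hy]
    · exact h4 x (fun hxW => hxD (hWD hxW))
  rw [h5]
  exact hv₂

private theorem data_inj {q n : ℕ} (hq : q.Prime) {H₁ H₂ : Subgroup (Perm (Fin n))} (h₁ : AbGe q H₁) (h₂ : AbGe q H₂)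
    {D W : Finset (Fin n)} {V : Subgroup (Perm (Fin n))} (d₁ : Data q H₁ D W V) (d₂ : Data q H₂ D W V)
    (hc : cPart q H₁ = cPart q H₂) : H₁ = H₂ := by
  have h3 : qPart q H₁ = qPart q H₂ := le_antisymm (data_le h₁ h₂ d₁ d₂ hc) (data_le h₂ h₁ d₂ d₁ hc.symm)
  rw [← sup_parts hq h₁.1, ← sup_parts hq h₂.1, h3, hc]

/-- Counting the pairs `W ⊆ D`. -/
private theorem sum_pairs (n r : ℕ) (G : ℕ → ℕ)
    (P : Finset (Fin n) × Finset (Fin n) → Prop) [Fintype {p : Finset (Fin n) × Finset (Fin n) // P p}] (hP : ∀ p, P p → p.2 ⊆ p.1 ∧ r ≤ p.1.card) :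
    ∑ p : {p : Finset (Fin n) × Finset (Fin n) // P p}, G p.1.1.card ≤
      ∑ m ∈ Finset.Icc r n, n.choose m * 2 ^ m * G m := by
  classical
  have e1 : ∑ p : {p : Finset (Fin n) × Finset (Fin n) // P p}, G p.1.1.card =
      ∑ p ∈ (Finset.univ : Finset (Finset (Fin n) × Finset (Fin n))).filter P, G p.1.card := by
    rw [Finset.sum_subtype (p := P) ((Finset.univ : Finset (Finset (Fin n) × Finset (Fin n))).filter P)
      (fun x => by simp) (fun p => G p.1.card)]
  have e2 : ∑ p ∈ (Finset.univ : Finset (Finset (Fin n) × Finset (Fin n))).filter P, G p.1.card ≤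
      ∑ p ∈ ((Finset.univ : Finset (Finset (Fin n))) ×ˢ (Finset.univ : Finset (Finset (Fin n)))).filter
        (fun p => p.2 ⊆ p.1 ∧ r ≤ p.1.card), G p.1.card := by
    apply Finset.sum_le_sum_of_subset
    intro p hp
    simp only [Finset.mem_filter, Finset.mem_univ, true_and, Finset.mem_product] at hp ⊢
    exact hP p hp
  have e3 : ∑ p ∈ ((Finset.univ : Finset (Finset (Fin n))) ×ˢ (Finset.univ : Finset (Finset (Fin n)))).filter
        (fun p => p.2 ⊆ p.1 ∧ r ≤ p.1.card), G p.1.card =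
      ∑ d : Finset (Fin n), if r ≤ d.card then 2 ^ d.card * G d.card else 0 := by
    rw [Finset.sum_filter, Finset.sum_product]
    refine Finset.sum_congr rfl (fun d _ => ?_)
    split_ifs with hr
    · rw [← Finset.sum_filter]
      have : (Finset.univ : Finset (Finset (Fin n))).filter (fun w => (d, w).2 ⊆ (d, w).1 ∧ r ≤ (d, w).1.card) =
          d.powerset := by
        ext w
        simp [hr]
      rw [this]
      change ∑ a ∈ d.powerset, G d.card = 2 ^ d.card * G d.card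
      rw [Finset.sum_const, Finset.card_powerset, smul_eq_mul]
    · apply Finset.sum_eq_zero
      intro w _
      rw [if_neg]
      exact fun h => hr h.2
  have e4 : ∑ d : Finset (Fin n), (if r ≤ d.card then 2 ^ d.card * G d.card else 0) =
      ∑ m ∈ Finset.Icc r n, n.choose m * 2 ^ m * G m := by
    have h1 := Finset.sum_powerset_apply_card (fun m => if r ≤ m then 2 ^ m * G m else 0)
      (x := (Finset.univ : Finset (Fin n)))
    rw [Finset.powerset_univ] at h1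
    rw [h1, Finset.card_univ, Fintype.card_fin]
    have h2 : Finset.Icc r n = (Finset.range (n + 1)).filter (fun m => r ≤ m) := by
      ext m
      simp only [Finset.mem_Icc, Finset.mem_filter, Finset.mem_range]
      omega
    rw [h2, Finset.sum_filter]
    refine Finset.sum_congr rfl (fun m _ => ?_)
    split_ifs with hr
    · rw [smul_eq_mul]
      ring
    · simp
  rw [e1, ← e4, ← e3]
  exact e2

theorem bad_le (q n : ℕ) (hq : q.Prime) (hmono : Monotone (nQ q)) :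
    Nat.card {H : Subgroup (Perm (Fin n)) // AbGe q H ∧ ¬ AbQ q H} ≤
      ∑ m ∈ Finset.Icc (q + 1) n, n.choose m * 2 ^ m * nGe (q + 1) m * nQ q (n - (m - m / (q + 1))) := by
  classical
  have key : ∀ H : {H : Subgroup (Perm (Fin n)) // AbGe q H ∧ ¬ AbQ q H},
      ∃ D W : Finset (Fin n), ∃ V : Subgroup (Perm (Fin n)), Data q H.1 D W V := by
    intro H
    obtain ⟨D, W, h1, -, h3, h4, h5, h6, h7⟩ := exists_split hq H.2.1 H.2.2
    obtain ⟨V, hV, hV'⟩ := exists_restrict hq H.2.1 h1 h6 h7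
    exact ⟨D, W, V, h1, h3, h4, h5, h6, h7, hV, hV'⟩
  choose D W V hD using key
  let A : Finset (Fin n) → Type := fun d =>
    {U : Subgroup (Perm (Fin n)) // AbGe (q + 1) U ∧ ∀ u ∈ U, ∀ x, x ∉ d → u x = x}
  let B : Finset (Fin n) → Type := fun w =>
    {V : Subgroup (Perm (Fin n)) // AbQ q V ∧ ∀ v ∈ V, ∀ x, x ∈ w → v x = x}
  let P : Finset (Fin n) × Finset (Fin n) → Prop := fun p =>
    p.2 ⊆ p.1 ∧ (q + 1) * (p.1.card - p.2.card) ≤ p.1.card ∧ q + 1 ≤ p.1.card
  have : ∀ d, Finite (A d) := fun d => Subtype.finite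
  have : ∀ d, Finite (B d) := fun d => Subtype.finite
  let f : {H : Subgroup (Perm (Fin n)) // AbGe q H ∧ ¬ AbQ q H} →
      Σ p : {p : Finset (Fin n) × Finset (Fin n) // P p}, A p.1.1 × B p.1.2 := fun H =>
    ⟨⟨(D H, W H), (hD H).1, (hD H).2.1, (hD H).2.2.1⟩,
      (⟨cPart q H.1, cPart_abGe hq H.2.1, (hD H).2.2.2.1⟩,
        ⟨V H, (hD H).2.2.2.2.2.2.1, fun v hv => (((hD H).2.2.2.2.2.2.2 v).1 hv).1⟩)⟩
  let r : (Σ p : {p : Finset (Fin n) × Finset (Fin n) // P p}, A p.1.1 × B p.1.2) →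
      (Finset (Fin n) × Finset (Fin n)) × Subgroup (Perm (Fin n)) × Subgroup (Perm (Fin n)) := fun s =>
    (s.1.1, s.2.1.1, s.2.2.1)
  have hf : Function.Injective f := by
    intro H₁ H₂ h
    have h1 : r (f H₁) = r (f H₂) := congrArg r h
    have h2 : D H₁ = D H₂ := congrArg (fun t => t.1.1) h1
    have h3 : W H₁ = W H₂ := congrArg (fun t => t.1.2) h1
    have h4 : cPart q H₁.1 = cPart q H₂.1 := congrArg (fun t => t.2.1) h1
    have h5 : V H₁ = V H₂ := congrArg (fun t => t.2.2) h1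
    have d1 := hD H₁
    have d2 := hD H₂
    rw [← h2, ← h3, ← h5] at d2
    exact Subtype.ext (data_inj hq H₁.2.1 H₂.2.1 d1 d2 h4)
  calc Nat.card {H : Subgroup (Perm (Fin n)) // AbGe q H ∧ ¬ AbQ q H}
      ≤ Nat.card (Σ p : {p : Finset (Fin n) × Finset (Fin n) // P p}, A p.1.1 × B p.1.2) :=
        Nat.card_le_card_of_injective f hf
    _ = ∑ p : {p : Finset (Fin n) × Finset (Fin n) // P p}, Nat.card (A p.1.1) * Nat.card (B p.1.2) := by
        rw [Nat.card_sigma]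
        refine Finset.sum_congr rfl (fun p _ => ?_)
        rw [Nat.card_prod]
    _ ≤ ∑ p : {p : Finset (Fin n) × Finset (Fin n) // P p},
          (fun m => nGe (q + 1) m * nQ q (n - (m - m / (q + 1)))) p.1.1.card := by
        refine Finset.sum_le_sum (fun p _ => ?_)
        refine Nat.mul_le_mul (nGe_support (q + 1) n p.1.1) ((nQ_support q n p.1.2).trans (hmono ?_))
        have h1 := p.2.2.1
        have h2 : p.1.1.card - p.1.2.card ≤ p.1.1.card / (q + 1) := by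
          rw [Nat.le_div_iff_mul_le (Nat.succ_pos q), mul_comm]
          exact h1
        omega
    _ ≤ ∑ m ∈ Finset.Icc (q + 1) n, n.choose m * 2 ^ m * (nGe (q + 1) m * nQ q (n - (m - m / (q + 1)))) :=
        sum_pairs n (q + 1) (fun m => nGe (q + 1) m * nQ q (n - (m - m / (q + 1)))) P (fun p hp => ⟨hp.1, hp.2.2⟩)
    _ = ∑ m ∈ Finset.Icc (q + 1) n, n.choose m * 2 ^ m * nGe (q + 1) m * nQ q (n - (m - m / (q + 1))) := by
        refine Finset.sum_congr rfl (fun m _ => ?_)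
        rw [mul_assoc (n.choose m * 2 ^ m)]

end Pool.Agent.AbS
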