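import Pool.Agent.AbS.Num
import Pool.Agent.AbS.SplitB
import Pool.Agent.AbS.Ana

/-!
The theorem: among the abelian subgroups of `S_n` whose order has no prime factor below the prime `q`, almost all are
`q`-groups, of order divisible by any fixed power of `q`.
-/

set_option autoImplicit false

namespace Pool.Agent.AbS

open Filter Topology Equiv

theorem abQ_bot (q n : ℕ) : AbQ q (⊥ : Subgroup (Perm (Fin n))) := by
  refine ⟨?_, 0, ?_⟩
  · intro a ha b hb
    rw [Subgroup.mem_bot] at ha hb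
    rw [ha, hb]
  · simp

theorem one_le_nQ (q n : ℕ) : 1 ≤ nQ q n := by
  unfold nQ
  have : Nonempty {H : Subgroup (Perm (Fin n)) // AbQ q H} := ⟨⟨⊥, abQ_bot q n⟩⟩
  exact Nat.one_le_iff_ne_zero.2 Nat.card_pos.ne'

/-- The proportion of the groups that are not `q`-groups tends to `0`. -/
theorem bad_tendsto (q : ℕ) (hq : q.Prime) : Tendsto (fun n : ℕ =>
    (Nat.card {H : Subgroup (Perm (Fin n)) // AbGe q H ∧ ¬ AbQ q H} : ℝ) / (nQ q n : ℝ)) atTop (𝓝 0) := by
  obtain ⟨C1, hC1, h1⟩ := upperG q hq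
  obtain ⟨C2, hC2, h2⟩ := upperN q hq
  obtain ⟨C3, hC3, h3⟩ := lowerN q hq
  obtain ⟨c, hc, h4⟩ := growth q hq
  have hq0 : (0 : ℝ) < q := by exact_mod_cast hq.pos
  have hlog : 0 ≤ Real.log (q : ℝ) := Real.log_nonneg (by exact_mod_cast hq.one_le)
  have hlog' : 0 ≤ Real.log ((q : ℝ) + 1) := Real.log_nonneg (by linarith)
  set C := max C1 (max C2 C3) with hCdef
  have hC : 0 ≤ C := hC1.trans (le_max_left _ _)
  have e1 : C1 ≤ C := le_max_left _ _
  have e2 : C2 ≤ C := (le_max_left _ _).trans (le_max_right _ _)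
  have e3 : C3 ≤ C := (le_max_right _ _).trans (le_max_right _ _)
  have key := tail_tendsto q hq.two_le (fun m => (nGe (q + 1) m : ℝ)) (fun n => (nQ q n : ℝ))
    (Real.log (q + 1) / (4 * (q + 1 : ℝ) ^ 2)) (Real.log q / (4 * (q : ℝ) ^ 2)) c C (by positivity) (by positivity)
    hc hC (fun m => by positivity) (fun n => by exact_mod_cast one_le_nQ q n)
    (fun a b hab => by
      have := nQ_mono q hab
      change (nQ q a : ℝ) ≤ (nQ q b : ℝ)
      exact_mod_cast this)
    (fun m hm => by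
      refine (h1 m hm).trans (Real.exp_le_exp.2 ?_)
      have : C1 * m * (1 + Real.log m) ^ 2 ≤ C * m * (1 + Real.log m) ^ 2 := by gcongr
      linarith)
    (fun n hn => by
      refine (h2 n hn).trans (Real.exp_le_exp.2 ?_)
      have : C2 * n * (1 + Real.log n) ^ 2 ≤ C * n * (1 + Real.log n) ^ 2 := by gcongr
      linarith)
    (fun n => by
      refine le_trans (Real.exp_le_exp.2 ?_) (h3 n)
      have : C3 * ((n : ℝ) + 1) ≤ C * ((n : ℝ) + 1) := by gcongr
      linarith)
    h4 (alpha_lt q hq.two_le)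
  refine squeeze_zero (fun n => by positivity) (fun n => ?_) key
  have hb := bad_le q n hq (nQ_mono q)
  have hb' : (Nat.card {H : Subgroup (Perm (Fin n)) // AbGe q H ∧ ¬ AbQ q H} : ℝ) ≤
      ∑ m ∈ Finset.Icc (q + 1) n, (n.choose m : ℝ) * 2 ^ m * nGe (q + 1) m * nQ q (n - (m - m / (q + 1))) := by
    exact_mod_cast hb
  gcongr

/-- Few subgroups have bounded order. -/
theorem card_small_le (n Q : ℕ) :
    Nat.card {H : Subgroup (Perm (Fin n)) // Nat.card H ≤ Q} ≤ n.factorial ^ Q := by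
  classical
  have hex : ∀ H : {H : Subgroup (Perm (Fin n)) // Nat.card H ≤ Q},
      ∃ f : Fin Q → Perm (Fin n), Set.range f = (H.1 : Set (Perm (Fin n))) := by
    rintro ⟨H, hH⟩
    have : Fintype H := Fintype.ofFinite _
    have hc : Fintype.card H ≤ Fintype.card (Fin Q) := by
      rw [Fintype.card_fin, ← Nat.card_eq_fintype_card]
      exact hH
    obtain ⟨g⟩ := Function.Embedding.nonempty_of_card_le hc
    refine ⟨fun i => ((Function.invFun (fun y : H => g y) i : H) : Perm (Fin n)), ?_⟩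
    ext σ
    constructor
    · rintro ⟨i, rfl⟩
      exact (Function.invFun (fun y : H => g y) i).2
    · intro hσ
      refine ⟨g ⟨σ, hσ⟩, ?_⟩
      have h1 := Function.leftInverse_invFun (f := fun y : H => g y) g.injective ⟨σ, hσ⟩
      simp only at h1 ⊢
      rw [h1]
  choose f hf using hex
  have hinj : Function.Injective f := by
    intro H K hHK
    apply Subtype.ext
    apply SetLike.coe_injective
    rw [← hf H, ← hf K, hHK]
  have := Nat.card_le_card_of_injective f hinj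
  refine this.trans (le_of_eq ?_)
  rw [Nat.card_eq_fintype_card, Fintype.card_fun, Fintype.card_fin, Fintype.card_perm, Fintype.card_fin]

theorem nGe_eq (q n : ℕ) (hq : q.Prime) : nGe q n =
    nQ q n + Nat.card {H : Subgroup (Perm (Fin n)) // AbGe q H ∧ ¬ AbQ q H} := by
  classical
  unfold nGe nQ
  have e : {H : Subgroup (Perm (Fin n)) // AbGe q H} ≃
      {H : Subgroup (Perm (Fin n)) // AbQ q H} ⊕ {H : Subgroup (Perm (Fin n)) // AbGe q H ∧ ¬ AbQ q H} := by
    refine
      { toFun := fun H => if h : AbQ q H.1 then Sum.inl ⟨H.1, h⟩ else Sum.inr ⟨H.1, H.2, h⟩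
        invFun := fun x => Sum.elim (fun H => ⟨H.1, H.2.abGe hq⟩) (fun H => ⟨H.1, H.2.1⟩) x
        left_inv := ?_
        right_inv := ?_ }
    · intro H
      by_cases h : AbQ q H.1 <;> simp [h]
    · rintro (H | H)
      · simp [H.2]
      · simp [H.2.2]
  rw [Nat.card_congr e, Nat.card_sum]

theorem main (q : ℕ) (hq : q.Prime) :
    (∀ a : ℕ, Tendsto (fun n => dens q n (q ^ a)) atTop (𝓝 1)) ∧
    ∀ m : ℕ, (∀ a : ℕ, m ≠ q ^ a) → Tendsto (fun n => dens q n m) atTop (𝓝 0) := by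
  classical
  have hbad := bad_tendsto q hq
  obtain ⟨C3, hC3, h3⟩ := lowerN q hq
  have hq1 : (1 : ℝ) < q := by exact_mod_cast hq.one_lt
  have hβ : 0 < Real.log q / (4 * (q : ℝ) ^ 2) := by
    have := Real.log_pos hq1
    positivity
  have hTot : ∀ n : ℕ, (nQ q n : ℝ) ≤ (nGe q n : ℝ) := by
    intro n
    rw [nGe_eq q n hq]
    push_cast
    have : (0 : ℝ) ≤ (Nat.card {H : Subgroup (Perm (Fin n)) // AbGe q H ∧ ¬ AbQ q H} : ℝ) := by positivity
    linarith
  have hQpos : ∀ n : ℕ, (0 : ℝ) < (nQ q n : ℝ) := fun n => by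
    exact_mod_cast (Nat.lt_of_lt_of_le Nat.zero_lt_one (one_le_nQ q n))
  constructor
  · intro a
    have hsmall := small_tendsto (fun n => (nQ q n : ℝ)) _ C3 hβ h3 (q ^ a)
    -- the complement
    have hcomp : ∀ n : ℕ, 1 - dens q n (q ^ a) ≤
        (Nat.card {H : Subgroup (Perm (Fin n)) // AbGe q H ∧ ¬ AbQ q H} : ℝ) / (nQ q n : ℝ) +
        (n.factorial : ℝ) ^ (q ^ a) / (nQ q n : ℝ) := by
      intro n
      have hsplit : Nat.card {H : Subgroup (Perm (Fin n)) // AbGe q H} ≤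
          Nat.card {H : Subgroup (Perm (Fin n)) // AbGe q H ∧ q ^ a ∣ Nat.card H} +
          (Nat.card {H : Subgroup (Perm (Fin n)) // AbGe q H ∧ ¬ AbQ q H} +
            Nat.card {H : Subgroup (Perm (Fin n)) // Nat.card H ≤ q ^ a}) := by
        rw [← Nat.card_sum, ← Nat.card_sum]
        have : ∀ H : {H : Subgroup (Perm (Fin n)) // AbGe q H},
            ¬ (q ^ a ∣ Nat.card H.1) → AbQ q H.1 → Nat.card H.1 ≤ q ^ a := by
          rintro ⟨H, hH⟩ h1 ⟨_, k, hk⟩
          simp only at h1 hk ⊢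
          rw [hk] at h1 ⊢
          have : ¬ a ≤ k := fun h => h1 (pow_dvd_pow q h)
          exact Nat.pow_le_pow_right hq.pos (by omega)
        let F : {H : Subgroup (Perm (Fin n)) // AbGe q H} →
            {H : Subgroup (Perm (Fin n)) // AbGe q H ∧ q ^ a ∣ Nat.card H} ⊕
            ({H : Subgroup (Perm (Fin n)) // AbGe q H ∧ ¬ AbQ q H} ⊕
              {H : Subgroup (Perm (Fin n)) // Nat.card H ≤ q ^ a}) := fun H =>
          if h : q ^ a ∣ Nat.card H.1 then Sum.inl ⟨H.1, H.2, h⟩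
          else if h' : AbQ q H.1 then Sum.inr (Sum.inr ⟨H.1, this H h h'⟩)
          else Sum.inr (Sum.inl ⟨H.1, H.2, h'⟩)
        have hF : ∀ H, Sum.elim (fun x => x.1) (Sum.elim (fun x => x.1) (fun x => x.1)) (F H) = H.1 := by
          intro H
          by_cases h : q ^ a ∣ Nat.card H.1
          · simp only [F, dif_pos h, Sum.elim_inl]
          · by_cases h' : AbQ q H.1
            · simp only [F, dif_neg h, dif_pos h', Sum.elim_inr]
            · simp only [F, dif_neg h, dif_neg h', Sum.elim_inr, Sum.elim_inl]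
        refine Nat.card_le_card_of_injective F ?_
        intro H K hHK
        apply Subtype.ext
        rw [← hF H, ← hF K, hHK]
      have hsm := card_small_le n (q ^ a)
      have hsplit' : (nGe q n : ℝ) ≤
          (Nat.card {H : Subgroup (Perm (Fin n)) // AbGe q H ∧ q ^ a ∣ Nat.card H} : ℝ) +
          ((Nat.card {H : Subgroup (Perm (Fin n)) // AbGe q H ∧ ¬ AbQ q H} : ℝ) + (n.factorial : ℝ) ^ (q ^ a)) := by
        have : (Nat.card {H : Subgroup (Perm (Fin n)) // Nat.card H ≤ q ^ a} : ℝ) ≤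
            (n.factorial : ℝ) ^ (q ^ a) := by exact_mod_cast hsm
        have h' : (nGe q n : ℝ) ≤
          (Nat.card {H : Subgroup (Perm (Fin n)) // AbGe q H ∧ q ^ a ∣ Nat.card H} : ℝ) +
          ((Nat.card {H : Subgroup (Perm (Fin n)) // AbGe q H ∧ ¬ AbQ q H} : ℝ) +
            (Nat.card {H : Subgroup (Perm (Fin n)) // Nat.card H ≤ q ^ a} : ℝ)) := by
          unfold nGe
          exact_mod_cast hsplit
        linarith
      have hG : (0 : ℝ) < (nGe q n : ℝ) := (hQpos n).trans_le (hTot n)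
      have hd : dens q n (q ^ a) =
          (Nat.card {H : Subgroup (Perm (Fin n)) // AbGe q H ∧ q ^ a ∣ Nat.card H} : ℝ) / (nGe q n : ℝ) := rfl
      rw [hd]
      set X := (Nat.card {H : Subgroup (Perm (Fin n)) // AbGe q H ∧ q ^ a ∣ Nat.card H} : ℝ)
      set Y := (Nat.card {H : Subgroup (Perm (Fin n)) // AbGe q H ∧ ¬ AbQ q H} : ℝ)
      set Z := (n.factorial : ℝ) ^ (q ^ a)
      have hYZ : 0 ≤ Y + Z := by positivity
      have e1 : 1 - X / (nGe q n : ℝ) = ((nGe q n : ℝ) - X) / (nGe q n : ℝ) := by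
        field_simp
      rw [e1, ← add_div]
      calc ((nGe q n : ℝ) - X) / (nGe q n : ℝ) ≤ (Y + Z) / (nGe q n : ℝ) := by
            apply div_le_div_of_nonneg_right _ hG.le
            linarith
        _ ≤ (Y + Z) / (nQ q n : ℝ) := div_le_div_of_nonneg_left hYZ (hQpos n) (hTot n)
    have hle : ∀ n : ℕ, dens q n (q ^ a) ≤ 1 := by
      intro n
      have hG : (0 : ℝ) < (nGe q n : ℝ) := (hQpos n).trans_le (hTot n)
      change (Nat.card {H : Subgroup (Perm (Fin n)) // AbGe q H ∧ q ^ a ∣ Nat.card H} : ℝ) / (nGe q n : ℝ) ≤ 1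
      rw [div_le_one hG]
      unfold nGe
      exact_mod_cast Nat.card_le_card_of_injective
        (fun H : {H : Subgroup (Perm (Fin n)) // AbGe q H ∧ q ^ a ∣ Nat.card H} =>
          (⟨H.1, H.2.1⟩ : {H : Subgroup (Perm (Fin n)) // AbGe q H}))
        (fun H K h => Subtype.ext (congrArg (fun x => x.1) h))
    have h0 : Tendsto (fun n : ℕ => 1 - dens q n (q ^ a)) atTop (𝓝 0) := by
      have hs := hbad.add hsmall
      rw [add_zero] at hs
      exact squeeze_zero (fun n => by linarith [hle n]) hcomp hs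
    have := (tendsto_const_nhds (x := (1 : ℝ))).sub h0
    simpa using this
  · intro m hm
    refine squeeze_zero (fun n => by unfold dens; positivity) (fun n => ?_) hbad
    have hG : (0 : ℝ) < (nGe q n : ℝ) := (hQpos n).trans_le (hTot n)
    change (Nat.card {H : Subgroup (Perm (Fin n)) // AbGe q H ∧ m ∣ Nat.card H} : ℝ) / (nGe q n : ℝ) ≤ _
    have hle : (Nat.card {H : Subgroup (Perm (Fin n)) // AbGe q H ∧ m ∣ Nat.card H} : ℝ) ≤
        (Nat.card {H : Subgroup (Perm (Fin n)) // AbGe q H ∧ ¬ AbQ q H} : ℝ) := by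
      have hx : ∀ H : Subgroup (Perm (Fin n)), AbGe q H ∧ m ∣ Nat.card H → AbGe q H ∧ ¬ AbQ q H := by
        rintro H ⟨h1, h2⟩
        refine ⟨h1, ?_⟩
        rintro ⟨_, k, hk⟩
        rw [hk] at h2
        obtain ⟨j, _, hj⟩ := (Nat.dvd_prime_pow hq).1 h2
        exact hm j hj
      exact_mod_cast Nat.card_le_card_of_injective
        (fun H : {H : Subgroup (Perm (Fin n)) // AbGe q H ∧ m ∣ Nat.card H} =>
          (⟨H.1, hx H.1 H.2⟩ : {H : Subgroup (Perm (Fin n)) // AbGe q H ∧ ¬ AbQ q H}))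
        (fun H K h => Subtype.ext (congrArg (fun x => x.1) h))
    calc _ ≤ (Nat.card {H : Subgroup (Perm (Fin n)) // AbGe q H ∧ ¬ AbQ q H} : ℝ) / (nGe q n : ℝ) :=
          div_le_div_of_nonneg_right hle hG.le
      _ ≤ _ := div_le_div_of_nonneg_left (by positivity) (hQpos n) (hTot n)

/-- Almost all members of the family are `q`-groups. -/
theorem ratio_tendsto (q : ℕ) (hq : q.Prime) :
    Tendsto (fun n => (nQ q n : ℝ) / (nGe q n : ℝ)) atTop (𝓝 1) := by
  have hbad := bad_tendsto q hq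
  have hTot : ∀ n : ℕ, (nGe q n : ℝ) = (nQ q n : ℝ) +
      (Nat.card {H : Subgroup (Perm (Fin n)) // AbGe q H ∧ ¬ AbQ q H} : ℝ) := by
    intro n
    rw [nGe_eq q n hq]
    push_cast
    rfl
  have hQpos : ∀ n : ℕ, (0 : ℝ) < (nQ q n : ℝ) := fun n => by
    exact_mod_cast (Nat.lt_of_lt_of_le Nat.zero_lt_one (one_le_nQ q n))
  have h0 : Tendsto (fun n : ℕ => 1 - (nQ q n : ℝ) / (nGe q n : ℝ)) atTop (𝓝 0) := by
    refine squeeze_zero (fun n => ?_) (fun n => ?_) hbad
    · have hB : (0 : ℝ) ≤ (Nat.card {H : Subgroup (Perm (Fin n)) // AbGe q H ∧ ¬ AbQ q H} : ℝ) := by positivity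
      have hG : (0 : ℝ) < (nGe q n : ℝ) := by rw [hTot n]; linarith [hQpos n]
      rw [sub_nonneg, div_le_one hG, hTot n]
      linarith
    · have hB : (0 : ℝ) ≤ (Nat.card {H : Subgroup (Perm (Fin n)) // AbGe q H ∧ ¬ AbQ q H} : ℝ) := by positivity
      have hG : (0 : ℝ) < (nGe q n : ℝ) := by rw [hTot n]; linarith [hQpos n]
      have e : 1 - (nQ q n : ℝ) / (nGe q n : ℝ) =
          (Nat.card {H : Subgroup (Perm (Fin n)) // AbGe q H ∧ ¬ AbQ q H} : ℝ) / (nGe q n : ℝ) := by
        rw [eq_div_iff hG.ne', sub_mul, div_mul_cancel₀ _ hG.ne', hTot n]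
        ring
      rw [e]
      exact div_le_div_of_nonneg_left hB (hQpos n) (by rw [hTot n]; linarith)
  have := (tendsto_const_nhds (x := (1 : ℝ))).sub h0
  simpa using this

end Pool.Agent.AbS
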