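import Pool.Agent.AbS.SubB
import Pool.Agent.AbS.HatB
import Pool.Agent.AbS.HatC

/-!
The number of abelian subgroups of `S_n` of order `q ^ k`.
-/

set_option autoImplicit false

namespace Pool.Agent.AbS

open Equiv

/-- For a fixed group `hat H₀` there are few subgroups of order `q ^ k` with this hat. -/
private theorem fibre_le (q n k : ℕ) (hq : q.Prime) (A : Subgroup (Perm (Fin n))) :
    (Nat.card {H : Subgroup (Perm (Fin n)) // (AbQ q H ∧ Nat.card H = q ^ k) ∧ hat H = A} : ℝ) ≤
      Real.exp ((n : ℝ) / q * Real.log q + Real.log q * (((n : ℝ) / q + 1 - k) * k)) := by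
  classical
  by_cases hne : Nonempty {H : Subgroup (Perm (Fin n)) // (AbQ q H ∧ Nat.card H = q ^ k) ∧ hat H = A}
  swap
  · rw [not_nonempty_iff] at hne
    rw [Nat.card_of_isEmpty]
    push_cast
    positivity
  obtain ⟨⟨H0, ⟨h0, hk0⟩, hA⟩⟩ := hne
  subst hA
  have hAb : AbGe q (hat H0) := (h0.abGe hq).hat
  let _ : CommGroup (hat H0) :=
    { (inferInstance : Group (hat H0)) with
      mul_comm := fun a b => Subtype.ext (hAb.1 a.1 a.2 b.1 b.2) }
  have hdvd : q ^ k ∣ Nat.card (hat H0) := by
    rw [← hk0]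
    exact Subgroup.card_dvd_of_le (le_hat H0)
  have hle := nOrd_le q hq.two_le (hat H0) hAb.2 (q ^ k) hdvd
  have hinj : Nat.card {H : Subgroup (Perm (Fin n)) // (AbQ q H ∧ Nat.card H = q ^ k) ∧ hat H = hat H0} ≤
      nOrd (hat H0) (q ^ k) := by
    unfold nOrd
    refine Nat.card_le_card_of_injective (fun H => ⟨H.1.subgroupOf (hat H0), ?_⟩) ?_
    · have hHA : H.1 ≤ hat H0 := by
        have := le_hat H.1
        rwa [H.2.2] at this
      rw [Nat.card_congr (Subgroup.subgroupOfEquivOfLe hHA).toEquiv]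
      exact H.2.1.2
    · intro H K hHK
      apply Subtype.ext
      have hHA : H.1 ≤ hat H0 := by
        have := le_hat H.1
        rwa [H.2.2] at this
      have hKA : K.1 ≤ hat H0 := by
        have := le_hat K.1
        rwa [K.2.2] at this
      have e : H.1.subgroupOf (hat H0) = K.1.subgroupOf (hat H0) := congrArg (fun x => x.1) hHK
      rw [Subgroup.subgroupOf_inj, inf_eq_left.2 hHA, inf_eq_left.2 hKA] at e
      exact e
  have hq1 : (1 : ℝ) < q := by exact_mod_cast hq.one_lt
  have hlog : 0 < Real.log (q : ℝ) := Real.log_pos hq1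
  have hcard : Real.log (Nat.card (hat H0)) ≤ (n : ℝ) / q * Real.log q := by
    have := hat_card_le h0.1 (Real.log q / q) (log_orbit_q hq h0)
    rw [Nat.card_eq_fintype_card (α := Fin n), Fintype.card_fin] at this
    calc _ ≤ Real.log q / q * n := this
      _ = _ := by ring
  have hpos : (0 : ℝ) < Nat.card (hat H0) := by exact_mod_cast Nat.card_pos
  have e1 : (Nat.card (hat H0) : ℝ) ≤ Real.exp ((n : ℝ) / q * Real.log q) := by
    rw [← Real.exp_log hpos]
    exact Real.exp_le_exp.2 hcard
  have e2 : (Real.log q + Real.log (Nat.card (hat H0)) - Real.log ((q ^ k : ℕ) : ℝ)) *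
      Real.log ((q ^ k : ℕ) : ℝ) / Real.log q ≤ Real.log q * (((n : ℝ) / q + 1 - k) * k) := by
    have e3 : Real.log ((q ^ k : ℕ) : ℝ) = k * Real.log q := by
      push_cast
      rw [Real.log_pow]
    rw [e3]
    have e4 : (Real.log q + Real.log (Nat.card (hat H0)) - k * Real.log q) * (k * Real.log q) / Real.log q =
        (Real.log q + Real.log (Nat.card (hat H0)) - k * Real.log q) * k := by
      field_simp
    rw [e4]
    have hk : (0 : ℝ) ≤ k := Nat.cast_nonneg k
    calc (Real.log q + Real.log (Nat.card (hat H0)) - k * Real.log q) * k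
        ≤ (Real.log q + (n : ℝ) / q * Real.log q - k * Real.log q) * k := by gcongr
      _ = _ := by ring
  calc (Nat.card {H : Subgroup (Perm (Fin n)) // (AbQ q H ∧ Nat.card H = q ^ k) ∧ hat H = hat H0} : ℝ)
      ≤ nOrd (hat H0) (q ^ k) := by exact_mod_cast hinj
    _ ≤ _ := hle
    _ ≤ Real.exp ((n : ℝ) / q * Real.log q) * Real.exp (Real.log q * (((n : ℝ) / q + 1 - k) * k)) := by
        gcongr
    _ = _ := by rw [← Real.exp_add]

theorem count_order (q n k : ℕ) (hq : q.Prime) :
    (Nat.card {H : Subgroup (Perm (Fin n)) // AbQ q H ∧ Nat.card H = q ^ k} : ℝ) ≤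
      (n.factorial : ℝ) ^ (Nat.log 2 n + 1) *
        Real.exp ((n : ℝ) / q * Real.log q + Real.log q * (((n : ℝ) / q + 1 - k) * k)) := by
  classical
  set ℓ := Nat.log 2 n + 1 with hℓ
  have hex : ∀ H : {H : Subgroup (Perm (Fin n)) // AbQ q H ∧ Nat.card H = q ^ k},
      ∃ g : Fin ℓ → Perm (Fin n), hat H.1 = hat (Subgroup.closure (Set.range g)) := by
    rintro ⟨H, hH, _⟩
    obtain ⟨g, hg⟩ := exists_gen hH.1 ℓ (by
      rw [Nat.card_eq_fintype_card, Fintype.card_fin]
      exact Nat.lt_pow_succ_log_self (by norm_num) n)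
    exact ⟨g, hg.symm⟩
  choose g hg using hex
  have hinj : Nat.card {H : Subgroup (Perm (Fin n)) // AbQ q H ∧ Nat.card H = q ^ k} ≤
      Nat.card (Σ f : Fin ℓ → Perm (Fin n),
        {H : Subgroup (Perm (Fin n)) // (AbQ q H ∧ Nat.card H = q ^ k) ∧
          hat H = hat (Subgroup.closure (Set.range f))}) := by
    refine Nat.card_le_card_of_injective (fun H => ⟨g H, H.1, H.2, hg H⟩) ?_
    intro H K hHK
    apply Subtype.ext
    have := congrArg (fun x : (Σ f : Fin ℓ → Perm (Fin n),
        {H : Subgroup (Perm (Fin n)) // (AbQ q H ∧ Nat.card H = q ^ k) ∧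
          hat H = hat (Subgroup.closure (Set.range f))}) => x.2.1) hHK
    exact this
  rw [Nat.card_sigma] at hinj
  calc (Nat.card {H : Subgroup (Perm (Fin n)) // AbQ q H ∧ Nat.card H = q ^ k} : ℝ)
      ≤ ((∑ f : Fin ℓ → Perm (Fin n), Nat.card
        {H : Subgroup (Perm (Fin n)) // (AbQ q H ∧ Nat.card H = q ^ k) ∧
          hat H = hat (Subgroup.closure (Set.range f))} : ℕ) : ℝ) := by exact_mod_cast hinj
    _ = ∑ f : Fin ℓ → Perm (Fin n), (Nat.card
        {H : Subgroup (Perm (Fin n)) // (AbQ q H ∧ Nat.card H = q ^ k) ∧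
          hat H = hat (Subgroup.closure (Set.range f))} : ℝ) := by push_cast; rfl
    _ ≤ ∑ _f : Fin ℓ → Perm (Fin n),
        Real.exp ((n : ℝ) / q * Real.log q + Real.log q * (((n : ℝ) / q + 1 - k) * k)) :=
          Finset.sum_le_sum fun f _ => fibre_le q n k hq _
    _ = _ := by
      rw [Finset.sum_const, Finset.card_univ, Fintype.card_fun, Fintype.card_fin, Fintype.card_perm,
        Fintype.card_fin, nsmul_eq_mul]
      push_cast
      rfl

/-- The order of an abelian `q`-subgroup of `S_n` is at most `q ^ (n / q)`. -/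
theorem order_le {q n k : ℕ} (hq : q.Prime) {H : Subgroup (Perm (Fin n))} (h : AbQ q H)
    (hk : Nat.card H = q ^ k) : k ≤ n := by
  have hq1 : (1 : ℝ) < q := by exact_mod_cast hq.one_lt
  have hlog : 0 < Real.log (q : ℝ) := Real.log_pos hq1
  have h1 : Real.log (Nat.card H) ≤ Real.log (Nat.card (hat H)) := by
    apply Real.log_le_log (by exact_mod_cast Nat.card_pos)
    exact_mod_cast Subgroup.card_le_of_le (le_hat H)
  have h2 := hat_card_le h.1 (Real.log q / q) (log_orbit_q hq h)
  rw [Nat.card_eq_fintype_card (α := Fin n), Fintype.card_fin] at h2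
  rw [hk] at h1
  push_cast at h1
  rw [Real.log_pow] at h1
  have h3 : (k : ℝ) * Real.log q ≤ n * Real.log q := by
    calc (k : ℝ) * Real.log q ≤ Real.log q / q * n := h1.trans h2
      _ = n * (Real.log q / q) := by ring
      _ ≤ n * Real.log q := by
        gcongr
        exact div_le_self hlog.le hq1.le
  exact_mod_cast le_of_mul_le_mul_right h3 hlog

end Pool.Agent.AbS
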