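import Mathlib

/-!
Real analysis for the concentration of the orders.
-/

set_option autoImplicit false

namespace Pool.Agent.AbS

open Filter Topology

theorem order_ana (C β δ : ℝ) (hC : 0 ≤ C) (hβ : 0 < β) (hδ : 0 < δ) :
    Tendsto (fun n : ℕ => ((n : ℝ) + 1) * Real.exp (C * ((n : ℝ) + 1) * (1 + Real.log n) ^ 2 -
      β * (n : ℝ) ^ (1 + 2 * δ))) atTop (𝓝 0) := by
  have h1 : Tendsto (fun x : ℝ => (1 + Real.log x) / x ^ δ) atTop (𝓝 0) := by
    have a1 : Tendsto (fun x : ℝ => Real.log x / x ^ δ) atTop (𝓝 0) :=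
      (isLittleO_log_rpow_atTop hδ).tendsto_div_nhds_zero
    have a2 : Tendsto (fun x : ℝ => 1 / x ^ δ) atTop (𝓝 0) := by
      have := (tendsto_rpow_atTop hδ).inv_tendsto_atTop
      exact this.congr fun x => by simp
    have := a2.add a1
    simpa [add_div] using this
  have h1' : Tendsto (fun n : ℕ => (1 + Real.log (n : ℝ)) / (n : ℝ) ^ δ) atTop (𝓝 0) :=
    h1.comp tendsto_natCast_atTop_atTop
  have h2 : Tendsto (fun n : ℕ => ((n : ℝ) ^ δ)⁻¹ ) atTop (𝓝 0) :=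
    ((tendsto_rpow_atTop hδ).comp tendsto_natCast_atTop_atTop).inv_tendsto_atTop
  -- the bracket is eventually at most `- β / 2 * n ^ (2 δ)`
  have h3 : Tendsto (fun n : ℕ => ((n : ℝ) ^ δ)⁻¹ ^ 2 + 2 * C * ((1 + Real.log (n : ℝ)) / (n : ℝ) ^ δ) ^ 2)
      atTop (𝓝 0) := by
    have := (h2.pow 2).add ((h1'.pow 2).const_mul (2 * C))
    simpa using this
  have h4 : ∀ᶠ n : ℕ in atTop, ((n : ℝ) ^ δ)⁻¹ ^ 2 + 2 * C * ((1 + Real.log (n : ℝ)) / (n : ℝ) ^ δ) ^ 2 < β / 2 :=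
    h3.eventually_lt_const (by positivity)
  have h5 : ∀ᶠ n : ℕ in atTop, ((n : ℝ) + 1) * Real.exp (C * ((n : ℝ) + 1) * (1 + Real.log n) ^ 2 -
      β * (n : ℝ) ^ (1 + 2 * δ)) ≤ Real.exp (- (β / 2) * n) := by
    filter_upwards [h4, eventually_ge_atTop 1] with n hn hn1
    have hx : (1 : ℝ) ≤ n := by exact_mod_cast hn1
    have hx0 : (0 : ℝ) < n := by linarith
    have hp : (0 : ℝ) < (n : ℝ) ^ δ := Real.rpow_pos_of_pos hx0 _
    have e1 : (n : ℝ) ^ (1 + 2 * δ) = n * ((n : ℝ) ^ δ) ^ 2 := by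
      rw [Real.rpow_add hx0, Real.rpow_one, two_mul, Real.rpow_add hx0, sq]
    have e2 : ((n : ℝ) ^ δ)⁻¹ ^ 2 + 2 * C * ((1 + Real.log (n : ℝ)) / (n : ℝ) ^ δ) ^ 2 =
        (1 + 2 * C * (1 + Real.log n) ^ 2) / ((n : ℝ) ^ δ) ^ 2 := by
      field_simp
    rw [e2, div_lt_iff₀ (by positivity)] at hn
    have e3 : (n : ℝ) + 1 ≤ Real.exp n := Real.add_one_le_exp _
    have hlog : 0 ≤ Real.log (n : ℝ) := Real.log_nonneg hx
    calc ((n : ℝ) + 1) * Real.exp (C * ((n : ℝ) + 1) * (1 + Real.log n) ^ 2 - β * (n : ℝ) ^ (1 + 2 * δ))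
        ≤ Real.exp n * Real.exp (C * ((n : ℝ) + 1) * (1 + Real.log n) ^ 2 - β * (n : ℝ) ^ (1 + 2 * δ)) := by
          gcongr
      _ = Real.exp (n + (C * ((n : ℝ) + 1) * (1 + Real.log n) ^ 2 - β * (n : ℝ) ^ (1 + 2 * δ))) := by
          rw [← Real.exp_add]
      _ ≤ Real.exp (- (β / 2) * n) := by
          apply Real.exp_le_exp.2
          rw [e1]
          have b1 : C * ((n : ℝ) + 1) * (1 + Real.log n) ^ 2 ≤ C * (2 * n) * (1 + Real.log n) ^ 2 := by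
            gcongr
            linarith
          have b2 : n * (1 + 2 * C * (1 + Real.log n) ^ 2) ≤ n * (β / 2 * ((n : ℝ) ^ δ) ^ 2) := by
            gcongr
          have b3 : (1 : ℝ) ≤ ((n : ℝ) ^ δ) ^ 2 := one_le_pow₀ (Real.one_le_rpow hx hδ.le)
          nlinarith [mul_le_mul_of_nonneg_left b3 (by positivity : (0 : ℝ) ≤ β / 2 * n)]
  have h6 : Tendsto (fun n : ℕ => Real.exp (- (β / 2) * n)) atTop (𝓝 0) := by
    apply Real.tendsto_exp_atBot.comp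
    exact tendsto_natCast_atTop_atTop.const_mul_atTop_of_neg (by linarith)
  exact squeeze_zero' (Eventually.of_forall fun n => by positivity) h5 h6

end Pool.Agent.AbS
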