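import Pool.Agent.AbS.Main
import Pool.Agent.AbS.Order
import Pool.Agent.AbS.OrderAna

/-!
The orders of almost all abelian subgroups of `S_n` (without prime factors below `q`) are `q ^ k` with `k` close to
`n / (2 q)`.
-/

set_option autoImplicit false

namespace Pool.Agent.AbS

open Filter Topology Equiv

private theorem far_le (q n k : ℕ) (hq : q.Prime) (hn : 1 ≤ n) (hk : k ≤ n) (X : ℝ) (hX0 : 0 ≤ X)
    (hX : X < |(k : ℝ) - n / (2 * q)|) (C3 : ℝ) (hC3 : 0 ≤ C3)
    (h3 : Real.exp (Real.log q / (4 * (q : ℝ) ^ 2) * n ^ 2 - C3 * (n + 1)) ≤ (nQ q n : ℝ)) :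
    (Nat.card {H : Subgroup (Perm (Fin n)) // AbQ q H ∧ Nat.card H = q ^ k} : ℝ) / (nQ q n : ℝ) ≤
      Real.exp ((3 + 2 * Real.log q + C3) * ((n : ℝ) + 1) * (1 + Real.log n) ^ 2 - Real.log q * X ^ 2) := by
  have hq1 : (1 : ℝ) < q := by exact_mod_cast hq.one_lt
  have hq0 : (0 : ℝ) < q := by linarith
  have hlog : 0 < Real.log (q : ℝ) := Real.log_pos hq1
  have hx : (1 : ℝ) ≤ n := by exact_mod_cast hn
  have hL : 0 ≤ Real.log (n : ℝ) := Real.log_nonneg hx
  have hL2 : (1 : ℝ) ≤ (1 + Real.log n) ^ 2 := one_le_pow₀ (by linarith)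
  have hpos : (0 : ℝ) < (nQ q n : ℝ) := (Real.exp_pos _).trans_le h3
  have hkn : (k : ℝ) ≤ n := by exact_mod_cast hk
  have hX2 : X ^ 2 ≤ ((k : ℝ) - n / (2 * q)) ^ 2 := by
    rw [← sq_abs ((k : ℝ) - n / (2 * q))]
    gcongr
  have hid : ((n : ℝ) / q + 1 - k) * k =
      (n : ℝ) ^ 2 / (4 * (q : ℝ) ^ 2) - ((k : ℝ) - n / (2 * q)) ^ 2 + k := by
    field_simp
    ring
  have hnq : (n : ℝ) / q ≤ n := div_le_self (by linarith) hq1.le
  rw [div_le_iff₀ hpos]
  calc (Nat.card {H : Subgroup (Perm (Fin n)) // AbQ q H ∧ Nat.card H = q ^ k} : ℝ)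
      ≤ (n.factorial : ℝ) ^ (Nat.log 2 n + 1) *
        Real.exp ((n : ℝ) / q * Real.log q + Real.log q * (((n : ℝ) / q + 1 - k) * k)) := count_order q n k hq
    _ ≤ Real.exp (3 * n * (1 + Real.log n) ^ 2) *
        Real.exp ((n : ℝ) / q * Real.log q + Real.log q * (((n : ℝ) / q + 1 - k) * k)) := by
        gcongr
        exact log_fact n hn
    _ = Real.exp (3 * n * (1 + Real.log n) ^ 2 +
        ((n : ℝ) / q * Real.log q + Real.log q * (((n : ℝ) / q + 1 - k) * k))) := by rw [← Real.exp_add]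
    _ ≤ Real.exp (((3 + 2 * Real.log q + C3) * ((n : ℝ) + 1) * (1 + Real.log n) ^ 2 - Real.log q * X ^ 2) +
        (Real.log q / (4 * (q : ℝ) ^ 2) * n ^ 2 - C3 * (n + 1))) := by
        apply Real.exp_le_exp.2
        rw [hid]
        have a1 : (n : ℝ) / q * Real.log q ≤ n * Real.log q := by gcongr
        have a2 : Real.log q * ((n : ℝ) ^ 2 / (4 * (q : ℝ) ^ 2) - ((k : ℝ) - n / (2 * q)) ^ 2 + k) ≤
            Real.log q * ((n : ℝ) ^ 2 / (4 * (q : ℝ) ^ 2) - X ^ 2 + n) := by gcongr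
        have a3 : Real.log q * ((n : ℝ) ^ 2 / (4 * (q : ℝ) ^ 2) - X ^ 2 + n) =
            Real.log q / (4 * (q : ℝ) ^ 2) * n ^ 2 - Real.log q * X ^ 2 + Real.log q * n := by ring
        set M := (1 + Real.log (n : ℝ)) ^ 2 with hM
        have a4 : (2 * Real.log q + C3) * ((n : ℝ) + 1) * 1 ≤ (2 * Real.log q + C3) * ((n : ℝ) + 1) * M := by
          gcongr
        have a5 : 3 * (n : ℝ) * M ≤ 3 * ((n : ℝ) + 1) * M := by gcongr; linarith
        have a6 : (3 + 2 * Real.log q + C3) * ((n : ℝ) + 1) * M =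
            3 * ((n : ℝ) + 1) * M + (2 * Real.log q + C3) * ((n : ℝ) + 1) * M := by ring
        nlinarith
    _ = Real.exp ((3 + 2 * Real.log q + C3) * ((n : ℝ) + 1) * (1 + Real.log n) ^ 2 - Real.log q * X ^ 2) *
        Real.exp (Real.log q / (4 * (q : ℝ) ^ 2) * n ^ 2 - C3 * (n + 1)) := by rw [← Real.exp_add]
    _ ≤ _ := by gcongr

/-- The condition on the order. -/
def NearOrder (q n : ℕ) (δ : ℝ) (h : ℕ) : Prop :=
  ∃ k : ℕ, h = q ^ k ∧ |(k : ℝ) - n / (2 * q)| ≤ (n : ℝ) ^ (1 / 2 + δ)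

theorem order_tendsto (q : ℕ) (hq : q.Prime) (δ : ℝ) (hδ : 0 < δ) :
    Tendsto (fun n : ℕ => (Nat.card {H : Subgroup (Perm (Fin n)) // AbGe q H ∧ NearOrder q n δ (Nat.card H)} : ℝ) /
      (nGe q n : ℝ)) atTop (𝓝 1) := by
  classical
  have hbad := bad_tendsto q hq
  obtain ⟨C3, hC3, h3⟩ := lowerN q hq
  have hq1 : (1 : ℝ) < q := by exact_mod_cast hq.one_lt
  have hlog : 0 < Real.log (q : ℝ) := Real.log_pos hq1
  have hTot : ∀ n : ℕ, (nQ q n : ℝ) ≤ (nGe q n : ℝ) := by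
    intro n
    rw [nGe_eq q n hq]
    push_cast
    have : (0 : ℝ) ≤ (Nat.card {H : Subgroup (Perm (Fin n)) // AbGe q H ∧ ¬ AbQ q H} : ℝ) := by positivity
    linarith
  have hQpos : ∀ n : ℕ, (0 : ℝ) < (nQ q n : ℝ) := fun n => by
    exact_mod_cast (Nat.lt_of_lt_of_le Nat.zero_lt_one (one_le_nQ q n))
  have hana := order_ana (3 + 2 * Real.log q + C3) (Real.log q) δ (by positivity) hlog hδ
  have h0 : Tendsto (fun n : ℕ => 1 -
      (Nat.card {H : Subgroup (Perm (Fin n)) // AbGe q H ∧ NearOrder q n δ (Nat.card H)} : ℝ) /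
      (nGe q n : ℝ)) atTop (𝓝 0) := by
    have hs := hbad.add hana
    rw [add_zero] at hs
    refine squeeze_zero' (Eventually.of_forall fun n => ?_) ?_ hs
    · have hG : (0 : ℝ) < (nGe q n : ℝ) := (hQpos n).trans_le (hTot n)
      rw [sub_nonneg, div_le_one hG]
      unfold nGe
      exact_mod_cast Nat.card_le_card_of_injective
        (fun H : {H : Subgroup (Perm (Fin n)) // AbGe q H ∧ NearOrder q n δ (Nat.card H)} =>
          (⟨H.1, H.2.1⟩ : {H : Subgroup (Perm (Fin n)) // AbGe q H}))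
        (fun H K h => Subtype.ext (congrArg (fun x => x.1) h))
    filter_upwards [eventually_ge_atTop 1] with n hn
    have hx : (0 : ℝ) < n := by exact_mod_cast hn
    have hG : (0 : ℝ) < (nGe q n : ℝ) := (hQpos n).trans_le (hTot n)
    set X : ℝ := (n : ℝ) ^ (1 / 2 + δ) with hXdef
    have hX0 : 0 ≤ X := by positivity
    have hX2 : X ^ 2 = (n : ℝ) ^ (1 + 2 * δ) := by
      rw [hXdef, ← Real.rpow_natCast, ← Real.rpow_mul hx.le]
      congr 1
      push_cast
      ring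
    -- the far orders
    let T : Finset ℕ := (Finset.range (n + 1)).filter (fun k => X < |(k : ℝ) - n / (2 * q)|)
    have hsplit : Nat.card {H : Subgroup (Perm (Fin n)) // AbGe q H} ≤
        Nat.card {H : Subgroup (Perm (Fin n)) // AbGe q H ∧ NearOrder q n δ (Nat.card H)} +
        (Nat.card {H : Subgroup (Perm (Fin n)) // AbGe q H ∧ ¬ AbQ q H} +
          Nat.card (Σ k : T, {H : Subgroup (Perm (Fin n)) // AbQ q H ∧ Nat.card H = q ^ (k : ℕ)})) := by
      rw [← Nat.card_sum, ← Nat.card_sum]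
      have hfar : ∀ H : Subgroup (Perm (Fin n)), AbQ q H → ¬ NearOrder q n δ (Nat.card H) →
          ∃ k : T, Nat.card H = q ^ (k : ℕ) := by
        intro H hH hN
        obtain ⟨hc, k, hk⟩ := hH
        refine ⟨⟨k, ?_⟩, hk⟩
        rw [Finset.mem_filter, Finset.mem_range]
        refine ⟨Nat.lt_succ_of_le (order_le hq ⟨hc, k, hk⟩ hk), ?_⟩
        by_contra hcon
        exact hN ⟨k, hk, not_lt.1 hcon⟩
      choose κ hκ using hfar
      let F : {H : Subgroup (Perm (Fin n)) // AbGe q H} →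
          {H : Subgroup (Perm (Fin n)) // AbGe q H ∧ NearOrder q n δ (Nat.card H)} ⊕
          ({H : Subgroup (Perm (Fin n)) // AbGe q H ∧ ¬ AbQ q H} ⊕
            (Σ k : T, {H : Subgroup (Perm (Fin n)) // AbQ q H ∧ Nat.card H = q ^ (k : ℕ)})) := fun H =>
        if h : NearOrder q n δ (Nat.card H.1) then Sum.inl ⟨H.1, H.2, h⟩
        else if h' : AbQ q H.1 then Sum.inr (Sum.inr ⟨κ H.1 h' h, H.1, h', hκ H.1 h' h⟩)
        else Sum.inr (Sum.inl ⟨H.1, H.2, h'⟩)
      have hF : ∀ H, Sum.elim (fun x => x.1) (Sum.elim (fun x => x.1) (fun x => x.2.1)) (F H) = H.1 := by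
        intro H
        by_cases h : NearOrder q n δ (Nat.card H.1)
        · simp only [F, dif_pos h, Sum.elim_inl]
        · by_cases h' : AbQ q H.1
          · simp only [F, dif_neg h, dif_pos h', Sum.elim_inr]
          · simp only [F, dif_neg h, dif_neg h', Sum.elim_inr, Sum.elim_inl]
      refine Nat.card_le_card_of_injective F ?_
      intro H K hHK
      apply Subtype.ext
      rw [← hF H, ← hF K, hHK]
    rw [Nat.card_sigma] at hsplit
    have hfar : ((∑ k : T, Nat.card {H : Subgroup (Perm (Fin n)) // AbQ q H ∧ Nat.card H = q ^ (k : ℕ)} : ℕ) : ℝ) /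
        (nQ q n : ℝ) ≤ ((n : ℝ) + 1) * Real.exp ((3 + 2 * Real.log q + C3) * ((n : ℝ) + 1) * (1 + Real.log n) ^ 2 -
          Real.log q * (n : ℝ) ^ (1 + 2 * δ)) := by
      rw [← hX2]
      push_cast
      rw [Finset.sum_div]
      have hTc : (Fintype.card T : ℝ) ≤ (n : ℝ) + 1 := by
        rw [Fintype.card_coe]
        calc (T.card : ℝ) ≤ ((Finset.range (n + 1)).card : ℝ) := by
              exact_mod_cast Finset.card_le_card (Finset.filter_subset _ _)
          _ = (n : ℝ) + 1 := by rw [Finset.card_range]; push_cast; rfl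
      calc ∑ k : T, (Nat.card {H : Subgroup (Perm (Fin n)) // AbQ q H ∧ Nat.card H = q ^ (k : ℕ)} : ℝ) / (nQ q n : ℝ)
          ≤ ∑ _k : T, Real.exp ((3 + 2 * Real.log q + C3) * ((n : ℝ) + 1) * (1 + Real.log n) ^ 2 -
              Real.log q * X ^ 2) := by
            refine Finset.sum_le_sum fun k _ => ?_
            have hkT := Finset.mem_filter.1 k.2
            exact far_le q n k hq hn (Nat.lt_succ_iff.1 (Finset.mem_range.1 hkT.1)) X hX0 hkT.2 C3 hC3 (h3 n)
        _ = (Fintype.card T : ℝ) * Real.exp ((3 + 2 * Real.log q + C3) * ((n : ℝ) + 1) * (1 + Real.log n) ^ 2 -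
              Real.log q * X ^ 2) := by
            rw [Finset.sum_const, Finset.card_univ, nsmul_eq_mul]
        _ ≤ _ := by gcongr
    have hsplit' : (nGe q n : ℝ) ≤
        (Nat.card {H : Subgroup (Perm (Fin n)) // AbGe q H ∧ NearOrder q n δ (Nat.card H)} : ℝ) +
        ((Nat.card {H : Subgroup (Perm (Fin n)) // AbGe q H ∧ ¬ AbQ q H} : ℝ) +
          ((∑ k : T, Nat.card {H : Subgroup (Perm (Fin n)) // AbQ q H ∧ Nat.card H = q ^ (k : ℕ)} : ℕ) : ℝ)) := by
      unfold nGe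
      exact_mod_cast hsplit
    refine le_trans ?_ (add_le_add_right hfar _)
    set A := (Nat.card {H : Subgroup (Perm (Fin n)) // AbGe q H ∧ NearOrder q n δ (Nat.card H)} : ℝ)
    set Y := (Nat.card {H : Subgroup (Perm (Fin n)) // AbGe q H ∧ ¬ AbQ q H} : ℝ)
    set Z := ((∑ k : T, Nat.card {H : Subgroup (Perm (Fin n)) // AbQ q H ∧ Nat.card H = q ^ (k : ℕ)} : ℕ) : ℝ)
    have hYZ : 0 ≤ Y + Z := by positivity
    have e1 : 1 - A / (nGe q n : ℝ) = ((nGe q n : ℝ) - A) / (nGe q n : ℝ) := by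
      field_simp
    rw [e1, ← add_div]
    calc ((nGe q n : ℝ) - A) / (nGe q n : ℝ) ≤ (Y + Z) / (nGe q n : ℝ) := by
          apply div_le_div_of_nonneg_right _ hG.le
          linarith
      _ ≤ (Y + Z) / (nQ q n : ℝ) := div_le_div_of_nonneg_left hYZ (hQpos n) (hTot n)
  have := (tendsto_const_nhds (x := (1 : ℝ))).sub h0
  simpa using this

end Pool.Agent.AbS
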