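import Pool.Agent.AbS.Count
import Pool.Agent.AbS.Low
import Pool.Agent.AbS.GrowA
import Pool.Agent.AbS.GrowB

/-!
The hypotheses of `tail_tendsto` for `G = nGe (q + 1)`, `N = nQ q`.

`log_fact`: `log ((n !) ^ (Nat.log 2 n + 1)) ≤ 3 n (1 + log n) ^ 2`. `growth`: with `k = n / (8 q)` (natural number
division), `count_few`, `few_or_many` and `grow` give `N (n + q) ≥ q ^ k (N n - count_few)`, and
`count_few ≤ (n !) ^ ℓ exp (n ^ 2 log q / (8 q ^ 2)) ≤ N n / 2` for large `n` by `nQ_lower`.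
`alpha_lt`: `log (q + 1) / (4 (q + 1) ^ 2) < log q / (4 q ^ 2) * (1 - 1 / (q + 1) ^ 2)` is
`q log (q + 1) < (q + 2) log q`, and `q log (1 + 1 / q) ≤ 1 < 2 log 2 ≤ 2 log q`.
-/

set_option autoImplicit false

namespace Pool.Agent.AbS

open Filter Topology

theorem log_fact (n : ℕ) (hn : 1 ≤ n) :
    ((n.factorial : ℝ)) ^ (Nat.log 2 n + 1) ≤ Real.exp (3 * n * (1 + Real.log n) ^ 2) := by
  have hn0 : (0 : ℝ) < n := by exact_mod_cast hn
  have hl : 0 ≤ Real.log n := Real.log_nonneg (by exact_mod_cast hn)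
  have h1 : (n.factorial : ℝ) ≤ Real.exp (n * Real.log n) := by
    have h2 : (n.factorial : ℝ) ≤ (n : ℝ) ^ n := by exact_mod_cast Nat.factorial_le_pow n
    refine h2.trans (le_of_eq ?_)
    rw [Real.exp_nat_mul, Real.exp_log hn0]
  have h2 : (Nat.log 2 n : ℝ) * (1 / 3) ≤ Real.log n := by
    have h3 : (2 : ℝ) ^ (Nat.log 2 n) ≤ n := by
      exact_mod_cast Nat.pow_log_le_self 2 (by omega)
    have h4 := Real.log_le_log (by positivity) h3
    rw [Real.log_pow] at h4
    have h5 : (1 / 3 : ℝ) ≤ Real.log 2 := by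
      have := Real.log_two_gt_d9
      linarith
    exact (mul_le_mul_of_nonneg_left h5 (by positivity)).trans h4
  calc (n.factorial : ℝ) ^ (Nat.log 2 n + 1) ≤ (Real.exp (n * Real.log n)) ^ (Nat.log 2 n + 1) :=
        pow_le_pow_left₀ (by positivity) h1 _
    _ = Real.exp ((Nat.log 2 n + 1 : ℕ) * (n * Real.log n)) := (Real.exp_nat_mul _ _).symm
    _ ≤ Real.exp (3 * n * (1 + Real.log n) ^ 2) := by
        apply Real.exp_le_exp.2
        push_cast
        have h6 : (Nat.log 2 n : ℝ) + 1 ≤ 3 * (1 + Real.log n) := by linarith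
        calc ((Nat.log 2 n : ℝ) + 1) * (n * Real.log n) ≤ 3 * (1 + Real.log n) * (n * Real.log n) :=
              mul_le_mul_of_nonneg_right h6 (by positivity)
          _ ≤ 3 * (1 + Real.log n) * (n * (1 + Real.log n)) := by
              have : Real.log n ≤ 1 + Real.log n := by linarith
              gcongr
          _ = 3 * n * (1 + Real.log n) ^ 2 := by ring

theorem alpha_lt (q : ℕ) (hq : 2 ≤ q) : Real.log (q + 1) / (4 * (q + 1 : ℝ) ^ 2) <
    Real.log q / (4 * (q : ℝ) ^ 2) * (1 - 1 / (q + 1 : ℝ) ^ 2) := by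
  have hq0 : (0 : ℝ) < q := by
    have : 0 < q := by omega
    exact_mod_cast this
  have h2 : Real.log 2 ≤ Real.log q := Real.log_le_log (by norm_num) (by exact_mod_cast hq)
  have h3 := Real.log_two_gt_d9
  have h4 : Real.log (q + 1 : ℝ) ≤ Real.log q + 1 / q := by
    have h5 : (q + 1 : ℝ) = q * (1 + 1 / q) := by field_simp
    rw [h5, Real.log_mul hq0.ne' (by positivity)]
    have h6 := Real.log_le_sub_one_of_pos (show (0 : ℝ) < 1 + 1 / q by positivity)
    linarith
  have h5 : (q : ℝ) * Real.log (q + 1 : ℝ) < (q + 2) * Real.log q := by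
    have h6 := mul_le_mul_of_nonneg_left h4 hq0.le
    have h7 : (q : ℝ) * (Real.log q + 1 / q) = q * Real.log q + 1 := by field_simp
    rw [h7] at h6
    linarith
  have h6 : Real.log q / (4 * (q : ℝ) ^ 2) * (1 - 1 / (q + 1 : ℝ) ^ 2) =
      ((q + 2) * Real.log q) / (4 * q * (q + 1 : ℝ) ^ 2) := by
    field_simp
    ring
  have h7 : Real.log (q + 1 : ℝ) / (4 * (q + 1 : ℝ) ^ 2) =
      (q * Real.log (q + 1 : ℝ)) / (4 * q * (q + 1 : ℝ) ^ 2) := by
    field_simp
  rw [h6, h7]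
  exact div_lt_div_of_pos_right h5 (by positivity)

private theorem num_one_le {n : ℕ} (hn : 1 ≤ n) : (1 : ℝ) ≤ (1 + Real.log n) ^ 2 := by
  have hl : 0 ≤ Real.log n := Real.log_nonneg (by exact_mod_cast hn)
  nlinarith

private theorem num_upper {t : ℝ} (ht : 1 ≤ t) {m : ℕ} (hm : 1 ≤ m) {N : ℝ}
    (h : N ≤ (m.factorial : ℝ) ^ (Nat.log 2 m + 1) *
      Real.exp (2 * (m / t * Real.log t) + Real.log t * (m / t + 1) ^ 2 / 4)) :
    N ≤ Real.exp (Real.log t / (4 * t ^ 2) * m ^ 2 + (3 + 3 * Real.log t) * m * (1 + Real.log m) ^ 2) := by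
  have ht0 : 0 < t := by linarith
  have hl : 0 ≤ Real.log t := Real.log_nonneg ht
  have hm1 : (1 : ℝ) ≤ m := by exact_mod_cast hm
  have h1 := log_fact m hm
  refine h.trans ((mul_le_mul_of_nonneg_right h1 (Real.exp_pos _).le).trans ?_)
  rw [← Real.exp_add]
  apply Real.exp_le_exp.2
  have h2 := num_one_le hm
  have h3 : (m : ℝ) / t ≤ m := div_le_self (by positivity) ht
  have h4 : Real.log t * (m / t + 1) ^ 2 / 4 = Real.log t / (4 * t ^ 2) * m ^ 2 +
      Real.log t * (m / t) / 2 + Real.log t / 4 := by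
    field_simp
    ring
  rw [h4]
  have h5 : (m : ℝ) / t * Real.log t ≤ m * Real.log t := mul_le_mul_of_nonneg_right h3 hl
  have h6 : Real.log t ≤ m * Real.log t := by nlinarith
  have h7 : 3 * Real.log t * m ≤ 3 * Real.log t * m * (1 + Real.log m) ^ 2 :=
    le_mul_of_one_le_right (by positivity) h2
  nlinarith

theorem upperG (q : ℕ) (hq : q.Prime) : ∃ C : ℝ, 0 ≤ C ∧ ∀ m : ℕ, 1 ≤ m →
    (nGe (q + 1) m : ℝ) ≤ Real.exp (Real.log (q + 1) / (4 * (q + 1 : ℝ) ^ 2) * m ^ 2 +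
      C * m * (1 + Real.log m) ^ 2) := by
  have hq2 := hq.two_le
  have hq0 : (2 : ℝ) ≤ q := by exact_mod_cast hq2
  have ht : (1 : ℝ) ≤ (q : ℝ) + 1 := by linarith
  have hl : 0 ≤ Real.log ((q : ℝ) + 1) := Real.log_nonneg ht
  refine ⟨3 + 3 * Real.log ((q : ℝ) + 1), by positivity, fun m hm => ?_⟩
  have h := nGe_le (q + 1) m (by omega)
  push_cast at h
  exact num_upper ht hm h

theorem upperN (q : ℕ) (hq : q.Prime) : ∃ C : ℝ, 0 ≤ C ∧ ∀ n : ℕ, 1 ≤ n →
    (nQ q n : ℝ) ≤ Real.exp (Real.log q / (4 * (q : ℝ) ^ 2) * n ^ 2 + C * n * (1 + Real.log n) ^ 2) := by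
  have hq0 : (1 : ℝ) ≤ q := by exact_mod_cast hq.one_le
  have hl : 0 ≤ Real.log (q : ℝ) := Real.log_nonneg hq0
  exact ⟨3 + 3 * Real.log (q : ℝ), by positivity, fun n hn => num_upper hq0 hn (nQ_le q n hq)⟩

theorem lowerN (q : ℕ) (hq : q.Prime) : ∃ C : ℝ, 0 ≤ C ∧ ∀ n : ℕ,
    Real.exp (Real.log q / (4 * (q : ℝ) ^ 2) * n ^ 2 - C * (n + 1)) ≤ (nQ q n : ℝ) := by
  have hq1 : (1 : ℝ) ≤ q := by exact_mod_cast hq.one_le
  have hq0 : (0 : ℝ) < q := by linarith
  have hl : 0 ≤ Real.log (q : ℝ) := Real.log_nonneg hq1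
  refine ⟨Real.log q, hl, fun n => ?_⟩
  have h1 : ((q ^ ((n / q / 2) * (n / q - n / q / 2)) : ℕ) : ℝ) ≤ (nQ q n : ℝ) := by
    exact_mod_cast nQ_lower q n hq
  refine le_trans ?_ h1
  obtain ⟨r, hr⟩ : ∃ r, r = n / q := ⟨_, rfl⟩
  rw [← hr]
  obtain ⟨a, ha⟩ : ∃ a, a = r / 2 := ⟨_, rfl⟩
  obtain ⟨b, hb⟩ : ∃ b, b = r - a := ⟨_, rfl⟩
  rw [← ha, ← hb]
  have e1 : (Real.exp (Real.log q)) = q := Real.exp_log hq0
  have e2 : (((q ^ (a * b) : ℕ)) : ℝ) = Real.exp ((a * b : ℕ) * Real.log q) := by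
    rw [Real.exp_nat_mul, e1]
    push_cast
    rfl
  rw [e2]
  apply Real.exp_le_exp.2
  have hab : a + b = r := by omega
  have hba : b = a ∨ b = a + 1 := by omega
  have h4 : (r : ℝ) ^ 2 ≤ 4 * (a * b) + 1 := by
    have h5 : r ^ 2 ≤ 4 * (a * b) + 1 := by
      rcases hba with h | h <;> rw [← hab, h] <;> nlinarith
    exact_mod_cast h5
  have h6 : (n : ℝ) / q ≤ r + 1 := by
    rw [div_le_iff₀ hq0]
    have h7 : n < q * (r + 1) := by
      rw [hr]
      exact Nat.lt_mul_div_succ n hq.pos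
    have h8 : (n : ℝ) < q * (r + 1) := by exact_mod_cast h7
    linarith
  have h7 : ((n : ℝ) / q) ^ 2 - 2 * (n / q) ≤ r ^ 2 := by
    rcases le_total ((n : ℝ) / q) 1 with h | h
    · have h0 : 0 ≤ (n : ℝ) / q := by positivity
      nlinarith [sq_nonneg (r : ℝ)]
    · nlinarith
  have h8 : (n : ℝ) / q ≤ n := div_le_self (by positivity) hq1
  have h9 : Real.log q / (4 * (q : ℝ) ^ 2) * n ^ 2 = Real.log q * (((n : ℝ) / q) ^ 2 / 4) := by
    field_simp
  rw [h9]
  push_cast
  have h10 : ((n : ℝ) / q) ^ 2 / 4 - (n + 1) ≤ a * b := by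
    have : (0 : ℝ) ≤ n := by positivity
    linarith
  have h11 := mul_le_mul_of_nonneg_left h10 hl
  linarith

private theorem num_cover (q n k : ℕ) [Fact q.Prime] :
    nQ q n ≤ Nat.card {H : Subgroup (Equiv.Perm (Fin n)) // AbQ q H ∧
      q ^ k ≤ Nat.card (H →* Multiplicative (ZMod q))} +
      Nat.card {H : Subgroup (Equiv.Perm (Fin n)) // AbQ q H ∧
        ∃ f : Fin k → Equiv.Perm (Fin n), H = Subgroup.closure (Set.range f)} := by
  classical
  have key : ∀ H : Subgroup (Equiv.Perm (Fin n)), AbQ q H →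
      (∃ f : Fin k → Equiv.Perm (Fin n), H = Subgroup.closure (Set.range f)) ∨
      q ^ k ≤ Nat.card (H →* Multiplicative (ZMod q)) := by
    intro H hH
    let _i : CommGroup H := { H.toGroup with mul_comm := fun a b => Subtype.ext (hH.1 a a.2 b b.2) }
    rcases few_or_many q k H hH.2 with ⟨f, hf⟩ | h
    · left
      refine ⟨fun i => (f i : Equiv.Perm (Fin n)), ?_⟩
      have h1 : (Subgroup.closure (Set.range f)).map H.subtype =
          Subgroup.closure (Set.range fun i => (f i : Equiv.Perm (Fin n))) := by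
        rw [MonoidHom.map_closure, ← Set.range_comp]
        rfl
      rw [← h1]
      have h2 : Subgroup.closure (Set.range f) = ⊤ := hf
      rw [h2, ← MonoidHom.range_eq_map, Subgroup.range_subtype]
    · exact Or.inr h
  rw [← Nat.card_sum]
  unfold nQ
  refine Nat.card_le_card_of_injective (fun H : {H : Subgroup (Equiv.Perm (Fin n)) // AbQ q H} =>
    if h : q ^ k ≤ Nat.card (H.1 →* Multiplicative (ZMod q)) then Sum.inl ⟨H.1, H.2, h⟩
    else Sum.inr ⟨H.1, H.2, (key H.1 H.2).resolve_right h⟩) ?_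
  rintro ⟨H, hH⟩ ⟨H', hH'⟩ h
  simp only at h
  split_ifs at h
  · exact Subtype.ext (congrArg (fun x => x.1) (Sum.inl.inj h))
  · exact Subtype.ext (congrArg (fun x => x.1) (Sum.inr.inj h))

theorem growth (q : ℕ) (hq : q.Prime) : ∃ c : ℝ, 0 < c ∧
    ∀ᶠ n : ℕ in atTop, Real.exp (c * n) * (nQ q n : ℝ) ≤ (nQ q (n + q) : ℝ) := by
  have : Fact q.Prime := ⟨hq⟩
  obtain ⟨C, hC, hlow⟩ := lowerN q hq
  have hq2 : (2 : ℝ) ≤ q := by exact_mod_cast hq.two_le
  have hq0 : (0 : ℝ) < q := by linarith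
  have hl : 0 < Real.log (q : ℝ) := Real.log_pos (by linarith)
  obtain ⟨δ, hδ⟩ : ∃ δ : ℝ, δ = Real.log q / (8 * (q : ℝ) ^ 2) := ⟨_, rfl⟩
  have hδ0 : 0 < δ := by rw [hδ]; positivity
  refine ⟨Real.log q / (16 * q), by positivity, ?_⟩
  -- (log n) ^ 2 is small
  have hlit : ∀ᶠ n : ℕ in atTop, Real.log n ^ 2 ≤ δ / 12 * n := by
    have h1 := (Real.isLittleO_pow_log_id_atTop (n := 2)).def (show 0 < δ / 12 by positivity)
    have h2 := tendsto_natCast_atTop_atTop (R := ℝ) |>.eventually h1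
    filter_upwards [h2] with n hn
    simp only [id, norm_pow, Real.norm_eq_abs, sq_abs] at hn
    rwa [abs_of_nonneg (by positivity : (0 : ℝ) ≤ n)] at hn
  obtain ⟨N0, hN0⟩ := exists_nat_ge (2 * (7 + 2 * C) / δ)
  obtain ⟨N1, hN1⟩ := exists_nat_ge ((Real.log q + Real.log 2) * (16 * q) / Real.log q)
  filter_upwards [hlit, eventually_ge_atTop N0, eventually_ge_atTop N1, eventually_ge_atTop 1]
    with n h1 h2 h3 h4
  have hn1 : (1 : ℝ) ≤ n := by exact_mod_cast h4
  obtain ⟨k, hk⟩ : ∃ k, k = n / (8 * q) := ⟨_, rfl⟩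
  have hcov := num_cover q n k
  have hgr := grow q n k
  have hfew := count_few q n k hq
  obtain ⟨A, hA⟩ : ∃ A : ℕ, A = Nat.card {H : Subgroup (Equiv.Perm (Fin n)) // AbQ q H ∧
      q ^ k ≤ Nat.card (H →* Multiplicative (ZMod q))} := ⟨_, rfl⟩
  obtain ⟨B, hB⟩ : ∃ B : ℕ, B = Nat.card {H : Subgroup (Equiv.Perm (Fin n)) // AbQ q H ∧
        ∃ f : Fin k → Equiv.Perm (Fin n), H = Subgroup.closure (Set.range f)} := ⟨_, rfl⟩
  rw [← hA] at hcov hgr
  rw [← hB] at hcov hfew
  -- the few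
  have hkn : (k : ℝ) ≤ n / (8 * q) := by
    rw [hk]
    have := Nat.cast_div_le (α := ℝ) (m := n) (n := 8 * q)
    push_cast at this
    exact this
  have hkn' : (n : ℝ) / (8 * q) ≤ k + 1 := by
    rw [div_le_iff₀ (by positivity)]
    have h5 : n < (8 * q) * (n / (8 * q) + 1) := Nat.lt_mul_div_succ n (by have := hq.pos; omega)
    rw [← hk] at h5
    have h6 : (n : ℝ) < (8 * q) * (k + 1) := by exact_mod_cast h5
    linarith
  have hBle : (B : ℝ) ≤ (nQ q n : ℝ) / 2 := by
    rw [le_div_iff₀ (by norm_num)]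
    have h5 : (2 : ℝ) = Real.exp (Real.log 2) := (Real.exp_log (by norm_num)).symm
    refine le_trans ?_ (hlow n)
    calc (B : ℝ) * 2 ≤ ((n.factorial : ℝ) ^ (Nat.log 2 n + 1) *
          Real.exp (k * (n * Real.log q / q))) * 2 := mul_le_mul_of_nonneg_right hfew (by norm_num)
      _ ≤ (Real.exp (3 * n * (1 + Real.log n) ^ 2) * Real.exp (k * (n * Real.log q / q))) *
          Real.exp (Real.log 2) := by
          rw [← h5]
          have := log_fact n h4
          gcongr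
      _ = Real.exp (3 * n * (1 + Real.log n) ^ 2 + k * (n * Real.log q / q) + Real.log 2) := by
          rw [Real.exp_add, Real.exp_add]
      _ ≤ _ := by
          apply Real.exp_le_exp.2
          have e1 : (k : ℝ) * (n * Real.log q / q) ≤ δ * n ^ 2 := by
            have : (k : ℝ) * (n * Real.log q / q) ≤ n / (8 * q) * (n * Real.log q / q) := by gcongr
            refine this.trans (le_of_eq ?_)
            rw [hδ]
            field_simp
          have e2 : Real.log q / (4 * (q : ℝ) ^ 2) = 2 * δ := by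
            rw [hδ]
            field_simp
            norm_num
          rw [e2]
          have e3 : (1 + Real.log n) ^ 2 ≤ 2 + 2 * (δ / 12 * n) := by
            nlinarith [sq_nonneg (1 - Real.log n)]
          have e4 : 3 * (n : ℝ) * (1 + Real.log n) ^ 2 ≤ 6 * n + δ / 2 * n ^ 2 := by
            calc 3 * (n : ℝ) * (1 + Real.log n) ^ 2 ≤ 3 * n * (2 + 2 * (δ / 12 * n)) := by gcongr
              _ = 6 * n + δ / 2 * n ^ 2 := by ring
          have e5 : (7 + 2 * C) * n ≤ δ / 2 * (n : ℝ) ^ 2 := by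
            have h6 : 2 * (7 + 2 * C) / δ ≤ n := hN0.trans (by exact_mod_cast h2)
            rw [div_le_iff₀ hδ0] at h6
            nlinarith
          have e6 : Real.log 2 ≤ 1 := by
            have := Real.log_two_lt_d9
            linarith
          nlinarith
  -- conclusion
  have hAge : (nQ q n : ℝ) / 2 ≤ A := by
    have : (nQ q n : ℝ) ≤ A + B := by exact_mod_cast hcov
    linarith
  have hqk : Real.exp (Real.log q / (16 * q) * n) * 2 ≤ (q : ℝ) ^ k := by
    have h5 : Real.exp (Real.log q / (16 * q) * n) * 2 =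
        Real.exp (Real.log q / (16 * q) * n + Real.log 2) := by
      rw [Real.exp_add, Real.exp_log (by norm_num)]
    have h6 : (q : ℝ) ^ k = Real.exp (k * Real.log q) := by
      rw [Real.exp_nat_mul, Real.exp_log hq0]
    rw [h5, h6]
    apply Real.exp_le_exp.2
    have h7 : (Real.log q + Real.log 2) * (16 * q) / Real.log q ≤ n :=
      hN1.trans (by exact_mod_cast h3)
    rw [div_le_iff₀ hl] at h7
    have h8 : Real.log q + Real.log 2 ≤ Real.log q / (16 * q) * n := by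
      have h9 : Real.log q / (16 * q) * n = (n * Real.log q) / (16 * q) := by ring
      rw [h9, le_div_iff₀ (by positivity)]
      exact h7
    have h10 : (n / (8 * q) - 1) * Real.log q ≤ k * Real.log q :=
      mul_le_mul_of_nonneg_right (by linarith) hl.le
    have h11 : (n : ℝ) / (8 * q) * Real.log q = 2 * (Real.log q / (16 * q) * n) := by
      field_simp
      norm_num
    nlinarith
  have hfin : (q : ℝ) ^ k * A ≤ nQ q (n + q) := by exact_mod_cast hgr
  refine le_trans ?_ hfin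
  have h5 : (0 : ℝ) ≤ nQ q n := by positivity
  calc Real.exp (Real.log q / (16 * q) * n) * (nQ q n : ℝ) =
        (Real.exp (Real.log q / (16 * q) * n) * 2) * ((nQ q n : ℝ) / 2) := by ring
    _ ≤ (q : ℝ) ^ k * A := by gcongr

end Pool.Agent.AbS
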