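import Pool.Agent.AbS.Defs

/-!
The two parts of an abelian permutation group `H` all of whose prime factors are `≥ q`: `qPart q H` (elements of
`q`-power order) and `cPart q H` (elements of order prime to `q`), and an invariant transversal.

`exists_split`: let `D` be the set of the points moved by `cPart q H`. For every orbit of `H` fix a representative `b`
and let `T` be the set of the points of `D` of the form `h b`, `h ∈ qPart q H`, `W = D \ T`. Every orbit of `cPart q H`
in `D` meets `T` in exactly one point: `y = h u b` with `h ∈ qPart`, `u ∈ cPart` (see `exists_parts`), and if `k b = u h b`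
with `h, k ∈ qPart`, `u ∈ cPart` then `k⁻¹ h u` fixes `b`, hence so does its `q`-part `k⁻¹ h` (a power of it), so
`k b = h b`. The orbits of `cPart q H` in `D` have more than one point and their length divides its order, all of whose
prime factors are `> q`, so `(q + 1) |T| ≤ |D|`. `D`, `T`, `W` are invariant under `qPart q H`.
-/

set_option autoImplicit false

namespace Pool.Agent.AbS

open Equiv

/-- The elements of `q`-power order of an abelian group of permutations (as a subgroup: closure). -/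
def qPart (q : ℕ) {Ω : Type} (H : Subgroup (Perm Ω)) : Subgroup (Perm Ω) :=
  Subgroup.closure {h | h ∈ H ∧ ∃ j : ℕ, h ^ (q ^ j) = 1}

/-- The elements of order prime to `q` of an abelian group of permutations (as a subgroup: closure). -/
def cPart (q : ℕ) {Ω : Type} (H : Subgroup (Perm Ω)) : Subgroup (Perm Ω) :=
  Subgroup.closure {h | h ∈ H ∧ ∃ j : ℕ, j.Coprime q ∧ h ^ j = 1}

theorem mem_qPart {q : ℕ} {Ω : Type} {H : Subgroup (Perm Ω)} (hab : ∀ a ∈ H, ∀ b ∈ H, a * b = b * a) {h : Perm Ω} :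
    h ∈ qPart q H ↔ h ∈ H ∧ ∃ j : ℕ, h ^ (q ^ j) = 1 := by
  constructor
  · intro hh
    unfold qPart at hh
    induction hh using Subgroup.closure_induction with
    | mem x hx => exact hx
    | one => exact ⟨H.one_mem, 0, by simp⟩
    | mul x y _ _ hx hy =>
      obtain ⟨hx1, i, hi⟩ := hx
      obtain ⟨hy1, j, hj⟩ := hy
      refine ⟨H.mul_mem hx1 hy1, i + j, ?_⟩
      have hc : Commute x y := hab x hx1 y hy1
      rw [hc.mul_pow, pow_add, pow_mul, hi, one_pow, one_mul, mul_comm, pow_mul, hj, one_pow]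
    | inv x _ hx =>
      obtain ⟨hx1, i, hi⟩ := hx
      exact ⟨H.inv_mem hx1, i, by rw [inv_pow, hi, inv_one]⟩
  · intro hh
    exact Subgroup.subset_closure hh

theorem mem_cPart {q : ℕ} {Ω : Type} {H : Subgroup (Perm Ω)} (hab : ∀ a ∈ H, ∀ b ∈ H, a * b = b * a) {h : Perm Ω} :
    h ∈ cPart q H ↔ h ∈ H ∧ ∃ j : ℕ, j.Coprime q ∧ h ^ j = 1 := by
  constructor
  · intro hh
    unfold cPart at hh
    induction hh using Subgroup.closure_induction with
    | mem x hx => exact hx
    | one => exact ⟨H.one_mem, 1, Nat.coprime_one_left q, by simp⟩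
    | mul x y _ _ hx hy =>
      obtain ⟨hx1, i, hi0, hi⟩ := hx
      obtain ⟨hy1, j, hj0, hj⟩ := hy
      refine ⟨H.mul_mem hx1 hy1, i * j, Nat.Coprime.mul_left hi0 hj0, ?_⟩
      have hc : Commute x y := hab x hx1 y hy1
      rw [hc.mul_pow, pow_mul, hi, one_pow, one_mul, mul_comm, pow_mul, hj, one_pow]
    | inv x _ hx =>
      obtain ⟨hx1, i, hi0, hi⟩ := hx
      exact ⟨H.inv_mem hx1, i, hi0, by rw [inv_pow, hi, inv_one]⟩
  · intro hh
    exact Subgroup.subset_closure hh

/-- Every element is a product of a power of it lying in `qPart` and a power of it lying in `cPart`. -/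
theorem exists_parts {q : ℕ} (hq : q.Prime) {Ω : Type} [Finite Ω] {H : Subgroup (Perm Ω)}
    (hab : ∀ a ∈ H, ∀ b ∈ H, a * b = b * a) {h : Perm Ω} (hh : h ∈ H) :
    ∃ i j : ℕ, h ^ i ∈ qPart q H ∧ h ^ j ∈ cPart q H ∧ h = h ^ i * h ^ j := by
  have hN : orderOf h ≠ 0 := (orderOf_pos h).ne'
  obtain ⟨a, m, hm, hNm⟩ := Nat.exists_eq_pow_mul_and_not_dvd hN q hq.ne_one
  have hmq : m.Coprime q := ((Nat.Prime.coprime_iff_not_dvd hq).2 hm).symm
  have hco : (q ^ a).Coprime m := (hmq.pow_right a).symm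
  obtain ⟨i, hi1, hi2⟩ := Nat.chineseRemainder hco 1 0
  obtain ⟨j, hj1, hj2⟩ := Nat.chineseRemainder hco 0 1
  have him : m ∣ i := (Nat.modEq_zero_iff_dvd).1 hi2
  have hjq : q ^ a ∣ j := (Nat.modEq_zero_iff_dvd).1 hj1
  refine ⟨i, j, ?_, ?_, ?_⟩
  · refine (mem_qPart hab).2 ⟨H.pow_mem hh i, a, ?_⟩
    rw [← pow_mul]
    apply orderOf_dvd_iff_pow_eq_one.1
    rw [hNm, mul_comm i]
    exact Nat.mul_dvd_mul_left _ him
  · refine (mem_cPart hab).2 ⟨H.pow_mem hh j, m, hmq, ?_⟩
    rw [← pow_mul]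
    apply orderOf_dvd_iff_pow_eq_one.1
    rw [hNm]
    exact Nat.mul_dvd_mul_right hjq _
  · have h1 : i + j ≡ 1 [MOD orderOf h] := by
      rw [hNm]
      refine (Nat.modEq_and_modEq_iff_modEq_mul hco).1 ⟨?_, ?_⟩
      · simpa using hi1.add hj1
      · simpa using hi2.add hj2
    rw [← pow_add, (pow_eq_pow_iff_modEq).2 h1, pow_one]

theorem sup_parts {q : ℕ} (hq : q.Prime) {Ω : Type} [Finite Ω] {H : Subgroup (Perm Ω)}
    (hab : ∀ a ∈ H, ∀ b ∈ H, a * b = b * a) : qPart q H ⊔ cPart q H = H := by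
  apply le_antisymm
  · apply sup_le
    · intro h hh
      exact ((mem_qPart hab).1 hh).1
    · intro h hh
      exact ((mem_cPart hab).1 hh).1
  · intro h hh
    obtain ⟨i, j, hi, hj, he⟩ := exists_parts hq hab hh
    rw [he]
    exact Subgroup.mul_mem_sup hi hj

theorem qPart_abQ {q : ℕ} (hq : q.Prime) {Ω : Type} [Finite Ω] {H : Subgroup (Perm Ω)}
    (hab : ∀ a ∈ H, ∀ b ∈ H, a * b = b * a) : AbQ q (qPart q H) := by
  have := Fact.mk hq
  refine ⟨fun a ha b hb => hab a ((mem_qPart hab).1 ha).1 b ((mem_qPart hab).1 hb).1, ?_⟩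
  have hp : IsPGroup q (qPart q H) := by
    rintro ⟨g, hg⟩
    obtain ⟨_, j, hj⟩ := (mem_qPart hab).1 hg
    exact ⟨j, Subtype.ext (by simpa using hj)⟩
  exact (IsPGroup.iff_card).1 hp

theorem cPart_abGe {q : ℕ} (hq : q.Prime) {Ω : Type} [Finite Ω] {H : Subgroup (Perm Ω)} (h : AbGe q H) :
    AbGe (q + 1) (cPart q H) := by
  obtain ⟨hab, hp⟩ := h
  refine ⟨fun a ha b hb => hab a ((mem_cPart hab).1 ha).1 b ((mem_cPart hab).1 hb).1, ?_⟩
  intro p hpp hpd
  have := Fact.mk hpp
  obtain ⟨⟨u, hu⟩, huo⟩ := exists_prime_orderOf_dvd_card' (G := cPart q H) p hpd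
  obtain ⟨huH, j, hj, hj1⟩ := (mem_cPart hab).1 hu
  have huo' : orderOf u = p := by
    rw [← huo]
    exact (Subgroup.orderOf_mk u hu).symm
  have h1 : q ≤ p := by
    apply hp p hpp
    rw [← huo', ← Subgroup.orderOf_mk u huH]
    exact orderOf_dvd_natCard _
  have h2 : p ≠ q := by
    rintro rfl
    have h3 : p ∣ j := by
      rw [← huo']
      exact orderOf_dvd_of_pow_eq_one hj1
    exact hpp.one_lt.ne' (Nat.dvd_one.1 (hj ▸ Nat.dvd_gcd h3 dvd_rfl))
  omega

/-- If `H` is not a `q`-group then `cPart q H` moves some point. -/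
theorem cPart_moves {q : ℕ} (hq : q.Prime) {Ω : Type} [Finite Ω] {H : Subgroup (Perm Ω)} (h : AbGe q H)
    (hn : ¬ AbQ q H) : ∃ u ∈ cPart q H, ∃ x : Ω, u x ≠ x := by
  by_contra hcon
  push Not at hcon
  have h1 : cPart q H = ⊥ := by
    rw [Subgroup.eq_bot_iff_forall]
    intro u hu
    ext x
    simpa using hcon u hu x
  have h2 : qPart q H = H := by
    have := sup_parts hq h.1
    rwa [h1, sup_bot_eq] at this
  exact hn (h2 ▸ qPart_abQ hq h.1)

/-- Uniqueness: two points of a common orbit of `cPart` reached from the same point by `qPart` agree. -/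
theorem same_of_parts {q : ℕ} {Ω : Type} {H : Subgroup (Perm Ω)}
    (hab : ∀ a ∈ H, ∀ b ∈ H, a * b = b * a) {h k u : Perm Ω} {b : Ω} (hh : h ∈ qPart q H)
    (hk : k ∈ qPart q H) (hu : u ∈ cPart q H) (he : k b = u (h b)) : k b = h b := by
  obtain ⟨huH, m, hm, hum⟩ := (mem_cPart hab).1 hu
  have hhH := ((mem_qPart hab).1 hh).1
  have hkH := ((mem_qPart hab).1 hk).1
  have hp : k⁻¹ * h ∈ qPart q H := Subgroup.mul_mem _ (Subgroup.inv_mem _ hk) hh
  obtain ⟨hpH, a, ha⟩ := (mem_qPart hab).1 hp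
  obtain ⟨i, hi1, hi2⟩ := Nat.chineseRemainder ((hm.pow_right a).symm) 1 0
  have hfix : (k⁻¹ * h * u) b = b := by
    have h1 : k⁻¹ * h * u = k⁻¹ * (u * h) := by
      rw [mul_assoc, hab h hhH u huH]
    rw [h1, Perm.mul_apply, Perm.mul_apply, ← he]
    simp
  have hpow : ∀ j : ℕ, ((k⁻¹ * h * u) ^ j) b = b := by
    intro j
    induction j with
    | zero => simp
    | succ j ih => rw [pow_succ, Perm.mul_apply, hfix, ih]
  have hc : Commute (k⁻¹ * h) u := hab _ hpH _ huH
  have h2 : (k⁻¹ * h * u) ^ i = k⁻¹ * h := by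
    rw [hc.mul_pow]
    have e1 : u ^ i = 1 := by
      obtain ⟨c, hc'⟩ := (Nat.modEq_zero_iff_dvd).1 hi2
      rw [hc', pow_mul, hum, one_pow]
    have e2 : (k⁻¹ * h) ^ i = k⁻¹ * h := by
      have h3 : i ≡ 1 [MOD orderOf (k⁻¹ * h)] :=
        hi1.of_dvd (orderOf_dvd_of_pow_eq_one ha)
      rw [(pow_eq_pow_iff_modEq).2 h3, pow_one]
    rw [e1, e2, mul_one]
  have h4 := hpow i
  rw [h2, Perm.mul_apply] at h4
  have h5 := congrArg k h4
  have h6 : k (k⁻¹ (h b)) = h b := by simp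
  exact (h6.symm.trans h5).symm

theorem exists_split {q n : ℕ} (hq : q.Prime) {H : Subgroup (Perm (Fin n))} (h : AbGe q H) (hn : ¬ AbQ q H) :
    ∃ D W : Finset (Fin n), W ⊆ D ∧ D.Nonempty ∧ (q + 1) * (D.card - W.card) ≤ D.card ∧ q + 1 ≤ D.card ∧
      (∀ u ∈ cPart q H, ∀ x, x ∉ D → u x = x) ∧
      (∀ x ∈ D, ∃ u ∈ cPart q H, ∃ y, y ∉ W ∧ x = u y) ∧
      (∀ v ∈ qPart q H, ∀ x, x ∈ W ↔ v x ∈ W) := by
  classical
  have hab := h.1
  have hC := cPart_abGe hq h
  -- representatives of the orbits of `H`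
  have hrep : ∃ rep : Fin n → Fin n, (∀ x, ∃ k ∈ H, k (rep x) = x) ∧
      (∀ k ∈ H, ∀ x, rep (k x) = rep x) := by
    let r : Fin n → Fin n := fun x =>
      Quotient.out (Quotient.mk (MulAction.orbitRel H (Fin n)) x)
    refine ⟨r, ?_, ?_⟩
    · intro x
      have h1 : (MulAction.orbitRel H (Fin n)) (r x) x := Quotient.exact (Quotient.out_eq _)
      rw [MulAction.orbitRel_apply] at h1
      obtain ⟨⟨k, hk⟩, hkx⟩ := h1
      refine ⟨k⁻¹, H.inv_mem hk, ?_⟩
      rw [Perm.inv_eq_iff_eq]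
      simpa [Subgroup.smul_def] using hkx.symm
    · intro k hk x
      have h1 : Quotient.mk (MulAction.orbitRel H (Fin n)) (k x) =
          Quotient.mk (MulAction.orbitRel H (Fin n)) x := by
        apply Quotient.sound
        change (MulAction.orbitRel H (Fin n)) (k x) x
        rw [MulAction.orbitRel_apply]
        exact ⟨⟨k, hk⟩, rfl⟩
      change Quotient.out _ = Quotient.out _
      rw [h1]
  obtain ⟨rep, hr1, hr2⟩ := hrep
  have hPH : ∀ v ∈ qPart q H, v ∈ H := fun v hv => ((mem_qPart hab).1 hv).1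
  have hCH : ∀ v ∈ cPart q H, v ∈ H := fun v hv => ((mem_cPart hab).1 hv).1
  set D : Finset (Fin n) := Finset.univ.filter (fun x => ∃ u ∈ cPart q H, u x ≠ x) with hD
  set W : Finset (Fin n) := D.filter (fun x => ¬ ∃ g ∈ qPart q H, g (rep x) = x) with hW
  have memD : ∀ x, x ∈ D ↔ ∃ u ∈ cPart q H, u x ≠ x := by
    intro x
    simp [hD]
  have memW : ∀ x, x ∈ W ↔ x ∈ D ∧ ¬ ∃ g ∈ qPart q H, g (rep x) = x := by
    intro x
    simp [hW]
  have Dinv : ∀ k ∈ H, ∀ x, x ∈ D → k x ∈ D := by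
    intro k hk x hx
    obtain ⟨u, hu, hux⟩ := (memD x).1 hx
    refine (memD _).2 ⟨u, hu, fun h1 => hux ?_⟩
    have h2 : (u * k) x = k x := h1
    rw [hab u (hCH u hu) k hk, Perm.mul_apply] at h2
    exact k.injective h2
  have Dinv' : ∀ k ∈ H, ∀ x, x ∈ D ↔ k x ∈ D := by
    intro k hk x
    refine ⟨Dinv k hk x, fun h1 => ?_⟩
    have := Dinv k⁻¹ (H.inv_mem hk) _ h1
    simpa using this
  have Winv : ∀ v ∈ qPart q H, ∀ x, (∃ g ∈ qPart q H, g (rep x) = x) →
      ∃ g ∈ qPart q H, g (rep (v x)) = v x := by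
    rintro v hv x ⟨g, hg, hgx⟩
    refine ⟨v * g, Subgroup.mul_mem _ hv hg, ?_⟩
    rw [hr2 v (hPH v hv), Perm.mul_apply, hgx]
  -- the orbits of `cPart`
  have horb : ∀ x ∈ D, q + 1 ≤ (MulAction.orbit (cPart q H) x).ncard := by
    intro x hx
    obtain ⟨u, hu, hux⟩ := (memD x).1 hx
    have hne : (MulAction.orbit (cPart q H) x).ncard ≠ 1 := by
      intro h1
      obtain ⟨y, hy⟩ := Set.ncard_eq_one.1 h1
      have e1 : x ∈ MulAction.orbit (cPart q H) x := MulAction.mem_orbit_self x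
      have e2 : u x ∈ MulAction.orbit (cPart q H) x := ⟨⟨u, hu⟩, rfl⟩
      rw [hy, Set.mem_singleton_iff] at e1 e2
      exact hux (e2.trans e1.symm)
    have hpos : (MulAction.orbit (cPart q H) x).ncard ≠ 0 := by
      intro h0
      have h1 := (Set.ncard_eq_zero (Set.toFinite _)).1 h0
      have h2 : x ∈ MulAction.orbit (cPart q H) x := MulAction.mem_orbit_self x
      rw [h1] at h2
      exact h2
    have hdvd : (MulAction.orbit (cPart q H) x).ncard ∣ Nat.card (cPart q H) := by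
      rw [← MulAction.index_stabilizer]
      exact Subgroup.index_dvd_card _
    have h2 := hC.2 _ (Nat.minFac_prime hne) ((Nat.minFac_dvd _).trans hdvd)
    exact h2.trans (Nat.minFac_le (Nat.pos_of_ne_zero hpos))
  set T : Finset (Fin n) := D \ W with hT
  have memT : ∀ x, x ∈ T ↔ x ∈ D ∧ ∃ g ∈ qPart q H, g (rep x) = x := by
    intro x
    rw [hT, Finset.mem_sdiff, memW]
    constructor
    · rintro ⟨h1, h2⟩
      refine ⟨h1, ?_⟩
      by_contra h3
      exact h2 ⟨h1, h3⟩
    · rintro ⟨h1, h2⟩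
      exact ⟨h1, fun h3 => h3.2 h2⟩
  have hWD : W ⊆ D := Finset.filter_subset _ _
  have hTc : T.card = D.card - W.card := by
    rw [hT, Finset.card_sdiff_of_subset hWD]
  let O : Fin n → Finset (Fin n) := fun x => Finset.univ.filter (fun y => y ∈ MulAction.orbit (cPart q H) x)
  have hOc : ∀ x, (O x).card = (MulAction.orbit (cPart q H) x).ncard := by
    intro x
    rw [← Set.ncard_coe_finset]
    congr 1
    ext y
    simp [O]
  have hOD : ∀ x ∈ D, O x ⊆ D := by
    intro x hx y hy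
    have hy' : y ∈ MulAction.orbit (cPart q H) x := by simpa [O] using hy
    obtain ⟨⟨u, hu⟩, rfl⟩ := hy'
    exact Dinv u (hCH u hu) x hx
  have hne : D.Nonempty := by
    obtain ⟨u, hu, x, hx⟩ := cPart_moves hq h hn
    exact ⟨x, (memD x).2 ⟨u, hu, hx⟩⟩
  refine ⟨D, W, hWD, hne, ?_, ?_, ?_, ?_, ?_⟩
  · rw [← hTc]
    have hdisj : ∀ x ∈ T, ∀ y ∈ T, x ≠ y → Disjoint (O x) (O y) := by
      intro x hx y hy hxy
      rw [Finset.disjoint_left]
      intro z hzx hzy
      have hzx' : z ∈ MulAction.orbit (cPart q H) x := by simpa [O] using hzx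
      have hzy' : z ∈ MulAction.orbit (cPart q H) y := by simpa [O] using hzy
      obtain ⟨⟨u, hu⟩, hux⟩ := hzx'
      obtain ⟨⟨v, hv⟩, hvy⟩ := hzy'
      have e1 : u x = v y := by
        have : u x = z := hux
        rw [this]
        exact hvy.symm
      have e2 : x = (u⁻¹ * v) y := by
        rw [Perm.mul_apply, ← e1]
        simp
      have e3 : u⁻¹ * v ∈ cPart q H := Subgroup.mul_mem _ (Subgroup.inv_mem _ hu) hv
      obtain ⟨_, g, hg, hgx⟩ := (memT x).1 hx
      obtain ⟨_, g', hg', hgy⟩ := (memT y).1 hy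
      have e4 : rep x = rep y := by
        rw [e2, hr2 _ (hCH _ e3)]
      rw [e4] at hgx
      have key : g (rep y) = g' (rep y) :=
        same_of_parts hab hg' hg e3 (by rw [hgx, hgy]; exact e2)
      rw [hgx, hgy] at key
      exact hxy key
    have h1 : (T.biUnion O).card = ∑ x ∈ T, (O x).card := Finset.card_biUnion hdisj
    have h2 : T.biUnion O ⊆ D := by
      intro z hz
      obtain ⟨x, hx, hzx⟩ := Finset.mem_biUnion.1 hz
      exact hOD x ((memT x).1 hx).1 hzx
    have h3 : T.card * (q + 1) ≤ ∑ x ∈ T, (O x).card := by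
      have := Finset.card_nsmul_le_sum T (fun x => (O x).card) (q + 1)
        (fun x hx => by rw [hOc]; exact horb x ((memT x).1 hx).1)
      simpa using this
    rw [mul_comm]
    exact h3.trans (h1 ▸ Finset.card_le_card h2)
  · obtain ⟨x, hx⟩ := hne
    have h1 := horb x hx
    rw [← hOc] at h1
    exact h1.trans (Finset.card_le_card (hOD x hx))
  · intro u hu x hx
    by_contra h1
    exact hx ((memD x).2 ⟨u, hu, h1⟩)
  · intro x hx
    obtain ⟨k, hk, hkx⟩ := hr1 x
    obtain ⟨i, j, hi, hj, he⟩ := exists_parts hq hab hk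
    refine ⟨k ^ j, hj, (k ^ i) (rep x), ?_, ?_⟩
    · intro hy
      apply ((memW _).1 hy).2
      have hrr : rep (rep x) = rep x := by
        have h1 := hr2 k hk (rep x)
        rw [hkx] at h1
        exact h1.symm
      exact ⟨k ^ i, hi, by rw [hr2 _ (hPH _ hi), hrr]⟩
    · rw [← Perm.mul_apply, ← pow_add, add_comm, pow_add, ← he, hkx]
  · intro v hv x
    rw [memW, memW, ← Dinv' v (hPH v hv) x]
    refine and_congr_right fun _ => not_congr ⟨Winv v hv x, fun h1 => ?_⟩
    have := Winv v⁻¹ (Subgroup.inv_mem _ hv) (v x) h1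
    simpa using this

end Pool.Agent.AbS
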