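import Pool.Agent.AbS.Defs

/-!
Subgroups of a finite abelian group `A`: passing to a subgroup `B` of prime index `p`.

Proof of `nOrd_step`: the subgroups `H ≤ B` are counted by `nOrd B h` (`Subgroup.map B.subtype` /
`Subgroup.subgroupOf`). If `H` is not contained in `B` then `H ⊔ B = ⊤`, `K = H ⊓ B` has index `p` in `H`, so `p ∣ h`
and `|K| = h / p`; for `x ∈ H`, `x ∉ B`, `H = K ⊔ zpowers x` (`K` has prime index in `H`), so `H` is determined by `K`
and the coset of `x` in `A ⧸ K`: at most `|A| / |K| = |A| p / h` subgroups `H` for each `K`.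
-/

set_option autoImplicit false

namespace Pool.Agent.AbS

theorem exists_index_prime (A : Type) [CommGroup A] [Finite A] (h1 : 1 < Nat.card A) :
    ∃ B : Subgroup A, B.index.Prime := by
  have : Nontrivial A := Finite.one_lt_card_iff_nontrivial.1 h1
  obtain ⟨B, hB, -⟩ := (eq_top_or_exists_le_coatom (⊥ : Subgroup A)).resolve_left bot_ne_top
  refine ⟨B, ?_⟩
  have : Nontrivial (A ⧸ B) := by
    rw [← not_subsingleton_iff_nontrivial]
    intro hs
    exact hB.1 (QuotientGroup.subgroup_eq_top_of_subsingleton B hs)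
  have : IsSimpleGroup (A ⧸ B) := by
    refine ⟨fun H _ => ?_⟩
    have h2 : B ≤ H.comap (QuotientGroup.mk' B) := by
      intro b hb
      rw [Subgroup.mem_comap]
      have : QuotientGroup.mk' B b = 1 := (QuotientGroup.eq_one_iff b).2 hb
      rw [this]
      exact H.one_mem
    have h3 : (H.comap (QuotientGroup.mk' B)).map (QuotientGroup.mk' B) = H :=
      Subgroup.map_comap_eq_self_of_surjective (QuotientGroup.mk'_surjective B) H
    rcases h2.eq_or_lt with h4 | h4
    · left
      rw [← h3, ← h4]
      ext y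
      rw [Subgroup.mem_map, Subgroup.mem_bot]
      constructor
      · rintro ⟨b, hb, rfl⟩
        exact (QuotientGroup.eq_one_iff b).2 hb
      · rintro rfl
        exact ⟨1, B.one_mem, map_one _⟩
    · right
      rw [← h3, hB.2 _ h4]
      exact Subgroup.map_top_of_surjective _ (QuotientGroup.mk'_surjective B)
  exact IsSimpleGroup.prime_card

/-- a subgroup which is not contained in a subgroup `B` of prime index -/
private lemma sub_card {A : Type} [CommGroup A] [Finite A] {B : Subgroup A}
    (hB : B.index.Prime) {H : Subgroup A} (hH : ¬ H ≤ B) :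
    Nat.card (H.subgroupOf B) * B.index = Nat.card H := by
  have h1 : B.relIndex H = B.index := by
    rcases (Nat.dvd_prime hB).1 (B.relIndex_dvd_index_of_normal H) with h | h
    · exact absurd (Subgroup.relIndex_eq_one.1 h) hH
    · exact h
  have h2 := Subgroup.card_mul_index (B.subgroupOf H)
  rw [← Subgroup.relIndex, h1] at h2
  have h3 : Nat.card (B.subgroupOf H) = Nat.card (H.subgroupOf B) :=
    Nat.card_congr
      { toFun := fun x => ⟨⟨x.1.1, Subgroup.mem_subgroupOf.1 x.2⟩, Subgroup.mem_subgroupOf.2 x.1.2⟩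
        invFun := fun x => ⟨⟨x.1.1, Subgroup.mem_subgroupOf.1 x.2⟩, Subgroup.mem_subgroupOf.2 x.1.2⟩
        left_inv := fun _ => rfl
        right_inv := fun _ => rfl }
  rw [← h3, h2]

/-- a subgroup is determined by its intersection with `B` and an element outside `B` -/
private lemma sub_eq {A : Type} [CommGroup A] [Finite A] {B : Subgroup A}
    (hB : B.index.Prime) {H H' : Subgroup A} {x : A} (hx : x ∉ B)
    (hxH : x ∈ H) (hxH' : x ∈ H') (hK : H.subgroupOf B = H'.subgroupOf B) : H = H' := by
  have key : ∀ {H H' : Subgroup A}, x ∈ H → x ∈ H' → H.subgroupOf B = H'.subgroupOf B →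
      H ≤ H' := by
    intro H H' hxH hxH' hK y hy
    have : Fact B.index.Prime := ⟨hB⟩
    have hx1 : (QuotientGroup.mk x : A ⧸ B) ≠ 1 := fun h => hx ((QuotientGroup.eq_one_iff x).1 h)
    have h1 : (QuotientGroup.mk y : A ⧸ B) ∈ Subgroup.zpowers (QuotientGroup.mk x : A ⧸ B) :=
      mem_zpowers_of_prime_card (p := B.index) rfl hx1
    obtain ⟨k, hk⟩ := Subgroup.mem_zpowers_iff.1 h1
    rw [← QuotientGroup.mk_zpow, QuotientGroup.eq] at hk
    have h2 : (x ^ k)⁻¹ * y ∈ H := H.mul_mem (H.inv_mem (H.zpow_mem hxH k)) hy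
    have h3 : (⟨(x ^ k)⁻¹ * y, hk⟩ : B) ∈ H.subgroupOf B := Subgroup.mem_subgroupOf.2 h2
    rw [hK, Subgroup.mem_subgroupOf] at h3
    have h4 : x ^ k * ((x ^ k)⁻¹ * y) ∈ H' := H'.mul_mem (H'.zpow_mem hxH' k) h3
    rwa [mul_inv_cancel_left] at h4
  exact le_antisymm (key hxH hxH' hK) (key hxH' hxH hK.symm)

theorem nOrd_step (A : Type) [CommGroup A] [Finite A] (B : Subgroup A) (hB : B.index.Prime) (h : ℕ) :
    (nOrd A h : ℝ) ≤ nOrd B h +
      (if B.index ∣ h then (Nat.card A : ℝ) * B.index / h * nOrd B (h / B.index) else 0) := by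
  classical
  have hsum : nOrd A h = Nat.card {H : {H : Subgroup A // Nat.card H = h} // H.1 ≤ B} +
      Nat.card {H : {H : Subgroup A // Nat.card H = h} // ¬ H.1 ≤ B} := by
    rw [← Nat.card_sum]
    exact Nat.card_congr
      (Equiv.sumCompl (fun H : {H : Subgroup A // Nat.card H = h} => H.1 ≤ B)).symm
  have hS1 : Nat.card {H : {H : Subgroup A // Nat.card H = h} // H.1 ≤ B} ≤ nOrd B h := by
    have hc : ∀ H : {H : {H : Subgroup A // Nat.card H = h} // H.1 ≤ B},
        Nat.card (H.1.1.subgroupOf B) = h := by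
      intro H
      rw [Nat.card_congr (Subgroup.subgroupOfEquivOfLe H.2).toEquiv]
      exact H.1.2
    refine Nat.card_le_card_of_injective
      (fun H => (⟨H.1.1.subgroupOf B, hc H⟩ : {K : Subgroup B // Nat.card K = h})) ?_
    intro H H' hHH
    have h1 : H.1.1.subgroupOf B = H'.1.1.subgroupOf B := congrArg Subtype.val hHH
    rw [Subgroup.subgroupOf_inj, inf_eq_left.2 H.2, inf_eq_left.2 H'.2] at h1
    exact Subtype.ext (Subtype.ext h1)
  have hS2 : (Nat.card {H : {H : Subgroup A // Nat.card H = h} // ¬ H.1 ≤ B} : ℝ) ≤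
      (if B.index ∣ h then (Nat.card A : ℝ) * B.index / h * nOrd B (h / B.index) else 0) := by
    rcases isEmpty_or_nonempty {H : {H : Subgroup A // Nat.card H = h} // ¬ H.1 ≤ B} with he | he
    · rw [Nat.card_of_isEmpty, Nat.cast_zero]
      split_ifs
      · positivity
      · exact le_refl _
    · obtain ⟨H₀⟩ := he
      have hcard : ∀ H : {H : {H : Subgroup A // Nat.card H = h} // ¬ H.1 ≤ B},
          Nat.card (H.1.1.subgroupOf B) = h / B.index := by
        intro H
        have h1 := sub_card hB H.2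
        rw [H.1.2] at h1
        exact (Nat.div_eq_of_eq_mul_left hB.pos h1.symm).symm
      have hdvd : B.index ∣ h := by
        have h1 := sub_card hB H₀.2
        rw [H₀.1.2] at h1
        exact ⟨_, by rw [← h1, mul_comm]⟩
      have hm : 0 < h / B.index := by
        rw [← hcard H₀]
        exact Nat.card_pos
      rw [if_pos hdvd]
      have hx : ∀ H : {H : {H : Subgroup A // Nat.card H = h} // ¬ H.1 ≤ B},
          ∃ x ∈ H.1.1, x ∉ B := fun H => SetLike.not_le_iff_exists.1 H.2
      choose x hxH hxB using hx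
      have hle : Nat.card (Σ H : {H : {H : Subgroup A // Nat.card H = h} // ¬ H.1 ≤ B},
          H.1.1.subgroupOf B) ≤ Nat.card ({K : Subgroup B // Nat.card K = h / B.index} × A) := by
        refine Nat.card_le_card_of_injective
          (fun y => ((⟨y.1.1.1.subgroupOf B, hcard y.1⟩ :
            {K : Subgroup B // Nat.card K = h / B.index}), x y.1 * ((y.2 : B) : A))) ?_
        rintro ⟨H, k⟩ ⟨H', k'⟩ hHH
        have h1 : H.1.1.subgroupOf B = H'.1.1.subgroupOf B :=
          congrArg Subtype.val (congrArg Prod.fst hHH)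
        have h2 : x H * ((k : B) : A) = x H' * ((k' : B) : A) := congrArg Prod.snd hHH
        have h3 : H = H' := by
          apply Subtype.ext
          apply Subtype.ext
          refine sub_eq hB (x := x H * ((k : B) : A)) ?_ ?_ ?_ h1
          · intro h4
            exact hxB H ((B.mul_mem_cancel_right (k : B).2).1 h4)
          · exact H.1.1.mul_mem (hxH H) (Subgroup.mem_subgroupOf.1 k.2)
          · rw [h2]
            exact H'.1.1.mul_mem (hxH H') (Subgroup.mem_subgroupOf.1 k'.2)
        subst h3
        have h5 : ((k : B) : A) = ((k' : B) : A) := mul_left_cancel h2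
        have h6 : k = k' := Subtype.ext (Subtype.ext h5)
        rw [h6]
      have : Fintype {H : {H : Subgroup A // Nat.card H = h} // ¬ H.1 ≤ B} :=
        Fintype.ofFinite _
      rw [Nat.card_sigma, Nat.card_prod] at hle
      simp only [hcard] at hle
      rw [Finset.sum_const, Finset.card_univ, smul_eq_mul, ← Nat.card_eq_fintype_card] at hle
      have hle' : (Nat.card {H : {H : Subgroup A // Nat.card H = h} // ¬ H.1 ≤ B} : ℝ) *
          ((h / B.index : ℕ) : ℝ) ≤ (nOrd B (h / B.index) : ℝ) * Nat.card A := by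
        exact_mod_cast hle
      obtain ⟨m, rfl⟩ := hdvd
      rw [Nat.mul_div_cancel_left m hB.pos] at hm hle' ⊢
      have hm' : (0 : ℝ) < m := by exact_mod_cast hm
      have hp' : (0 : ℝ) < B.index := by exact_mod_cast hB.pos
      rw [Nat.cast_mul, mul_comm (Nat.card A : ℝ), mul_div_mul_left _ _ hp'.ne', div_mul_eq_mul_div,
        le_div_iff₀ hm', mul_comm (Nat.card A : ℝ)]
      exact hle'
  rw [hsum]
  push_cast
  have hS1' : (Nat.card {H : {H : Subgroup A // Nat.card H = h} // H.1 ≤ B} : ℝ) ≤ nOrd B h := by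
    exact_mod_cast hS1
  exact add_le_add hS1' hS2

end Pool.Agent.AbS
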