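import Pool.Agent.AbS.SubA

/-!
Upper bound for the number of subgroups of a finite abelian group all of whose prime factors are at least `t`.

`nOrd_le` by strong induction on `|A|` with `exists_index_prime` and `nOrd_step` (`p = B.index ≥ t`, `|A| = p |B|`,
`Subgroup.index_mul_card`): with `g(N,h) = exp ((log t + log N - log h) log h / log t)` one has `g(N/p, h) ≤ g(N, h)`
and, for `h ∣ N`, `p ∣ h`, `y = N / h ≥ 1`: `p y g(N/p, h/p) ≤ g(N, h)` because
`log p + log y ≤ (log t + log y) log p / log t`; then `|B| (g + g) ≤ |A| g`. If `h` does not divide `|A|` then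
`nOrd A h = 0`. `card_subgroup_le`: sum over `h ≤ |A|` and `(a - b) b ≤ a ^ 2 / 4`.
-/

set_option autoImplicit false

namespace Pool.Agent.AbS

private theorem nOrd_zero {A : Type} [CommGroup A] [Finite A] {h : ℕ} (hh : ¬ h ∣ Nat.card A) :
    nOrd A h = 0 := by
  unfold nOrd
  rw [Nat.card_eq_zero]
  left
  refine ⟨fun H => hh ?_⟩
  rw [← H.2]
  exact Subgroup.card_subgroup_dvd_card H.1

private theorem nOrd_aux (t : ℕ) (ht : 2 ≤ t) : ∀ (n : ℕ) (A : Type) [CommGroup A] [Finite A],
    Nat.card A = n → (∀ p : ℕ, p.Prime → p ∣ Nat.card A → t ≤ p) → ∀ h : ℕ, h ∣ Nat.card A →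
    (nOrd A h : ℝ) ≤ Nat.card A *
      Real.exp ((Real.log t + Real.log (Nat.card A) - Real.log h) * Real.log h / Real.log t) := by
  intro n
  induction n using Nat.strong_induction_on with
  | _ n ih =>
  intro A _ _ hn hA h hh
  have hL : 0 < Real.log (t : ℝ) := Real.log_pos (by exact_mod_cast (by omega : 1 < t))
  have hN0 : 0 < Nat.card A := Nat.card_pos
  rcases Nat.eq_or_lt_of_le (Nat.one_le_iff_ne_zero.2 hN0.ne') with h1 | h1
  · -- trivial group
    rw [← h1] at hh ⊢
    have h2 : h = 1 := Nat.dvd_one.1 hh
    subst h2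
    have h3 : nOrd A 1 ≤ 1 := by
      unfold nOrd
      have : Subsingleton {H : Subgroup A // Nat.card H = 1} := by
        refine ⟨fun H H' => Subtype.ext ?_⟩
        rw [Subgroup.card_eq_one.1 H.2, Subgroup.card_eq_one.1 H'.2]
      exact Finite.card_le_one_iff_subsingleton.2 this
    have h4 : (nOrd A 1 : ℝ) ≤ 1 := by exact_mod_cast h3
    simpa using h4
  · obtain ⟨B, hB⟩ := exists_index_prime A h1
    obtain ⟨p, hp⟩ : ∃ p, p = B.index := ⟨_, rfl⟩
    obtain ⟨M, hM⟩ : ∃ M, M = Nat.card B := ⟨_, rfl⟩
    obtain ⟨N, hN⟩ : ∃ N, N = Nat.card A := ⟨_, rfl⟩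
    have hpM : p * M = N := by rw [hp, hM, hN, mul_comm]; exact B.card_mul_index
    have hstep := nOrd_step A B hB h
    rw [← hp] at hB hstep
    have hpN : p ∣ Nat.card A := by rw [← hN, ← hpM]; exact Nat.dvd_mul_right p M
    have htp : t ≤ p := hA p hB hpN
    have hM0 : 0 < M := by rw [hM]; exact Nat.card_pos
    have hMN : M < n := by
      rw [← hn, ← hN, ← hpM]
      have := hB.two_le
      nlinarith
    have hh0 : 0 < h := Nat.pos_of_dvd_of_pos hh hN0
    have hBA : ∀ r : ℕ, r.Prime → r ∣ Nat.card B → t ≤ r := by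
      intro r hr hrB
      refine hA r hr (hrB.trans ?_)
      exact Subgroup.card_subgroup_dvd_card B
    have hIH := ih M hMN B hM.symm hBA
    rw [← hM] at hIH
    rw [← hN] at hh hN0 hstep ⊢
    -- logarithms
    have hp0 : (0 : ℝ) < p := by exact_mod_cast hB.pos
    have hM0' : (0 : ℝ) < M := by exact_mod_cast hM0
    have hh0' : (0 : ℝ) < h := by exact_mod_cast hh0
    have hlogN : Real.log N = Real.log p + Real.log M := by
      rw [← hpM]
      push_cast
      rw [Real.log_mul hp0.ne' hM0'.ne']
    have hlogp : Real.log t ≤ Real.log p := Real.log_le_log (by positivity) (by exact_mod_cast htp)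
    have hlogh : 0 ≤ Real.log h := Real.log_nonneg (by exact_mod_cast hh0)
    have hlogMpos : 0 ≤ Real.log M := Real.log_nonneg (by exact_mod_cast hM0)
    have hhN : (h : ℝ) ≤ N := by exact_mod_cast Nat.le_of_dvd hN0 hh
    have hloghN : Real.log h ≤ Real.log N := Real.log_le_log hh0' hhN
    obtain ⟨g, hg⟩ : ∃ g : ℝ, g = Real.exp ((Real.log t + Real.log N - Real.log h) * Real.log h /
      Real.log t) := ⟨_, rfl⟩
    rw [← hg]
    have hg0 : 0 < g := by rw [hg]; exact Real.exp_pos _
    have hT1 : (nOrd B h : ℝ) ≤ M * g := by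
      by_cases hhM : h ∣ M
      · refine (hIH h hhM).trans (mul_le_mul_of_nonneg_left ?_ hM0'.le)
        rw [hg]
        apply Real.exp_le_exp.2
        have h5 : Real.log M ≤ Real.log N := by rw [hlogN]; linarith
        gcongr
      · rw [nOrd_zero (by rw [← hM]; exact hhM)]
        push_cast
        positivity
    have hT2 : (if p ∣ h then (N : ℝ) * p / h * nOrd B (h / p) else 0) ≤ M * g := by
      split_ifs with hph
      · obtain ⟨k, hk⟩ := hph
        have hk0 : 0 < k := Nat.pos_of_ne_zero (by rintro rfl; simp at hk; omega)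
        have hk0' : (0 : ℝ) < k := by exact_mod_cast hk0
        have hkp : h / p = k := by rw [hk]; exact Nat.mul_div_cancel_left k hB.pos
        have hkM : k ∣ M := by
          rw [hk, ← hpM] at hh
          exact Nat.dvd_of_mul_dvd_mul_left hB.pos hh
        have h5 := hIH k hkM
        rw [hkp]
        have hlogk : Real.log h = Real.log p + Real.log k := by
          rw [hk]
          push_cast
          rw [Real.log_mul hp0.ne' hk0'.ne']
        have h6 : (N : ℝ) * p / h = Real.exp (Real.log N + Real.log p - Real.log h) := by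
          rw [Real.exp_sub, Real.exp_add, Real.exp_log (by exact_mod_cast hN0), Real.exp_log hp0,
            Real.exp_log hh0']
        calc (N : ℝ) * p / h * nOrd B k ≤ (N : ℝ) * p / h * (M *
              Real.exp ((Real.log t + Real.log M - Real.log k) * Real.log k / Real.log t)) :=
              mul_le_mul_of_nonneg_left h5 (by positivity)
          _ = M * Real.exp ((Real.log N + Real.log p - Real.log h) +
              (Real.log t + Real.log M - Real.log k) * Real.log k / Real.log t) := by
              rw [h6, Real.exp_add]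
              ring
          _ ≤ M * g := by
              rw [hg]
              refine mul_le_mul_of_nonneg_left (Real.exp_le_exp.2 ?_) hM0'.le
              rw [hlogk, hlogN, ← sub_nonneg]
              have e1 : (Real.log t + (Real.log p + Real.log M) - (Real.log p + Real.log k)) *
                  (Real.log p + Real.log k) / Real.log t -
                  (Real.log p + Real.log M + Real.log p - (Real.log p + Real.log k) +
                  (Real.log t + Real.log M - Real.log k) * Real.log k / Real.log t) =
                  (Real.log M - Real.log k) * (Real.log p - Real.log t) / Real.log t := by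
                field_simp
                ring
              rw [e1]
              have e2 : 0 ≤ Real.log M - Real.log k := by
                rw [hlogk, hlogN] at hloghN
                linarith
              have e3 : 0 ≤ Real.log p - Real.log t := by linarith
              positivity
      · positivity
    have h7 : (2 : ℝ) * M ≤ N := by
      have : 2 * M ≤ N := by
        rw [← hpM]
        exact Nat.mul_le_mul_right M hB.two_le
      exact_mod_cast this
    calc (nOrd A h : ℝ) ≤ M * g + M * g := hstep.trans (add_le_add hT1 hT2)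
      _ = (2 * M) * g := by ring
      _ ≤ N * g := mul_le_mul_of_nonneg_right h7 hg0.le

theorem nOrd_le (t : ℕ) (ht : 2 ≤ t) (A : Type) [CommGroup A] [Finite A]
    (hA : ∀ p : ℕ, p.Prime → p ∣ Nat.card A → t ≤ p) (h : ℕ) (hh : h ∣ Nat.card A) :
    (nOrd A h : ℝ) ≤ Nat.card A *
      Real.exp ((Real.log t + Real.log (Nat.card A) - Real.log h) * Real.log h / Real.log t) :=
  nOrd_aux t ht (Nat.card A) A rfl hA h hh

theorem card_subgroup_le (t : ℕ) (ht : 2 ≤ t) (A : Type) [CommGroup A] [Finite A]
    (hA : ∀ p : ℕ, p.Prime → p ∣ Nat.card A → t ≤ p) :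
    (Nat.card (Subgroup A) : ℝ) ≤ (Nat.card A : ℝ) ^ 2 *
      Real.exp (Real.log t * (Real.log (Nat.card A) / Real.log t + 1) ^ 2 / 4) := by
  classical
  have : Fintype (Subgroup A) := Fintype.ofFinite _
  have hL : 0 < Real.log (t : ℝ) := Real.log_pos (by exact_mod_cast (by omega : 1 < t))
  obtain ⟨N, hN⟩ : ∃ N, N = Nat.card A := ⟨_, rfl⟩
  have hN0 : 0 < N := by rw [hN]; exact Nat.card_pos
  have h1 : Nat.card (Subgroup A) = ∑ h ∈ N.divisors, nOrd A h := by
    rw [Nat.card_eq_fintype_card, ← Finset.card_univ,
      Finset.card_eq_sum_card_fiberwise (f := fun H : Subgroup A => Nat.card H) (t := N.divisors)]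
    · refine Finset.sum_congr rfl fun h _ => ?_
      unfold nOrd
      rw [Nat.card_eq_fintype_card, Fintype.card_subtype]
    · intro H _
      simp only [Finset.mem_coe, Nat.mem_divisors]
      exact ⟨by rw [hN]; exact Subgroup.card_subgroup_dvd_card H, hN0.ne'⟩
  rw [h1, ← hN]
  push_cast
  have h2 : ∀ h ∈ N.divisors, (nOrd A h : ℝ) ≤
      N * Real.exp (Real.log t * (Real.log N / Real.log t + 1) ^ 2 / 4) := by
    intro h hh
    have h3 := nOrd_le t ht A hA h (by rw [← hN]; exact Nat.dvd_of_mem_divisors hh)
    rw [← hN] at h3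
    refine h3.trans (mul_le_mul_of_nonneg_left (Real.exp_le_exp.2 ?_) (by positivity))
    rw [div_le_iff₀ hL]
    have h4 : Real.log t * (Real.log N / Real.log t + 1) ^ 2 / 4 * Real.log t =
        (Real.log N + Real.log t) ^ 2 / 4 := by
      field_simp
    rw [h4]
    nlinarith [sq_nonneg (Real.log t + Real.log N - 2 * Real.log h)]
  calc ∑ h ∈ N.divisors, (nOrd A h : ℝ) ≤ N.divisors.card •
        (N * Real.exp (Real.log t * (Real.log N / Real.log t + 1) ^ 2 / 4)) :=
        Finset.sum_le_card_nsmul _ _ _ h2
    _ ≤ (N : ℝ) ^ 2 * Real.exp (Real.log t * (Real.log N / Real.log t + 1) ^ 2 / 4) := by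
        rw [nsmul_eq_mul, pow_two (N : ℝ), mul_assoc]
        have : (N.divisors.card : ℝ) ≤ N := by exact_mod_cast Nat.card_divisors_le_self N
        exact mul_le_mul_of_nonneg_right this (by positivity)

end Pool.Agent.AbS
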